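import Mathlib

/-! Multithreshold graphs: threshold number and threshold dimension. -/

namespace Pool.Agent.X72.Multithreshold

variable {V : Type*}

/-- `k`-threshold graphs: there are `θ 0 < ⋯ < θ (k-1)` and ranks `r v` such that distinct `v, w`
are adjacent iff the number of `i` with `θ i ≤ r v + r w` is odd. -/
def IsKThreshold (k : ℕ) (G : SimpleGraph V) : Prop :=
  ∃ (θ : Fin k → ℝ) (r : V → ℝ), StrictMono θ ∧
    ∀ v w, v ≠ w → (G.Adj v w ↔ Odd (Set.ncard {i : Fin k | θ i ≤ r v + r w}))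

/-- The threshold number `Θ(G)`: the least `k` such that `G` is `k`-threshold. -/
noncomputable def Theta (G : SimpleGraph V) : ℕ∞ := ⨅ (k : ℕ) (_ : IsKThreshold k G), (k : ℕ∞)

/-- The threshold dimension `t(G)`: the least `k` such that the edge set of `G` is the union of the
edge sets of `k` threshold (that is, `1`-threshold) graphs on the same vertex set. -/
noncomputable def thresholdDim (G : SimpleGraph V) : ℕ∞ :=
  ⨅ (k : ℕ) (_ : ∃ H : Fin k → SimpleGraph V, (∀ i, IsKThreshold 1 (H i)) ∧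
    ∀ v w, G.Adj v w ↔ ∃ i, (H i).Adj v w), (k : ℕ∞)

/-! ### A counting lemma -/

/-- In a `k`-threshold graph, vertices with different neighbourhoods in a set of reference vertices
number at most `k |reference set| + 1`. -/
theorem card_le {α β : Type*} [Fintype α] [Fintype β] {k : ℕ} {G : SimpleGraph V}
    (h : IsKThreshold k G) (P : α → V) (Q : β → V) (hPQ : ∀ a b, P a ≠ Q b)
    (hd : ∀ a a', a ≠ a' → ∃ b, ¬ (G.Adj (P a) (Q b) ↔ G.Adj (P a') (Q b))) :
    Fintype.card α ≤ k * Fintype.card β + 1 := by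
  classical
  obtain ⟨θ, r, -, hr⟩ := h
  let S : α → Finset (Fin k × β) := fun a => Finset.univ.filter fun p =>
    θ p.1 ≤ r (P a) + r (Q p.2)
  have hinj : ∀ a a', (S a).card = (S a').card → a = a' := by
    intro a a' hcard
    by_contra hne
    obtain ⟨b, hb⟩ := hd a a' hne
    apply hb
    have hS : S a = S a' := by
      rcases le_total (r (P a)) (r (P a')) with hle | hle
      · apply Finset.eq_of_subset_of_card_le _ hcard.ge
        intro p hp
        simp only [S, Finset.mem_filter, Finset.mem_univ, true_and] at hp ⊢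
        linarith
      · symm
        apply Finset.eq_of_subset_of_card_le _ hcard.le
        intro p hp
        simp only [S, Finset.mem_filter, Finset.mem_univ, true_and] at hp ⊢
        linarith
    rw [hr _ _ (hPQ a b), hr _ _ (hPQ a' b)]
    have : {i : Fin k | θ i ≤ r (P a) + r (Q b)} = {i : Fin k | θ i ≤ r (P a') + r (Q b)} := by
      ext i
      have h1 : (i, b) ∈ S a ↔ (i, b) ∈ S a' := by rw [hS]
      show θ i ≤ r (P a) + r (Q b) ↔ θ i ≤ r (P a') + r (Q b)
      simpa only [S, Finset.mem_filter, Finset.mem_univ, true_and] using h1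
    rw [this]
  have hmaps : ∀ a ∈ (Finset.univ : Finset α), (S a).card ∈ Finset.range (k * Fintype.card β + 1) := by
    intro a _
    rw [Finset.mem_range, Nat.lt_succ_iff]
    refine (Finset.card_le_univ _).trans ?_
    rw [Fintype.card_prod, Fintype.card_fin]
  have := Finset.card_le_card_of_injOn (fun a => (S a).card) hmaps
    (fun a _ a' _ h => hinj a a' h)
  simpa using this

/-! ### The graph -/

/-- the threshold graph with the given ranks and threshold `0` -/
def thr (ρ : V → ℝ) : SimpleGraph V where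
  Adj x y := x ≠ y ∧ 0 ≤ ρ x + ρ y
  symm := ⟨fun _ _ h => ⟨h.1.symm, by rw [add_comm]; exact h.2⟩⟩
  loopless := ⟨fun _ h => h.1 rfl⟩

theorem thr_isThreshold (ρ : V → ℝ) : IsKThreshold 1 (thr ρ) := by
  refine ⟨fun _ => 0, ρ, Subsingleton.strictMono _, fun v w hvw => ?_⟩
  by_cases h : 0 ≤ ρ v + ρ w
  · have : {i : Fin 1 | (0 : ℝ) ≤ ρ v + ρ w} = Set.univ := by ext; simp [h]
    rw [this]
    simp [thr, hvw, h]
  · have : {i : Fin 1 | (0 : ℝ) ≤ ρ v + ρ w} = ∅ := by ext; simp [h]
    rw [this]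
    simp [thr, h]

/-- the vertices: `(s,t)` with `0 ≤ s, t ≤ d`, and two families of `d` reference vertices -/
abbrev Vert (d : ℕ) : Type := (Fin (d + 1) × Fin (d + 1)) ⊕ (Bool × Fin d)

/-- the first ranks -/
def rk1 (d : ℕ) : Vert d → ℝ
  | .inl p => (p.1 : ℕ) + (d + 2)
  | .inr (false, j) => -((j : ℕ) + 1) - (d + 2)
  | .inr (true, _) => -3 * (d + 2)

/-- the second ranks -/
def rk2 (d : ℕ) : Vert d → ℝ
  | .inl p => (p.2 : ℕ) + (d + 2)
  | .inr (true, j) => -((j : ℕ) + 1) - (d + 2)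
  | .inr (false, _) => -3 * (d + 2)

/-- the union of two threshold graphs -/
def Gd (d : ℕ) : SimpleGraph (Vert d) := thr (rk1 d) ⊔ thr (rk2 d)

theorem adj_b (d : ℕ) (p : Fin (d + 1) × Fin (d + 1)) (j : Fin d) :
    (Gd d).Adj (.inl p) (.inr (false, j)) ↔ (j : ℕ) < p.1 := by
  have h1 : (p.1 : ℕ) ≤ d := Nat.lt_succ_iff.mp p.1.2
  have h2 : (p.2 : ℕ) ≤ d := Nat.lt_succ_iff.mp p.2.2
  have h1' : ((p.1 : ℕ) : ℝ) ≤ d := by exact_mod_cast h1
  have h2' : ((p.2 : ℕ) : ℝ) ≤ d := by exact_mod_cast h2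
  have h3 : (0 : ℝ) ≤ d := by positivity
  simp only [Gd, thr, SimpleGraph.sup_adj, ne_eq, reduceCtorEq, not_false_eq_true, true_and, rk1,
    rk2]
  constructor
  · rintro (h | h)
    · have : ((j : ℕ) : ℝ) + 1 ≤ (p.1 : ℕ) := by linarith
      have : (j : ℕ) + 1 ≤ (p.1 : ℕ) := by exact_mod_cast this
      omega
    · exfalso; linarith
  · intro h
    left
    have : ((j : ℕ) : ℝ) + 1 ≤ (p.1 : ℕ) := by exact_mod_cast h
    linarith

theorem adj_c (d : ℕ) (p : Fin (d + 1) × Fin (d + 1)) (j : Fin d) :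
    (Gd d).Adj (.inl p) (.inr (true, j)) ↔ (j : ℕ) < p.2 := by
  have h1 : (p.1 : ℕ) ≤ d := Nat.lt_succ_iff.mp p.1.2
  have h2 : (p.2 : ℕ) ≤ d := Nat.lt_succ_iff.mp p.2.2
  have h1' : ((p.1 : ℕ) : ℝ) ≤ d := by exact_mod_cast h1
  have h2' : ((p.2 : ℕ) : ℝ) ≤ d := by exact_mod_cast h2
  have h3 : (0 : ℝ) ≤ d := by positivity
  simp only [Gd, thr, SimpleGraph.sup_adj, ne_eq, reduceCtorEq, not_false_eq_true, true_and, rk1,
    rk2]
  constructor
  · rintro (h | h)
    · exfalso; linarith
    · have : ((j : ℕ) : ℝ) + 1 ≤ (p.2 : ℕ) := by linarith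
      have : (j : ℕ) + 1 ≤ (p.2 : ℕ) := by exact_mod_cast this
      omega
  · intro h
    right
    have : ((j : ℕ) : ℝ) + 1 ≤ (p.2 : ℕ) := by exact_mod_cast h
    linarith

/-- distinct free vertices have different neighbourhoods in the reference set -/
theorem distinct (d : ℕ) (p q : Fin (d + 1) × Fin (d + 1)) (h : p ≠ q) :
    ∃ b : Bool × Fin d, ¬ ((Gd d).Adj (.inl p) (.inr b) ↔ (Gd d).Adj (.inl q) (.inr b)) := by
  have key : ∀ x y : Fin (d + 1), x ≠ y → ∃ j : Fin d, ¬ ((j : ℕ) < x ↔ (j : ℕ) < y) := by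
    intro x y hxy
    have hx : (x : ℕ) < d + 1 := x.2
    have hy : (y : ℕ) < d + 1 := y.2
    have hne : (x : ℕ) ≠ y := fun e => hxy (Fin.ext e)
    rcases lt_or_gt_of_ne hne with h | h
    · refine ⟨⟨x, by omega⟩, fun e => ?_⟩
      have := e.mpr h
      simp at this
    · refine ⟨⟨y, by omega⟩, fun e => ?_⟩
      have := e.mp h
      simp at this
  by_cases h1 : p.1 = q.1
  · have h2 : p.2 ≠ q.2 := fun e => h (Prod.ext h1 e)
    obtain ⟨j, hj⟩ := key _ _ h2
    exact ⟨(true, j), by rw [adj_c, adj_c]; exact hj⟩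
  · obtain ⟨j, hj⟩ := key _ _ h1
    exact ⟨(false, j), by rw [adj_b, adj_b]; exact hj⟩

theorem not_kThreshold (d k : ℕ) (hk : k * (2 * d) + 1 < (d + 1) * (d + 1)) :
    ¬ IsKThreshold k (Gd d) := by
  intro h
  have := card_le h (fun p => Sum.inl p) (fun b => Sum.inr b) (by simp) (distinct d)
  simp only [Fintype.card_prod, Fintype.card_fin, Fintype.card_bool] at this
  omega

theorem not_kThreshold_compl (d k : ℕ) (hk : k * (2 * d) + 1 < (d + 1) * (d + 1)) :
    ¬ IsKThreshold k (Gd d)ᶜ := by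
  intro h
  have := card_le h (fun p => Sum.inl p) (fun b => Sum.inr b) (by simp) (by
    intro p q hpq
    obtain ⟨b, hb⟩ := distinct d p q hpq
    refine ⟨b, fun e => hb ?_⟩
    simp only [SimpleGraph.compl_adj, ne_eq, reduceCtorEq, not_false_eq_true, true_and] at e
    exact not_iff_not.mp e)
  simp only [Fintype.card_prod, Fintype.card_fin, Fintype.card_bool] at this
  omega

theorem lt_theta {G : SimpleGraph V} {C : ℕ} (h : ∀ k ≤ C, ¬ IsKThreshold k G) :
    (C : ℕ∞) < Theta G := by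
  have : ((C + 1 : ℕ) : ℕ∞) ≤ Theta G := by
    refine le_iInf fun k => le_iInf fun hk => ?_
    have : ¬ k ≤ C := fun hle => h k hle hk
    exact_mod_cast (by omega : C + 1 ≤ k)
  refine lt_of_lt_of_le ?_ this
  exact_mod_cast Nat.lt_succ_self C

theorem dim_eq_two (d : ℕ) (hd : 2 ≤ d) : thresholdDim (Gd d) = 2 := by
  apply le_antisymm
  · refine iInf_le_of_le 2 (iInf_le_of_le ⟨![thr (rk1 d), thr (rk2 d)], ?_, ?_⟩ le_rfl)
    · intro i
      fin_cases i
      · exact thr_isThreshold _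
      · exact thr_isThreshold _
    · intro v w
      rw [Fin.exists_fin_two]
      rfl
  · refine le_iInf fun k => le_iInf fun hk => ?_
    obtain ⟨H, h1, h2⟩ := hk
    have : 2 ≤ k := by
      by_contra hlt
      have hk01 : k = 0 ∨ k = 1 := by omega
      rcases hk01 with rfl | rfl
      · have hadj : (Gd d).Adj (.inl (Fin.last d, Fin.last d)) (.inr (false, ⟨0, by omega⟩)) := by
          rw [adj_b]; simp; omega
        rw [h2] at hadj
        obtain ⟨i, -⟩ := hadj
        exact i.elim0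
      · have hG : Gd d = H 0 := by
          ext v w
          rw [h2]
          constructor
          · rintro ⟨i, hi⟩
            rwa [Subsingleton.elim i 0] at hi
          · intro h; exact ⟨0, h⟩
        apply not_kThreshold d 1 (by nlinarith)
        rw [hG]
        exact h1 0
    exact_mod_cast this

end Pool.Agent.X72.Multithreshold
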