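import Mathlib

/-! Restricted growth functions: the patterns 1121 and 1211 have the same number of copies
    in distribution. -/

namespace Pool.Agent.X72.RGFW

/-- insertion of 1's: a leading 1, then `g` letters of `v`, then a 1, ... -/
def build : List ℕ → List ℕ → List ℕ
  | [], v => 1 :: v
  | g :: gs, v => 1 :: (v.take g ++ build gs (v.drop g))

def RgfFrom : ℕ → List ℕ → Prop
  | _, [] => True
  | m, a :: l => 1 ≤ a ∧ a ≤ m + 1 ∧ RgfFrom (max m a) l

def B2 (x : ℕ) : List ℕ → ℕ
  | [] => 0
  | b :: l => B2 x l + if x < b then l.count x else 0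
def B3 (x : ℕ) : List ℕ → ℕ
  | [] => 0
  | b :: l => B3 x l + if b = x then B2 x l else 0
def A : List ℕ → ℕ
  | [] => 0
  | a :: l => A l + B3 a l
def C2 (x : ℕ) : List ℕ → ℕ
  | [] => 0
  | b :: l => C2 x l + if b = x then l.count x else 0
def C3 (x : ℕ) : List ℕ → ℕ
  | [] => 0
  | b :: l => C3 x l + if x < b then C2 x l else 0
def D : List ℕ → ℕ
  | [] => 0
  | a :: l => D l + C3 a l

def A1 : List ℕ → ℕ
  | [] => 0
  | a :: l => A1 l + if a = 1 then B3 1 l else 0
def D1 : List ℕ → ℕ
  | [] => 0
  | a :: l => D1 l + if a = 1 then C3 1 l else 0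

/-! ### shift invariance -/

lemma count_map_succ (x : ℕ) (l : List ℕ) : (l.map Nat.succ).count (x + 1) = l.count x := by
  induction l with
  | nil => rfl
  | cons b l ih => simp [List.count_cons, ih]

lemma count_map_succ' (x : ℕ) (l : List ℕ) : (l.map (· + 1)).count (x + 1) = l.count x :=
  count_map_succ x l

lemma B2_map (x : ℕ) (l : List ℕ) : B2 (x + 1) (l.map Nat.succ) = B2 x l := by
  induction l with
  | nil => rfl
  | cons b l ih =>
    simp only [List.map_cons, B2, ih, count_map_succ]
    simp

lemma B3_map (x : ℕ) (l : List ℕ) : B3 (x + 1) (l.map Nat.succ) = B3 x l := by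
  induction l with
  | nil => rfl
  | cons b l ih =>
    simp only [List.map_cons, B3, ih, B2_map]
    simp

lemma A_map (l : List ℕ) : A (l.map Nat.succ) = A l := by
  induction l with
  | nil => rfl
  | cons b l ih =>
    simp only [List.map_cons, A, ih]
    rw [show Nat.succ b = b + 1 from rfl, B3_map]

lemma C2_map (x : ℕ) (l : List ℕ) : C2 (x + 1) (l.map Nat.succ) = C2 x l := by
  induction l with
  | nil => rfl
  | cons b l ih =>
    simp only [List.map_cons, C2, ih, count_map_succ]
    simp

lemma C3_map (x : ℕ) (l : List ℕ) : C3 (x + 1) (l.map Nat.succ) = C3 x l := by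
  induction l with
  | nil => rfl
  | cons b l ih =>
    simp only [List.map_cons, C3, ih, C2_map]
    simp

lemma D_map (l : List ℕ) : D (l.map Nat.succ) = D l := by
  induction l with
  | nil => rfl
  | cons b l ih =>
    simp only [List.map_cons, D, ih]
    rw [show Nat.succ b = b + 1 from rfl, C3_map]

/-! ### removal of the 1's -/

abbrev rem (l : List ℕ) : List ℕ := l.filter (fun a => a ≠ 1)

lemma count_rem (x : ℕ) (hx : x ≠ 1) (l : List ℕ) : (rem l).count x = l.count x := by
  unfold rem
  rw [List.count_filter]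
  simpa using hx

lemma B2_rem (x : ℕ) (hx : 2 ≤ x) (l : List ℕ) : B2 x (rem l) = B2 x l := by
  induction l with
  | nil => rfl
  | cons b l ih =>
    by_cases hb : b = 1
    · subst hb
      have h1 : rem (1 :: l) = rem l := by simp [rem]
      have h2 : ¬ x < 1 := by omega
      rw [h1, ih]
      simp [B2, h2]
    · have h1 : rem (b :: l) = b :: rem l := by simp [rem, hb]
      rw [h1]
      simp only [B2, ih, count_rem x (by omega)]

lemma B3_rem (x : ℕ) (hx : 2 ≤ x) (l : List ℕ) : B3 x (rem l) = B3 x l := by
  induction l with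
  | nil => rfl
  | cons b l ih =>
    by_cases hb : b = 1
    · subst hb
      have h1 : rem (1 :: l) = rem l := by simp [rem]
      have h2 : ¬ 1 = x := by omega
      rw [h1, ih]
      simp [B3, h2]
    · have h1 : rem (b :: l) = b :: rem l := by simp [rem, hb]
      rw [h1]
      simp only [B3, ih, B2_rem x hx]

lemma C2_rem (x : ℕ) (hx : 2 ≤ x) (l : List ℕ) : C2 x (rem l) = C2 x l := by
  induction l with
  | nil => rfl
  | cons b l ih =>
    by_cases hb : b = 1
    · subst hb
      have h1 : rem (1 :: l) = rem l := by simp [rem]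
      have h2 : ¬ 1 = x := by omega
      rw [h1, ih]
      simp [C2, h2]
    · have h1 : rem (b :: l) = b :: rem l := by simp [rem, hb]
      rw [h1]
      simp only [C2, ih, count_rem x (by omega)]

lemma C3_rem (x : ℕ) (hx : 2 ≤ x) (l : List ℕ) : C3 x (rem l) = C3 x l := by
  induction l with
  | nil => rfl
  | cons b l ih =>
    by_cases hb : b = 1
    · subst hb
      have h1 : rem (1 :: l) = rem l := by simp [rem]
      have h2 : ¬ x < 1 := by omega
      rw [h1, ih]
      simp [C3, h2]
    · have h1 : rem (b :: l) = b :: rem l := by simp [rem, hb]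
      rw [h1]
      simp only [C3, ih, C2_rem x hx]

lemma A_eq (l : List ℕ) (hl : ∀ a ∈ l, 1 ≤ a) : A l = A (rem l) + A1 l := by
  induction l with
  | nil => rfl
  | cons b l ih =>
    have ih' := ih (fun a ha => hl a (List.mem_cons_of_mem _ ha))
    have hb1 := hl b List.mem_cons_self
    by_cases hb : b = 1
    · subst hb
      have h1 : rem (1 :: l) = rem l := by simp [rem]
      rw [h1]
      simp only [A, A1, ih', if_true]
      ring
    · have h1 : rem (b :: l) = b :: rem l := by simp [rem, hb]
      rw [h1]
      simp only [A, A1, ih', if_neg hb, B3_rem b (by omega)]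
      ring

lemma D_eq (l : List ℕ) (hl : ∀ a ∈ l, 1 ≤ a) : D l = D (rem l) + D1 l := by
  induction l with
  | nil => rfl
  | cons b l ih =>
    have ih' := ih (fun a ha => hl a (List.mem_cons_of_mem _ ha))
    have hb1 := hl b List.mem_cons_self
    by_cases hb : b = 1
    · subst hb
      have h1 : rem (1 :: l) = rem l := by simp [rem]
      rw [h1]
      simp only [D, D1, ih', if_true]
      ring
    · have h1 : rem (b :: l) = b :: rem l := by simp [rem, hb]
      rw [h1]
      simp only [D, D1, ih', if_neg hb, C3_rem b (by omega)]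
      ring

/-! ### the statistics of `build` -/

section
variable {v l : List ℕ}

lemma count_app (hv : ∀ a ∈ v, 1 < a) : (v ++ l).count 1 = l.count 1 := by
  rw [List.count_append]
  have : v.count 1 = 0 := by
    rw [List.count_eq_zero]
    intro h
    have := hv 1 h
    omega
  omega

lemma B2_app (hv : ∀ a ∈ v, 1 < a) : B2 1 (v ++ l) = B2 1 l + v.length * l.count 1 := by
  induction v with
  | nil => simp
  | cons b v ih =>
    have hv' : ∀ a ∈ v, 1 < a := fun a ha => hv a (List.mem_cons_of_mem _ ha)
    have hb := hv b List.mem_cons_self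
    simp only [List.cons_append, B2, ih hv', if_pos hb, count_app hv', List.length_cons]
    ring

lemma B3_app (hv : ∀ a ∈ v, 1 < a) : B3 1 (v ++ l) = B3 1 l := by
  induction v with
  | nil => simp
  | cons b v ih =>
    have hv' : ∀ a ∈ v, 1 < a := fun a ha => hv a (List.mem_cons_of_mem _ ha)
    have hb := hv b List.mem_cons_self
    have hb' : ¬ b = 1 := by omega
    simp only [List.cons_append, B3, ih hv', if_neg hb']
    rfl

lemma A1_app (hv : ∀ a ∈ v, 1 < a) : A1 (v ++ l) = A1 l := by
  induction v with
  | nil => simp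
  | cons b v ih =>
    have hv' : ∀ a ∈ v, 1 < a := fun a ha => hv a (List.mem_cons_of_mem _ ha)
    have hb := hv b List.mem_cons_self
    have hb' : ¬ b = 1 := by omega
    simp only [List.cons_append, A1, ih hv', if_neg hb']
    rfl

lemma C2_app (hv : ∀ a ∈ v, 1 < a) : C2 1 (v ++ l) = C2 1 l := by
  induction v with
  | nil => simp
  | cons b v ih =>
    have hv' : ∀ a ∈ v, 1 < a := fun a ha => hv a (List.mem_cons_of_mem _ ha)
    have hb := hv b List.mem_cons_self
    have hb' : ¬ b = 1 := by omega
    simp only [List.cons_append, C2, ih hv', if_neg hb']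
    rfl

lemma C3_app (hv : ∀ a ∈ v, 1 < a) : C3 1 (v ++ l) = C3 1 l + v.length * C2 1 l := by
  induction v with
  | nil => simp
  | cons b v ih =>
    have hv' : ∀ a ∈ v, 1 < a := fun a ha => hv a (List.mem_cons_of_mem _ ha)
    have hb := hv b List.mem_cons_self
    simp only [List.cons_append, C3, ih hv', if_pos hb, C2_app hv', List.length_cons]
    ring

lemma D1_app (hv : ∀ a ∈ v, 1 < a) : D1 (v ++ l) = D1 l := by
  induction v with
  | nil => simp
  | cons b v ih =>
    have hv' : ∀ a ∈ v, 1 < a := fun a ha => hv a (List.mem_cons_of_mem _ ha)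
    have hb := hv b List.mem_cons_self
    have hb' : ¬ b = 1 := by omega
    simp only [List.cons_append, D1, ih hv', if_neg hb']
    rfl

end

lemma app_nil_zero {v : List ℕ} (hv : ∀ a ∈ v, 1 < a) :
    v.count 1 = 0 ∧ B2 1 v = 0 ∧ B3 1 v = 0 ∧ A1 v = 0 ∧ C2 1 v = 0 ∧ C3 1 v = 0 ∧ D1 v = 0 := by
  have h0 := count_app (l := []) hv
  have h1 := B2_app (l := []) hv
  have h2 := B3_app (l := []) hv
  have h3 := A1_app (l := []) hv
  have h4 := C2_app (l := []) hv
  have h5 := C3_app (l := []) hv
  have h6 := D1_app (l := []) hv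
  simp only [List.append_nil, List.count_nil, mul_zero, add_zero] at h0 h1 h2 h3 h4 h5 h6
  refine ⟨h0, h1, h2, h3, h4, ?_, h6⟩
  rw [h5]
  simp [C3, C2]

/-- weighted sum over the gaps -/
def S (f : ℕ → ℕ → ℕ) (gs : List ℕ) : ℕ :=
  ∑ i ∈ Finset.range gs.length, gs.getD i 0 * f i (gs.length - i)

lemma S_nil (f : ℕ → ℕ → ℕ) : S f [] = 0 := by simp [S]

lemma S_cons (f : ℕ → ℕ → ℕ) (g : ℕ) (gs : List ℕ) :
    S f (g :: gs) = g * f 0 (gs.length + 1) + S (fun i j => f (i + 1) j) gs := by
  unfold S
  rw [List.length_cons, Finset.sum_range_succ', add_comm]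
  congr 1
  apply Finset.sum_congr rfl
  intro i hi
  rw [List.getD_cons_succ, Nat.add_sub_add_right]

lemma S_add (f g : ℕ → ℕ → ℕ) (gs : List ℕ) : S f gs + S g gs = S (fun i j => f i j + g i j) gs := by
  unfold S
  rw [← Finset.sum_add_distrib]
  apply Finset.sum_congr rfl
  intro i _
  ring

lemma S_reverse (f : ℕ → ℕ → ℕ) (gs : List ℕ) :
    S f gs.reverse = S (fun i j => f (j - 1) (i + 1)) gs := by
  unfold S
  rw [List.length_reverse, ← Finset.sum_range_reflect]
  apply Finset.sum_congr rfl
  intro i hi
  rw [Finset.mem_range] at hi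
  have h1 : gs.reverse.getD (gs.length - 1 - i) 0 = gs.getD i 0 := by
    rw [List.getD_eq_getElem _ _ (by rw [List.length_reverse]; omega), List.getD_eq_getElem _ _ hi,
      List.getElem_reverse]
    congr 1
    omega
  rw [h1]
  congr 2 <;> omega

section
variable {gs v : List ℕ}

lemma take_mem (hv : ∀ a ∈ v, 1 < a) (g : ℕ) : ∀ a ∈ v.take g, 1 < a :=
  fun a ha => hv a (List.mem_of_mem_take ha)
lemma drop_mem (hv : ∀ a ∈ v, 1 < a) (g : ℕ) : ∀ a ∈ v.drop g, 1 < a :=
  fun a ha => hv a (List.mem_of_mem_drop ha)

end

lemma build_count (gs : List ℕ) : ∀ v : List ℕ, (∀ a ∈ v, 1 < a) → (build gs v).count 1 = gs.length + 1 := by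
  induction gs with
  | nil =>
    intro v hv
    simp [build, (app_nil_zero hv).1]
  | cons g gs ih =>
    intro v hv
    rw [build, List.count_cons_self, count_app (take_mem hv g), ih _ (drop_mem hv g), List.length_cons]

lemma build_C2 (gs : List ℕ) : ∀ v : List ℕ, (∀ a ∈ v, 1 < a) → C2 1 (build gs v) = (gs.length + 1).choose 2 := by
  induction gs with
  | nil =>
    intro v hv
    obtain ⟨h0, h1, h2, h3, h4, h5, h6⟩ := app_nil_zero hv
    simp [build, C2, h0, h4]
  | cons g gs ih =>
    intro v hv
    rw [build, C2, C2_app (take_mem hv g), ih _ (drop_mem hv g), if_pos rfl, count_app (take_mem hv g),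
      build_count _ _ (drop_mem hv g), List.length_cons, Nat.choose_succ_succ' (gs.length + 1) 1, Nat.choose_one_right]
    ring

lemma len_take {g : ℕ} {gs v : List ℕ} (h : (g :: gs).sum ≤ v.length) : (v.take g).length = g := by
  rw [List.length_take]
  rw [List.sum_cons] at h
  omega

lemma len_drop {g : ℕ} {gs v : List ℕ} (h : (g :: gs).sum ≤ v.length) : gs.sum ≤ (v.drop g).length := by
  rw [List.length_drop]
  rw [List.sum_cons] at h
  omega

lemma build_B2 (gs : List ℕ) : ∀ v : List ℕ, (∀ a ∈ v, 1 < a) → gs.sum ≤ v.length →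
    B2 1 (build gs v) = S (fun _ j => j) gs := by
  induction gs with
  | nil =>
    intro v hv _
    obtain ⟨h0, h1, h2, h3, h4, h5, h6⟩ := app_nil_zero hv
    simp [build, B2, h1, S_nil]
  | cons g gs ih =>
    intro v hv hs
    rw [build, B2, B2_app (take_mem hv g), ih _ (drop_mem hv g) (len_drop hs), if_neg (by omega),
      build_count _ _ (drop_mem hv g), len_take hs, S_cons]
    ring

lemma build_B3 (gs : List ℕ) : ∀ v : List ℕ, (∀ a ∈ v, 1 < a) → gs.sum ≤ v.length →
    B3 1 (build gs v) = S (fun i j => (i + 1) * j) gs := by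
  induction gs with
  | nil =>
    intro v hv _
    obtain ⟨h0, h1, h2, h3, h4, h5, h6⟩ := app_nil_zero hv
    simp [build, B3, h1, h2, S_nil]
  | cons g gs ih =>
    intro v hv hs
    rw [build, B3, B3_app (take_mem hv g), ih _ (drop_mem hv g) (len_drop hs), if_pos rfl,
      B2_app (take_mem hv g), build_B2 _ _ (drop_mem hv g) (len_drop hs),
      build_count _ _ (drop_mem hv g), len_take hs, S_cons]
    have : S (fun i j => (i + 1) * j) gs + S (fun _ j => j) gs = S (fun i j => (i + 1 + 1) * j) gs := by
      rw [S_add]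
      congr 1
      funext i j
      ring
    rw [← this]
    ring

lemma build_A1 (gs : List ℕ) : ∀ v : List ℕ, (∀ a ∈ v, 1 < a) → gs.sum ≤ v.length →
    A1 (build gs v) = S (fun i j => (i + 1).choose 2 * j) gs := by
  induction gs with
  | nil =>
    intro v hv _
    obtain ⟨h0, h1, h2, h3, h4, h5, h6⟩ := app_nil_zero hv
    simp [build, A1, h2, h3, S_nil]
  | cons g gs ih =>
    intro v hv hs
    rw [build, A1, A1_app (take_mem hv g), ih _ (drop_mem hv g) (len_drop hs), if_pos rfl,
      B3_app (take_mem hv g), build_B3 _ _ (drop_mem hv g) (len_drop hs), S_cons, S_add]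
    have : (fun i j : ℕ => (i + 1).choose 2 * j + (i + 1) * j) = fun i j => (i + 1 + 1).choose 2 * j := by
      funext i j
      rw [Nat.choose_succ_succ' (i + 1) 1, Nat.choose_one_right]
      ring
    rw [this]
    simp

lemma build_C3 (gs : List ℕ) : ∀ v : List ℕ, (∀ a ∈ v, 1 < a) → gs.sum ≤ v.length →
    C3 1 (build gs v) = S (fun _ j => j.choose 2) gs := by
  induction gs with
  | nil =>
    intro v hv _
    obtain ⟨h0, h1, h2, h3, h4, h5, h6⟩ := app_nil_zero hv
    simp [build, C3, h5, S_nil]
  | cons g gs ih =>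
    intro v hv hs
    rw [build, C3, C3_app (take_mem hv g), ih _ (drop_mem hv g) (len_drop hs), if_neg (by omega),
      build_C2 _ _ (drop_mem hv g), len_take hs, S_cons]
    ring

lemma build_D1 (gs : List ℕ) : ∀ v : List ℕ, (∀ a ∈ v, 1 < a) → gs.sum ≤ v.length →
    D1 (build gs v) = S (fun i j => (i + 1) * j.choose 2) gs := by
  induction gs with
  | nil =>
    intro v hv _
    obtain ⟨h0, h1, h2, h3, h4, h5, h6⟩ := app_nil_zero hv
    simp [build, D1, h5, h6, S_nil]
  | cons g gs ih =>
    intro v hv hs
    rw [build, D1, D1_app (take_mem hv g), ih _ (drop_mem hv g) (len_drop hs), if_pos rfl,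
      C3_app (take_mem hv g), build_C3 _ _ (drop_mem hv g) (len_drop hs),
      build_C2 _ _ (drop_mem hv g), len_take hs, S_cons]
    have : S (fun i j => (i + 1) * j.choose 2) gs + S (fun _ j => j.choose 2) gs
        = S (fun i j => (i + 1 + 1) * j.choose 2) gs := by
      rw [S_add]
      congr 1
      funext i j
      ring
    rw [← this]
    ring

lemma S_A_reverse (gs : List ℕ) :
    S (fun i j => (i + 1).choose 2 * j) gs.reverse = S (fun i j => (i + 1) * j.choose 2) gs := by
  rw [S_reverse]
  unfold S
  apply Finset.sum_congr rfl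
  intro i hi
  rw [Finset.mem_range] at hi
  have : gs.length - i - 1 + 1 = gs.length - i := by omega
  simp only [this]
  ring

lemma build_ge (gs : List ℕ) : ∀ v : List ℕ, (∀ a ∈ v, 1 < a) → ∀ a ∈ build gs v, 1 ≤ a := by
  induction gs with
  | nil =>
    intro v hv a ha
    rw [build] at ha
    rcases List.mem_cons.1 ha with h | h
    · omega
    · exact (hv a h).le
  | cons g gs ih =>
    intro v hv a ha
    rw [build] at ha
    rcases List.mem_cons.1 ha with h | h
    · omega
    · rcases List.mem_append.1 h with h | h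
      · exact (take_mem hv g a h).le
      · exact ih _ (drop_mem hv g) a h

lemma rem_self {v : List ℕ} (hv : ∀ a ∈ v, 1 < a) : rem v = v := by
  unfold rem
  rw [List.filter_eq_self]
  intro a ha
  have := hv a ha
  simp
  omega

lemma rem_build (gs : List ℕ) : ∀ v : List ℕ, (∀ a ∈ v, 1 < a) → rem (build gs v) = v := by
  induction gs with
  | nil =>
    intro v hv
    have h1 : rem (1 :: v) = rem v := by simp [rem]
    rw [build, h1, rem_self hv]
  | cons g gs ih =>
    intro v hv
    have h1 : rem (1 :: (v.take g ++ build gs (v.drop g))) = rem (v.take g) ++ rem (build gs (v.drop g)) := by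
      simp [rem, List.filter_append]
    rw [build, h1, ih _ (drop_mem hv g), rem_self (take_mem hv g), List.take_append_drop]

lemma build_length (gs : List ℕ) : ∀ v : List ℕ, (build gs v).length = v.length + gs.length + 1 := by
  induction gs with
  | nil => intro v; simp [build]
  | cons g gs ih =>
    intro v
    rw [build, List.length_cons, List.length_append, ih, List.length_cons, List.length_drop, List.length_take]
    omega

lemma map_succ_gt {u : List ℕ} (hu : ∀ a ∈ u, 1 ≤ a) : ∀ a ∈ u.map Nat.succ, 1 < a := by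
  intro a ha
  obtain ⟨b, hb, rfl⟩ := List.mem_map.1 ha
  have := hu b hb
  show 1 < b + 1
  omega

theorem A_build (gs u : List ℕ) (hu : ∀ a ∈ u, 1 ≤ a) (hs : gs.sum ≤ u.length) :
    A (build gs (u.map Nat.succ)) = A u + S (fun i j => (i + 1).choose 2 * j) gs := by
  have hv := map_succ_gt hu
  rw [A_eq _ (build_ge gs _ hv), rem_build gs _ hv, A_map, build_A1 gs _ hv (by rwa [List.length_map])]

theorem D_build (gs u : List ℕ) (hu : ∀ a ∈ u, 1 ≤ a) (hs : gs.sum ≤ u.length) :
    D (build gs (u.map Nat.succ)) = D u + S (fun i j => (i + 1) * j.choose 2) gs := by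
  have hv := map_succ_gt hu
  rw [D_eq _ (build_ge gs _ hv), rem_build gs _ hv, D_map, build_D1 gs _ hv (by rwa [List.length_map])]

/-! ### RGFs -/

lemma RgfFrom_ge : ∀ (l : List ℕ) (m : ℕ), RgfFrom m l → ∀ a ∈ l, 1 ≤ a := by
  intro l
  induction l with
  | nil => intro m _ a ha; simp at ha
  | cons b l ih =>
    intro m h a ha
    rcases List.mem_cons.1 ha with h' | h'
    · rw [h']; exact h.1
    · exact ih _ h.2.2 a h'

lemma RgfFrom_rem : ∀ (l : List ℕ) (m : ℕ), (∀ a ∈ l, 1 ≤ a) →
    (RgfFrom (m + 1) l ↔ RgfFrom m ((rem l).map Nat.pred)) := by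
  intro l
  induction l with
  | nil => intro m _; simp [RgfFrom, rem]
  | cons b l ih =>
    intro m hl
    have hb := hl b List.mem_cons_self
    have hl' : ∀ a ∈ l, 1 ≤ a := fun a ha => hl a (List.mem_cons_of_mem _ ha)
    by_cases h1 : b = 1
    · subst h1
      have h1 : rem (1 :: l) = rem l := by simp [rem]
      rw [h1, RgfFrom, ← ih m hl']
      have : max (m + 1) 1 = m + 1 := by omega
      rw [this]
      constructor
      · exact fun h => h.2.2
      · exact fun h => ⟨le_refl _, by omega, h⟩
    · obtain ⟨c, rfl⟩ : ∃ c, b = c + 1 := ⟨b - 1, by omega⟩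
      have h2 : rem ((c + 1) :: l) = (c + 1) :: rem l := by
        have : c ≠ 0 := by omega
        simp [rem, this]
      rw [h2, List.map_cons, RgfFrom, RgfFrom]
      have : max (m + 1) (c + 1) = max m c + 1 := by omega
      rw [this, ih _ hl']
      simp only [Nat.pred_succ]
      constructor
      · rintro ⟨_, h3, h4⟩
        exact ⟨by omega, by omega, h4⟩
      · rintro ⟨_, h3, h4⟩
        exact ⟨by omega, by omega, h4⟩

lemma build_head (gs v : List ℕ) : ∃ l, build gs v = 1 :: l := by
  cases gs with
  | nil => exact ⟨_, rfl⟩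
  | cons g gs => exact ⟨_, rfl⟩

lemma map_pred_succ (u : List ℕ) : (u.map Nat.succ).map Nat.pred = u := by
  rw [List.map_map]
  conv_rhs => rw [← List.map_id u]
  apply List.map_congr_left
  intro a _
  simp

theorem Rgf_build (gs u : List ℕ) (hu : ∀ a ∈ u, 1 ≤ a) :
    RgfFrom 0 (build gs (u.map Nat.succ)) ↔ RgfFrom 0 u := by
  have hv := map_succ_gt hu
  obtain ⟨l, hl⟩ := build_head gs (u.map Nat.succ)
  have h1 := rem_build gs _ hv
  have h2 := build_ge gs _ hv
  rw [hl] at h1 h2 ⊢
  have h3 : rem (1 :: l) = rem l := by simp [rem]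
  rw [h3] at h1
  have h4 : RgfFrom 0 (1 :: l) ↔ RgfFrom 1 l := by
    rw [RgfFrom]
    have : max 0 1 = 1 := by omega
    rw [this]
    constructor
    · exact fun h => h.2.2
    · exact fun h => ⟨le_refl _, le_refl _, h⟩
  rw [h4, RgfFrom_rem l 0 (fun a ha => h2 a (List.mem_cons_of_mem _ ha)), h1, map_pred_succ]

theorem exists_build (l : List ℕ) : ∃ gs, gs.sum ≤ (rem l).length ∧ (1 :: l) = build gs (rem l) := by
  induction l with
  | nil => exact ⟨[], by simp, rfl⟩
  | cons b l ih =>
    obtain ⟨gs, hs, h⟩ := ih
    by_cases hb : b = 1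
    · subst hb
      have h1 : rem (1 :: l) = rem l := by simp [rem]
      rw [h1]
      refine ⟨0 :: gs, by simpa using hs, ?_⟩
      rw [build, List.take_zero, List.drop_zero, List.nil_append, ← h]
    · have h1 : rem (b :: l) = b :: rem l := by simp [rem, hb]
      rw [h1]
      cases gs with
      | nil =>
        refine ⟨[], by simp, ?_⟩
        rw [build] at h ⊢
        simp only [List.cons.injEq, true_and] at h
        rw [← h]
      | cons g gs =>
        refine ⟨(g + 1) :: gs, ?_, ?_⟩
        · rw [List.sum_cons] at hs ⊢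
          rw [List.length_cons]
          omega
        · rw [build] at h ⊢
          simp only [List.cons.injEq, true_and] at h
          rw [List.take_succ_cons, List.drop_succ_cons, List.cons_append, ← h]

theorem build_inj (gs : List ℕ) : ∀ (gs' v v' : List ℕ), (∀ a ∈ v, 1 < a) → (∀ a ∈ v', 1 < a) →
    gs.sum ≤ v.length → gs'.sum ≤ v'.length → build gs v = build gs' v' → gs = gs' ∧ v = v' := by
  have key : ∀ (p q r s : List ℕ), (∀ a ∈ p, 1 < a) → (∀ a ∈ q, 1 < a) → p ++ 1 :: r = q ++ 1 :: s →
      p = q ∧ r = s := by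
    intro p
    induction p with
    | nil =>
      intro q r s _ hq h
      cases q with
      | nil => simp at h; exact ⟨rfl, h⟩
      | cons b q =>
        simp only [List.nil_append, List.cons_append, List.cons.injEq] at h
        have := hq b List.mem_cons_self
        omega
    | cons a p ih =>
      intro q r s hp hq h
      cases q with
      | nil =>
        simp only [List.nil_append, List.cons_append, List.cons.injEq] at h
        have := hp a List.mem_cons_self
        omega
      | cons b q =>
        simp only [List.cons_append, List.cons.injEq] at h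
        obtain ⟨h1, h2⟩ := ih q r s (fun a ha => hp a (List.mem_cons_of_mem _ ha))
          (fun a ha => hq a (List.mem_cons_of_mem _ ha)) h.2
        exact ⟨by rw [h.1, h1], h2⟩
  induction gs with
  | nil =>
    intro gs' v v' hv hv' hs hs' h
    cases gs' with
    | nil =>
      simp only [build, List.cons.injEq, true_and] at h
      exact ⟨rfl, h⟩
    | cons g' gs' =>
      exfalso
      simp only [build, List.cons.injEq, true_and] at h
      obtain ⟨l, hl⟩ := build_head gs' (v'.drop g')
      have : 1 ∈ v := by
        rw [h, hl]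
        simp
      have := hv 1 this
      omega
  | cons g gs ih =>
    intro gs' v v' hv hv' hs hs' h
    cases gs' with
    | nil =>
      exfalso
      simp only [build, List.cons.injEq, true_and] at h
      obtain ⟨l, hl⟩ := build_head gs (v.drop g)
      have : 1 ∈ v' := by
        rw [← h, hl]
        simp
      have := hv' 1 this
      omega
    | cons g' gs' =>
      simp only [build, List.cons.injEq, true_and] at h
      obtain ⟨l, hl⟩ := build_head gs (v.drop g)
      obtain ⟨l', hl'⟩ := build_head gs' (v'.drop g')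
      have h' := h
      rw [hl, hl'] at h'
      obtain ⟨h1, h2⟩ := key _ _ _ _ (take_mem hv g) (take_mem hv' g') h'
      have h3 : build gs (v.drop g) = build gs' (v'.drop g') := by rw [hl, hl', h2]
      obtain ⟨h4, h5⟩ := ih gs' _ _ (drop_mem hv g) (drop_mem hv' g') (len_drop hs) (len_drop hs') h3
      have h6 : g = g' := by
        rw [← len_take hs, ← len_take hs', h1]
      refine ⟨by rw [h6, h4], ?_⟩
      rw [← List.take_append_drop g v, ← List.take_append_drop g' v', h1, h5]

/-- the matching between words -/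
inductive Rel : List ℕ → List ℕ → Prop
  | nil : Rel [] []
  | step (gs u u' : List ℕ) (hr : Rel u u') (hs : gs.sum ≤ u.length) :
      Rel (build gs (u.map Nat.succ)) (build gs.reverse (u'.map Nat.succ))

theorem Rel_props {w w' : List ℕ} (h : Rel w w') :
    w.length = w'.length ∧ RgfFrom 0 w ∧ RgfFrom 0 w' ∧ A w = D w' ∧ D w = A w' := by
  induction h with
  | nil => simp [RgfFrom, A, D]
  | step gs u u' hr hs ih =>
    obtain ⟨h1, h2, h3, h4, h5⟩ := ih
    have hu := RgfFrom_ge _ _ h2
    have hu' := RgfFrom_ge _ _ h3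
    have hs' : gs.reverse.sum ≤ u'.length := by rw [List.sum_reverse, ← h1]; exact hs
    refine ⟨?_, (Rgf_build _ _ hu).2 h2, (Rgf_build _ _ hu').2 h3, ?_, ?_⟩
    · rw [build_length, build_length, List.length_map, List.length_map, List.length_reverse, h1]
    · rw [A_build _ _ hu hs, D_build _ _ hu' hs', h4, ← S_A_reverse, List.reverse_reverse]
    · rw [D_build _ _ hu hs, A_build _ _ hu' hs', h5, S_A_reverse]

theorem Rel_symm {w w' : List ℕ} (h : Rel w w') : Rel w' w := by
  induction h with
  | nil => exact Rel.nil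
  | step gs u u' hr hs ih =>
    have h1 := (Rel_props hr).1
    have := Rel.step gs.reverse u' u ih (by rw [List.sum_reverse, ← h1]; exact hs)
    rwa [List.reverse_reverse] at this

theorem Rel_total : ∀ (n : ℕ) (w : List ℕ), w.length = n → RgfFrom 0 w → ∃ w', Rel w w' := by
  intro n
  induction n using Nat.strong_induction_on with
  | _ n ih =>
    intro w hn hw
    cases w with
    | nil => exact ⟨[], Rel.nil⟩
    | cons a l =>
      have ha : a = 1 := by
        have h1 := hw.1
        have h2 := hw.2.1
        omega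
      subst ha
      have hl1 : RgfFrom 1 l := by
        have := hw.2.2
        have h0 : max 0 1 = 1 := by omega
        rwa [h0] at this
      have hlge := RgfFrom_ge _ _ hl1
      obtain ⟨gs, hs, h⟩ := exists_build l
      have hmap : ((rem l).map Nat.pred).map Nat.succ = rem l := by
        rw [List.map_map]
        conv_rhs => rw [← List.map_id (rem l)]
        apply List.map_congr_left
        intro a ha
        have : a ∈ l := List.mem_of_mem_filter ha
        have := hlge a this
        show Nat.succ (Nat.pred a) = a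
        exact Nat.succ_pred_eq_of_pos this
      have hR := (RgfFrom_rem l 0 hlge).1 hl1
      have hlen : ((rem l).map Nat.pred).length < n := by
        rw [List.length_map]
        have : (rem l).length ≤ l.length := List.length_filter_le _ _
        rw [List.length_cons] at hn
        omega
      obtain ⟨u', hu'⟩ := ih _ hlen _ rfl hR
      refine ⟨build gs.reverse (u'.map Nat.succ), ?_⟩
      have := Rel.step gs _ _ hu' (by rwa [List.length_map])
      rw [hmap, ← h] at this
      exact this

theorem Rel_unique {w w' : List ℕ} (h : Rel w w') : ∀ w'', Rel w w'' → w' = w'' := by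
  induction h with
  | nil =>
    intro w'' h2
    generalize hw : ([] : List ℕ) = z at h2
    cases h2 with
    | nil => rfl
    | step gs u u' hr hs =>
      obtain ⟨l, hl⟩ := build_head gs (u.map Nat.succ)
      rw [hl] at hw
      simp at hw
  | step gs u u' hr hs ih =>
    intro w'' h2
    generalize hw : build gs (u.map Nat.succ) = z at h2
    cases h2 with
    | nil =>
      obtain ⟨l, hl⟩ := build_head gs (u.map Nat.succ)
      rw [hl] at hw
      simp at hw
    | step gs2 u2 u2' hr2 hs2 =>
      have hu := RgfFrom_ge _ _ (Rel_props hr).2.1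
      have hu2 := RgfFrom_ge _ _ (Rel_props hr2).2.1
      obtain ⟨h1, h3⟩ := build_inj gs gs2 _ _ (map_succ_gt hu) (map_succ_gt hu2)
        (by rwa [List.length_map]) (by rwa [List.length_map]) hw
      have h4 : u = u2 := by
        have := congrArg (List.map Nat.pred) h3
        rwa [map_pred_succ, map_pred_succ] at this
      subst h4
      subst h1
      rw [ih _ hr2]

/-- the two pattern statistics are equidistributed over lists. -/
theorem lists_equiv (n k : ℕ) :
    ∃ f : List ℕ → List ℕ, Set.BijOn f {w | w.length = n ∧ RgfFrom 0 w ∧ A w = k}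
      {w | w.length = n ∧ RgfFrom 0 w ∧ D w = k} := by
  classical
  have hex : ∀ w : List ℕ, ∃ w', RgfFrom 0 w → Rel w w' := by
    intro w
    by_cases hw : RgfFrom 0 w
    · obtain ⟨w', h⟩ := Rel_total _ w rfl hw
      exact ⟨w', fun _ => h⟩
    · exact ⟨[], fun h => absurd h hw⟩
  choose f hf using hex
  refine ⟨f, ?_, ?_, ?_⟩
  · rintro w ⟨h1, h2, h3⟩
    have := Rel_props (hf w h2)
    exact ⟨by rw [← this.1, h1], this.2.2.1, by rw [← this.2.2.2.1, h3]⟩
  · rintro w ⟨h1, h2, h3⟩ w' ⟨h1', h2', h3'⟩ he
    have e1 := Rel_symm (hf w h2)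
    have e2 := Rel_symm (hf w' h2')
    rw [← he] at e2
    exact Rel_unique e1 _ e2
  · rintro w ⟨h1, h2, h3⟩
    have hr := Rel_symm (hf w h2)
    have := Rel_props (hf w h2)
    refine ⟨f w, ⟨by rw [← this.1, h1], this.2.2.1, by rw [← this.2.2.2.2, h3]⟩, ?_⟩
    exact Rel_unique (hf (f w) this.2.2.1) _ hr

end Pool.Agent.X72.RGFW
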