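import Mathlib

/-! The BKR product of subsets of `S^d` and bracketings. -/

namespace Pool.Agent.X72.BKR

variable {ι κ S : Type*} {α β : Type*}

/-- The cylinder `[x]_K`: the points that agree with `x` on `K`. -/
def cyl (x : ι → S) (K : Set ι) : Set (ι → S) := {y | ∀ i ∈ K, y i = x i}

/-- The binary BKR product `A □ B`. -/
def bkr (A B : Set (ι → S)) : Set (ι → S) :=
  {x | ∃ K L : Set ι, Disjoint K L ∧ cyl x K ⊆ A ∧ cyl x L ⊆ B}

/-- The simultaneous product `□ A_i`. -/
def simul (A : α → Set (ι → S)) : Set (ι → S) :=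
  {x | ∃ K : α → Set ι, (∀ i j, i ≠ j → Disjoint (K i) (K j)) ∧ ∀ i, cyl x (K i) ⊆ A i}

/-- Full binary trees with labelled leaves (bracketings of the word of labels). -/
inductive BTree (α : Type*) where
  | leaf : α → BTree α
  | node : BTree α → BTree α → BTree α

/-- The labels of the leaves from left to right. -/
def BTree.word : BTree α → List α
  | .leaf a => [a]
  | .node l r => l.word ++ r.word

/-- The value of a bracketing in which the leaf `a` stands for the set `f a`. -/
def BTree.value (f : α → Set (ι → S)) : BTree α → Set (ι → S)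
  | .leaf a => f a
  | .node l r => bkr (l.value f) (r.value f)

/-! ### Basic facts -/

theorem self_mem_cyl (x : ι → S) (K : Set ι) : x ∈ cyl x K := fun _ _ => rfl

theorem cyl_anti (x : ι → S) {K L : Set ι} (h : K ⊆ L) : cyl x L ⊆ cyl x K :=
  fun _ hy i hi => hy i (h hi)

theorem cyl_trans {x y z : ι → S} {K : Set ι} (h : y ∈ cyl x K) (h2 : z ∈ cyl y K) : z ∈ cyl x K :=
  fun i hi => (h2 i hi).trans (h i hi)

theorem bkr_comm (A B : Set (ι → S)) : bkr A B = bkr B A := by
  ext x
  constructor <;> rintro ⟨K, L, h, h1, h2⟩ <;> exact ⟨L, K, h.symm, h2, h1⟩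

theorem bkr_mono {A A' B B' : Set (ι → S)} (h : A ⊆ A') (h' : B ⊆ B') : bkr A B ⊆ bkr A' B' := by
  rintro x ⟨K, L, hd, h1, h2⟩
  exact ⟨K, L, hd, h1.trans h, h2.trans h'⟩

theorem bkr_univ (A : Set (ι → S)) : bkr A Set.univ = A := by
  ext x
  constructor
  · rintro ⟨K, L, hd, h1, -⟩
    exact h1 (self_mem_cyl x K)
  · intro hx
    refine ⟨Set.univ, ∅, Set.disjoint_empty _, ?_, Set.subset_univ _⟩
    intro y hy
    have : y = x := funext fun i => hy i (Set.mem_univ i)
    rwa [this]

theorem univ_bkr (A : Set (ι → S)) : bkr Set.univ A = A := by rw [bkr_comm, bkr_univ]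

/-- if `[x]_K ⊆ A` and `[x]_L ⊆ B` with disjoint `K, L`, then `[x]_(K ∪ L) ⊆ A □ B` -/
theorem cyl_union_sub {x : ι → S} {K L : Set ι} {A B : Set (ι → S)} (h : Disjoint K L)
    (h1 : cyl x K ⊆ A) (h2 : cyl x L ⊆ B) : cyl x (K ∪ L) ⊆ bkr A B := by
  intro y hy
  refine ⟨K, L, h, fun z hz => h1 ?_, fun z hz => h2 ?_⟩
  · exact cyl_trans (cyl_anti x Set.subset_union_left hy) hz
  · exact cyl_trans (cyl_anti x Set.subset_union_right hy) hz

theorem value_mono {f g : α → Set (ι → S)} (h : ∀ a, f a ⊆ g a) (t : BTree α) :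
    t.value f ⊆ t.value g := by
  induction t with
  | leaf a => exact h a
  | node l r hl hr => exact bkr_mono hl hr

/-- simultaneous certificates give membership in every bracketing -/
theorem cyl_sub_value {f : α → Set (ι → S)} {x : ι → S} (K : α → Set ι)
    (hd : ∀ a b, a ≠ b → Disjoint (K a) (K b)) (hK : ∀ a, cyl x (K a) ⊆ f a) (t : BTree α)
    (ht : t.word.Nodup) : cyl x (⋃ a ∈ t.word, K a) ⊆ t.value f := by
  induction t with
  | leaf a =>
    have : (⋃ b ∈ (BTree.leaf a).word, K b) = K a := by simp [BTree.word]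
    rw [this]
    exact hK a
  | node l r hl hr =>
    have hw : (BTree.node l r).word = l.word ++ r.word := rfl
    rw [hw, List.nodup_append] at ht
    have : (⋃ b ∈ (BTree.node l r).word, K b) = (⋃ b ∈ l.word, K b) ∪ (⋃ b ∈ r.word, K b) := by
      rw [hw]
      ext i
      simp only [List.mem_append, Set.mem_iUnion, Set.mem_union, exists_prop]
      constructor
      · rintro ⟨b, hb | hb, hi⟩
        · exact Or.inl ⟨b, hb, hi⟩
        · exact Or.inr ⟨b, hb, hi⟩
      · rintro (⟨b, hb, hi⟩ | ⟨b, hb, hi⟩)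
        · exact ⟨b, Or.inl hb, hi⟩
        · exact ⟨b, Or.inr hb, hi⟩
    rw [this]
    refine cyl_union_sub ?_ (hl ht.1) (hr ht.2.1)
    rw [Set.disjoint_left]
    intro i hi hi'
    simp only [Set.mem_iUnion, exists_prop] at hi hi'
    obtain ⟨a, ha, hia⟩ := hi
    obtain ⟨b, hb, hib⟩ := hi'
    exact (Set.disjoint_left.mp (hd a b (ht.2.2 a ha b hb))) hia hib

/-! ### Products over blocks -/

/-- the points all of whose blocks lie in the given sets -/
def prodSet {κ : β → Type*} (F : ∀ b, Set (κ b → S)) : Set ((Σ b, κ b) → S) :=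
  {x | ∀ b, (fun i => x ⟨b, i⟩) ∈ F b}

theorem cyl_sub_prodSet {κ : β → Type*} (F : ∀ b, Set (κ b → S)) (x : (Σ b, κ b) → S)
    (K : Set (Σ b, κ b)) :
    cyl x K ⊆ prodSet F ↔ ∀ b, cyl (fun i => x ⟨b, i⟩) {i | (⟨b, i⟩ : Σ b, κ b) ∈ K} ⊆ F b := by
  classical
  constructor
  · intro h b y hy
    let Y : (Σ b, κ b) → S := fun p => Function.update (fun b i => x ⟨b, i⟩) b y p.1 p.2
    have hY : Y ∈ cyl x K := by
      rintro ⟨b', i⟩ hi
      by_cases hb : b' = b
      · subst hb
        simp only [Y, Function.update_self]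
        exact hy i hi
      · simp only [Y, Function.update_of_ne hb]
    have := h hY b
    simpa only [Y, Function.update_self] using this
  · intro h y hy b
    apply h b
    intro i hi
    exact hy ⟨b, i⟩ hi

theorem bkr_prodSet {κ : β → Type*} (F G : ∀ b, Set (κ b → S)) :
    bkr (prodSet F) (prodSet G) = prodSet fun b => bkr (F b) (G b) := by
  ext x
  constructor
  · rintro ⟨K, L, hd, h1, h2⟩ b
    rw [cyl_sub_prodSet] at h1 h2
    refine ⟨_, _, ?_, h1 b, h2 b⟩
    rw [Set.disjoint_left]
    intro i hi hi'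
    exact Set.disjoint_left.mp hd hi hi'
  · intro h
    choose K L hd h1 h2 using h
    refine ⟨{p | p.2 ∈ K p.1}, {p | p.2 ∈ L p.1}, ?_, ?_, ?_⟩
    · rw [Set.disjoint_left]
      intro p hp hp'
      exact Set.disjoint_left.mp (hd p.1) hp hp'
    · rw [cyl_sub_prodSet]
      exact fun b => h1 b
    · rw [cyl_sub_prodSet]
      exact fun b => h2 b

theorem value_prodSet {κ : β → Type*} (F : α → ∀ b, Set (κ b → S)) (t : BTree α) :
    t.value (fun a => prodSet (F a)) = prodSet fun b => t.value (fun a => F a b) := by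
  induction t with
  | leaf a => rfl
  | node l r hl hr =>
    show bkr (l.value _) (r.value _) = _
    rw [hl, hr, bkr_prodSet]
    rfl

/-- a product of nonempty sets determines its factors -/
theorem prodSet_inj {κ : β → Type*} {F G : ∀ b, Set (κ b → S)} (hF : ∀ b, (F b).Nonempty)
    (h : prodSet F = prodSet G) (b : β) : F b ⊆ G b := by
  classical
  choose z hz using hF
  intro y hy
  let Y : (Σ b, κ b) → S := fun p => Function.update z b y p.1 p.2
  have hY : Y ∈ prodSet F := by
    intro b'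
    by_cases hb : b' = b
    · subst hb
      simpa only [Y, Function.update_self] using hy
    · simpa only [Y, Function.update_of_ne hb] using hz b'
  rw [h] at hY
  have := hY b
  simpa only [Y, Function.update_self] using this

/-! ### Reindexing -/

/-- reindexing of coordinates -/
def reidx (e : κ ≃ ι) (A : Set (κ → S)) : Set (ι → S) := {x | (fun i => x (e i)) ∈ A}

theorem bkr_reidx (e : κ ≃ ι) (A B : Set (κ → S)) :
    bkr (reidx e A) (reidx e B) = reidx e (bkr A B) := by
  have key : ∀ (x : ι → S) (K : Set ι) (A : Set (κ → S)), cyl x K ⊆ reidx e A ↔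
      cyl (fun i => x (e i)) (e ⁻¹' K) ⊆ A := by
    intro x K A
    constructor
    · intro h y hy
      have hY : (fun i => y (e.symm i)) ∈ cyl x K := by
        intro i hi
        have := hy (e.symm i) (by simpa using hi)
        simpa using this
      have := h hY
      simpa [reidx] using this
    · intro h y hy
      apply h
      intro i hi
      exact hy (e i) hi
  ext x
  constructor
  · rintro ⟨K, L, hd, h1, h2⟩
    exact ⟨e ⁻¹' K, e ⁻¹' L, hd.preimage e, (key _ _ _).mp h1, (key _ _ _).mp h2⟩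
  · rintro ⟨K, L, hd, h1, h2⟩
    refine ⟨e.symm ⁻¹' K, e.symm ⁻¹' L, hd.preimage _, ?_, ?_⟩
    · rw [key, ← Set.preimage_comp]
      simpa using h1
    · rw [key, ← Set.preimage_comp]
      simpa using h2

theorem value_reidx (e : κ ≃ ι) (f : α → Set (κ → S)) (t : BTree α) :
    t.value (fun a => reidx e (f a)) = reidx e (t.value f) := by
  induction t with
  | leaf a => rfl
  | node l r hl hr =>
    show bkr (l.value _) (r.value _) = _
    rw [hl, hr, bkr_reidx]
    rfl

theorem reidx_inj (e : κ ≃ ι) {A B : Set (κ → S)} (h : reidx e A = reidx e B) : A = B := by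
  ext x
  have h1 : (fun i => x (e.symm i)) ∈ reidx e A ↔ (fun i => x (e.symm i)) ∈ reidx e B := by rw [h]
  simpa [reidx] using h1

/-! ### The base example -/

/-- a decidable version of the product on `{0,1}^3` -/
def bkrB (p q : (Fin 3 → Bool) → Bool) (x : Fin 3 → Bool) : Bool :=
  decide (∃ K : Finset (Fin 3), (∀ y : Fin 3 → Bool, (∀ i ∈ K, y i = x i) → p y = true) ∧
    (∀ y : Fin 3 → Bool, (∀ i, i ∉ K → y i = x i) → q y = true))

theorem mem_bkrB (p q : (Fin 3 → Bool) → Bool) :
    bkr {x | p x = true} {x | q x = true} = {x | bkrB p q x = true} := by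
  classical
  ext x
  simp only [bkrB, Set.mem_ofPred_eq, decide_eq_true_eq]
  constructor
  · rintro ⟨K, L, hd, h1, h2⟩
    refine ⟨K.toFinset, fun y hy => h1 fun i hi => hy i (by simpa using hi), fun y hy => h2 ?_⟩
    intro i hi
    apply hy
    simp only [Set.mem_toFinset]
    exact fun h => Set.disjoint_left.mp hd h hi
  · rintro ⟨K, h1, h2⟩
    refine ⟨(K : Set (Fin 3)), (K : Set (Fin 3))ᶜ, disjoint_compl_right, fun y hy => h1 y ?_,
      fun y hy => h2 y ?_⟩
    · intro i hi; exact hy i (by simpa using hi)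
    · intro i hi; exact hy i (by simpa using hi)

/-- first set -/
def b1 (x : Fin 3 → Bool) : Bool := !x 2 || (!x 0 && !x 1)
/-- second set -/
def b2 (x : Fin 3 → Bool) : Bool := x 0 || !x 2
/-- third set -/
def b3 (x : Fin 3 → Bool) : Bool := !x 0 || !x 1

/-- first set -/
def B1 : Set (Fin 3 → Bool) := {x | b1 x = true}
/-- second set -/
def B2 : Set (Fin 3 → Bool) := {x | b2 x = true}
/-- third set -/
def B3 : Set (Fin 3 → Bool) := {x | b3 x = true}

/-- the point `000` -/
def x0 : Fin 3 → Bool := fun _ => false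
/-- the point `100` -/
def x1 : Fin 3 → Bool := ![true, false, false]

theorem x0_mem : x0 ∈ bkr (bkr B1 B2) B3 := by
  unfold B1 B2 B3
  rw [mem_bkrB, mem_bkrB, Set.mem_ofPred_eq]
  decide +kernel

theorem x0_not_mem : x0 ∉ bkr (bkr B1 B3) B2 := by
  unfold B1 B2 B3
  rw [mem_bkrB, mem_bkrB, Set.mem_ofPred_eq]
  decide +kernel

theorem x0_not_mem' : x0 ∉ bkr (bkr B2 B3) B1 := by
  unfold B1 B2 B3
  rw [mem_bkrB, mem_bkrB, Set.mem_ofPred_eq]
  decide +kernel

theorem cert1 : cyl x1 {2} ⊆ B1 := by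
  intro y hy
  have h : y 2 = false := hy 2 rfl
  simp [B1, b1, h]

theorem cert2 : cyl x1 {0} ⊆ B2 := by
  intro y hy
  have h : y 0 = true := hy 0 rfl
  simp [B2, b2, h]

theorem cert3 : cyl x1 {1} ⊆ B3 := by
  intro y hy
  have h : y 1 = false := hy 1 rfl
  simp [B3, b3, h]

end Pool.Agent.X72.BKR
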