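import Mathlib
import Pool.Agent.X72.BKR

/-! Values of trees on the blocks of the base example. -/

namespace Pool.Agent.X72.BKR

variable {α : Type*} [DecidableEq α]

/-- the sets in the block of the triple `b = (i, j, k)` -/
def blk (b : α × α × α) (a : α) : Set (Fin 3 → Bool) :=
  if a = b.1 then B1 else if a = b.2.1 then B2 else if a = b.2.2 then B3 else Set.univ

/-- the value of a tree on the block, as a function of which of the three labels occur -/
def cls : Bool → Bool → Bool → Set (Fin 3 → Bool)
  | false, false, false => Set.univ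
  | true, false, false => B1
  | false, true, false => B2
  | false, false, true => B3
  | true, true, false => bkr B1 B2
  | true, false, true => bkr B1 B3
  | false, true, true => bkr B2 B3
  | true, true, true => Set.univ

theorem cls_eq (p1 p2 p3 q1 q2 q3 : Bool) (h1 : (p1 && q1) = false) (h2 : (p2 && q2) = false)
    (h3 : (p3 && q3) = false) (h : ((p1 || q1) && (p2 || q2) && (p3 || q3)) = false) :
    bkr (cls p1 p2 p3) (cls q1 q2 q3) = cls (p1 || q1) (p2 || q2) (p3 || q3) := by
  cases p1 <;> cases p2 <;> cases p3 <;> cases q1 <;> cases q2 <;> cases q3 <;>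
    simp at h1 h2 h3 h <;> simp only [cls, Bool.or_false, Bool.or_true,
      bkr_univ, univ_bkr] <;> rw [bkr_comm]

theorem cls_sub (p1 p2 p3 q1 q2 q3 : Bool) (h1 : (p1 && q1) = false) (h2 : (p2 && q2) = false)
    (h3 : (p3 && q3) = false) :
    bkr (cls p1 p2 p3) (cls q1 q2 q3) ⊆ cls (p1 || q1) (p2 || q2) (p3 || q3) := by
  by_cases h : ((p1 || q1) && (p2 || q2) && (p3 || q3)) = false
  · exact (cls_eq p1 p2 p3 q1 q2 q3 h1 h2 h3 h).subset
  · rw [Bool.not_eq_false, Bool.and_eq_true, Bool.and_eq_true] at h
    rw [h.1.1, h.1.2, h.2]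
    exact Set.subset_univ _

theorem blk_eq (b : α × α × α) (h12 : b.1 ≠ b.2.1) (h13 : b.1 ≠ b.2.2) (h23 : b.2.1 ≠ b.2.2)
    (a : α) : blk b a = cls (decide (b.1 = a)) (decide (b.2.1 = a)) (decide (b.2.2 = a)) := by
  unfold blk
  by_cases e1 : a = b.1
  · subst e1
    simp [h12.symm, h13.symm, cls]
  · by_cases e2 : a = b.2.1
    · subst e2
      simp [h12, h23.symm, h12.symm, cls]
    · by_cases e3 : a = b.2.2
      · subst e3
        simp [h13, h23, h13.symm, h23.symm, cls]
      · simp [e1, e2, e3, Ne.symm e1, Ne.symm e2, Ne.symm e3, cls]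

/-- a tree in which not all three labels occur has the expected value -/
theorem value_blk (b : α × α × α) (h12 : b.1 ≠ b.2.1) (h13 : b.1 ≠ b.2.2) (h23 : b.2.1 ≠ b.2.2)
    (t : BTree α) (ht : t.word.Nodup)
    (hn : ¬ (b.1 ∈ t.word ∧ b.2.1 ∈ t.word ∧ b.2.2 ∈ t.word)) :
    t.value (blk b) =
      cls (decide (b.1 ∈ t.word)) (decide (b.2.1 ∈ t.word)) (decide (b.2.2 ∈ t.word)) := by
  induction t with
  | leaf a =>
    simp only [BTree.word, List.mem_singleton, BTree.value]
    exact blk_eq b h12 h13 h23 a
  | node l r hl hr =>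
    have hw : (BTree.node l r).word = l.word ++ r.word := rfl
    rw [hw, List.nodup_append] at ht
    rw [hw] at hn ⊢
    simp only [List.mem_append] at hn ⊢
    have hdis : ∀ c, ¬ (c ∈ l.word ∧ c ∈ r.word) := fun c hc => ht.2.2 c hc.1 c hc.2 rfl
    have d1 := hdis b.1
    have d2 := hdis b.2.1
    have d3 := hdis b.2.2
    rw [BTree.value, hl ht.1 (by tauto), hr ht.2.1 (by tauto), cls_eq]
    · simp only [Bool.decide_or]
    · simp only [Bool.and_eq_false_iff, decide_eq_false_iff_not]; tauto
    · simp only [Bool.and_eq_false_iff, decide_eq_false_iff_not]; tauto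
    · simp only [Bool.and_eq_false_iff, decide_eq_false_iff_not]; tauto
    · rw [Bool.eq_false_iff]
      intro h
      simp only [Bool.and_eq_true, Bool.or_eq_true, decide_eq_true_eq] at h
      exact hn ⟨h.1.1, h.1.2, h.2⟩

/-- certificates for the point `x1` -/
def cert (b : α × α × α) (a : α) : Set (Fin 3) :=
  if a = b.1 then {2} else if a = b.2.1 then {0} else if a = b.2.2 then {1} else ∅

theorem cert_disj (b : α × α × α) (a a' : α) (h : a ≠ a') : Disjoint (cert b a) (cert b a') := by
  rw [Set.disjoint_left]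
  intro i hi hi'
  unfold cert at hi hi'
  split_ifs at hi hi' <;> simp_all

theorem cert_sub (b : α × α × α) (a : α) : cyl x1 (cert b a) ⊆ blk b a := by
  unfold cert blk
  split_ifs
  · exact cert1
  · exact cert2
  · exact cert3
  · exact Set.subset_univ _

theorem x1_mem (b : α × α × α) (t : BTree α) (ht : t.word.Nodup) : x1 ∈ t.value (blk b) :=
  cyl_sub_value (cert b) (cert_disj b) (cert_sub b) t ht (self_mem_cyl x1 _)

end Pool.Agent.X72.BKR
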