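import Mathlib

/-! Median graphs and triameter: definitions, and a way to compute distances. -/

namespace Pool.Agent.X72.MedianDefs

variable {V : Type*}

/-- The interval `[u,v]`: the vertices `x` with `d(u,x) + d(x,v) = d(u,v)`. -/
def interval (G : SimpleGraph V) (u v : V) : Set V :=
  {x | G.dist u x + G.dist x v = G.dist u v}

/-- Median graphs: connected, and for all `u,v,w` exactly one vertex lies in
`[u,v] ∩ [u,w] ∩ [v,w]`. -/
def IsMedian (G : SimpleGraph V) : Prop :=
  G.Connected ∧ ∀ u v w : V, ∃! x, x ∈ interval G u v ∧ x ∈ interval G u w ∧ x ∈ interval G v w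

/-- `u,v` is a diametral pair: `d(u,v)` is the largest distance in `G`. -/
def IsDiametral (G : SimpleGraph V) (u v : V) : Prop :=
  ∀ a b : V, G.dist a b ≤ G.dist u v

/-- `v` is peripheral: it lies in some diametral pair. -/
def IsPeripheral (G : SimpleGraph V) (v : V) : Prop :=
  ∃ u : V, IsDiametral G v u

/-- `d(a,b,c) = d(a,b) + d(a,c) + d(b,c)`. -/
noncomputable def tri (G : SimpleGraph V) (a b c : V) : ℕ :=
  G.dist a b + G.dist a c + G.dist b c

/-- `a,b,c` is a triametral triple: `d(a,b,c)` is the triameter of `G`. -/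
def IsTriametral (G : SimpleGraph V) (a b c : V) : Prop :=
  ∀ x y z : V, tri G x y z ≤ tri G a b c

theorem le_length (G : SimpleGraph V) (D : V → V → ℕ)
    (h0 : ∀ u, D u u = 0) (hL : ∀ u x y, G.Adj x y → D x u ≤ D y u + 1) {u v : V}
    (p : G.Walk u v) : D u v ≤ p.length := by
  induction p with
  | nil => simp [h0]
  | cons h p ih =>
    rw [SimpleGraph.Walk.length_cons]
    exact (hL _ _ _ h).trans (by omega)

theorem exists_walk (G : SimpleGraph V) (D : V → V → ℕ)
    (h0 : ∀ u, D u u = 0) (hz : ∀ u v, D u v = 0 → u = v)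
    (hS : ∀ u v, u ≠ v → ∃ w, G.Adj u w ∧ D w v + 1 = D u v) (n : ℕ) :
    ∀ u v : V, D u v = n → ∃ p : G.Walk u v, p.length = n := by
  induction n with
  | zero =>
    intro u v h
    have := hz u v h
    subst this
    exact ⟨SimpleGraph.Walk.nil, rfl⟩
  | succ n ih =>
    intro u v h
    by_cases huv : u = v
    · subst huv
      rw [h0] at h
      omega
    · obtain ⟨w, hw, hD⟩ := hS u v huv
      obtain ⟨p, hp⟩ := ih w v (by omega)
      exact ⟨SimpleGraph.Walk.cons hw p, by rw [SimpleGraph.Walk.length_cons, hp]⟩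

/-- A function that satisfies the obvious recursion is the distance. -/
theorem dist_eq (G : SimpleGraph V) (D : V → V → ℕ)
    (h0 : ∀ u, D u u = 0) (hz : ∀ u v, D u v = 0 → u = v)
    (hL : ∀ u x y, G.Adj x y → D x u ≤ D y u + 1)
    (hS : ∀ u v, u ≠ v → ∃ w, G.Adj u w ∧ D w v + 1 = D u v) :
    G.Preconnected ∧ ∀ u v, G.dist u v = D u v := by
  have hpre : G.Preconnected := fun u v => by
    obtain ⟨p, -⟩ := exists_walk G D h0 hz hS (D u v) u v rfl
    exact ⟨p⟩
  refine ⟨hpre, fun u v => le_antisymm ?_ ?_⟩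
  · obtain ⟨p, hp⟩ := exists_walk G D h0 hz hS (D u v) u v rfl
    rw [← hp]
    exact SimpleGraph.dist_le p
  · obtain ⟨p, hp⟩ := (hpre u v).exists_walk_length_eq_dist
    rw [← hp]
    exact le_length G D h0 hL p

end Pool.Agent.X72.MedianDefs
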