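import Mathlib

/-! The poset of retractions of a lattice. -/

namespace Pool.Agent.X72.RetrDefs

/-- The retractions of `L`: the order-preserving idempotent self-maps, ordered pointwise (this is
the order of a subtype of `L →o L`). -/
abbrev Retr (L : Type*) [Lattice L] : Type _ := {r : L →o L // ∀ x, r (r x) = r x}

end Pool.Agent.X72.RetrDefs
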