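import Mathlib
import Pool.Agent.Cov.PNT

set_option autoImplicit false

namespace Pool.Agent.X72.CatDiv

open Finset Filter Topology ArithmeticFunction
open Pool.Agent.Cov.PNT (pnt_residueClass)

/-- recurrence for the Catalan numbers -/
theorem cat_rec (k : ℕ) : (k + 2) * catalan (k + 1) = 2 * (2 * k + 1) * catalan k := by
  have h1 := succ_mul_catalan_eq_centralBinom k
  have h2 := succ_mul_catalan_eq_centralBinom (k + 1)
  have h3 := Nat.succ_mul_centralBinom_succ k
  have h4 : (k + 1) * ((k + 2) * catalan (k + 1)) = (k + 1) * (2 * (2 * k + 1) * catalan k) := by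
    rw [show k + 1 + 1 = k + 2 by ring] at h2
    rw [h2, h3, ← h1]
    ring
  exact Nat.eq_of_mul_eq_mul_left (Nat.succ_pos k) h4

def P (n : ℕ) : Prop := ∃ M c : ℕ, 0 < M ∧ (∀ l : ℕ, l.Prime → l ∣ M → l ∣ n) ∧ c.Coprime M ∧
  ∀ k : ℕ, k ≡ c [MOD M] → n ∣ catalan k

theorem P_mul {a b : ℕ} (hab : a.Coprime b) (ha : P a) (hb : P b) : P (a * b) := by
  obtain ⟨M, c, hM, h1, h2, h3⟩ := ha
  obtain ⟨M', c', hM', h1', h2', h3'⟩ := hb
  have hco : M.Coprime M' := by
    apply Nat.Coprime.symm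
    by_contra hcon
    obtain ⟨l, hl, hl1, hl2⟩ := Nat.Prime.not_coprime_iff_dvd.1 hcon
    have := Nat.dvd_gcd (h1 l hl hl2) (h1' l hl hl1)
    rw [hab] at this
    exact hl.one_lt.ne' (Nat.dvd_one.1 this)
  obtain ⟨x, hx1, hx2⟩ := Nat.chineseRemainder hco c c'
  refine ⟨M * M', x, Nat.mul_pos hM hM', ?_, ?_, ?_⟩
  · intro l hl h
    rcases (Nat.Prime.dvd_mul hl).1 h with h | h
    · exact (h1 l hl h).mul_right _
    · exact (h1' l hl h).mul_left _
  · apply Nat.Coprime.mul_right
    · rw [Nat.Coprime, hx1.gcd_eq]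
      exact h2
    · rw [Nat.Coprime, hx2.gcd_eq]
      exact h2'
  · intro k hk
    apply Nat.Coprime.mul_dvd_of_dvd_of_dvd hab
    · exact h3 k ((hk.of_mul_right M').trans hx1)
    · exact h3' k ((hk.of_mul_left M).trans hx2)

theorem P_two (a : ℕ) : P (2 ^ a) := by
  rcases Nat.eq_zero_or_pos a with rfl | ha
  · refine ⟨1, 0, one_pos, ?_, by simp, ?_⟩
    · intro l hl h
      simpa using h
    · intro k _
      simp
  · refine ⟨2 ^ (a + 2), 2 ^ (a + 2) - 3, by positivity, ?_, ?_, ?_⟩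
    · intro l hl h
      have := hl.dvd_of_dvd_pow h
      exact this.trans (dvd_pow_self 2 ha.ne')
    · have h4 : 2 ^ (a + 2) = 4 * 2 ^ a := by ring
      apply Nat.Coprime.pow_right
      rw [Nat.coprime_two_right] 
      have : 1 ≤ 2 ^ a := Nat.one_le_two_pow
      rw [Nat.odd_iff]
      omega
    · intro k hk
      have h4 : 2 ^ (a + 2) = 4 * 2 ^ a := by ring
      have h1 : 1 ≤ 2 ^ a := Nat.one_le_two_pow
      have hd : 2 ^ (a + 2) ∣ k + 3 := by
        have := hk.add_right 3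
        rw [Nat.sub_add_cancel (by omega)] at this
        exact (Nat.modEq_zero_iff_dvd.1 (this.trans (by simp [Nat.ModEq])))
      obtain ⟨t, ht⟩ := hd
      have e1 := cat_rec k
      have e2 := cat_rec (k + 1)
      rw [show k + 1 + 2 = k + 3 by ring, show k + 1 + 1 = k + 2 by ring, ht, h4] at e2
      have e3 : 4 * (2 ^ a * (t * (k + 2) * catalan (k + 2))) =
          4 * (((2 * k + 1) * (2 * k + 3)) * catalan k) := by
        calc 4 * (2 ^ a * (t * (k + 2) * catalan (k + 2)))
            = (k + 2) * (4 * 2 ^ a * t * catalan (k + 2)) := by ring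
          _ = (k + 2) * (2 * (2 * (k + 1) + 1) * catalan (k + 1)) := by rw [e2]
          _ = 2 * (2 * (k + 1) + 1) * ((k + 2) * catalan (k + 1)) := by ring
          _ = 2 * (2 * (k + 1) + 1) * (2 * (2 * k + 1) * catalan k) := by rw [e1]
          _ = _ := by ring
      have e4 := Nat.eq_of_mul_eq_mul_left (by norm_num : 0 < 4) e3
      have e5 : 2 ^ a ∣ ((2 * k + 1) * (2 * k + 3)) * catalan k := by
        rw [← e4]; exact dvd_mul_right _ _
      refine (Nat.Coprime.dvd_mul_left ?_).1 e5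
      apply Nat.Coprime.pow_left
      rw [Nat.coprime_two_left]
      exact Odd.mul ⟨k, rfl⟩ ⟨k + 1, by ring⟩

theorem P_odd (n : ℕ) (hn : Odd n) : P n := by
  have hn0 : 0 < n := hn.pos
  by_cases h3 : 3 ∣ n
  · -- modulus `3 n`
    refine ⟨3 * n, 6 * n - 2, by positivity, ?_, ?_, ?_⟩
    · intro l hl h
      rcases (Nat.Prime.dvd_mul hl).1 h with h | h
      · rw [(Nat.prime_dvd_prime_iff_eq hl Nat.prime_three).1 h]; exact h3
      · exact h
    · have h5 : (3 * n).Coprime 2 := by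
        rw [Nat.coprime_two_right]
        exact Odd.mul (by decide) hn
      have h6 : Nat.Coprime (6 * n - 2) (3 * n) := by
        apply Nat.Coprime.symm
        by_contra hcon
        obtain ⟨l, hl, hl1, hl2⟩ := Nat.Prime.not_coprime_iff_dvd.1 hcon
        have h7 : l ∣ 2 := by
          have : l ∣ 6 * n := by
            have := hl1.mul_left 2
            rwa [← mul_assoc] at this
          have h8 := (Nat.dvd_sub_iff_right (by omega : 2 ≤ 6 * n) this).1 hl2
          exact h8
        have := Nat.dvd_gcd hl1 h7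
        rw [h5] at this
        exact hl.one_lt.ne' (Nat.dvd_one.1 this)
      exact h6
    · intro k hk
      have hd : 3 * n ∣ k + 2 := by
        have := hk.add_right 2
        rw [Nat.sub_add_cancel (by omega)] at this
        exact (Nat.modEq_zero_iff_dvd.1 (this.trans (Nat.modEq_zero_iff_dvd.2 ⟨2, by ring⟩)))
      obtain ⟨t, ht⟩ := hd
      have ht0 : 0 < t := by
        rcases Nat.eq_zero_or_pos t with rfl | h
        · omega
        · exact h
      have hnt : 1 ≤ n * t := Nat.mul_pos hn0 ht0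
      have e1 := cat_rec k
      have e2 : 2 * k + 1 = 3 * (2 * (n * t) - 1) := by
        have : k + 2 = 3 * (n * t) := by rw [ht]; ring
        omega
      rw [ht, e2] at e1
      have e3 : 3 * (n * (t * catalan (k + 1))) = 3 * ((2 * (2 * (n * t) - 1)) * catalan k) := by
        calc 3 * (n * (t * catalan (k + 1))) = 3 * n * t * catalan (k + 1) := by ring
          _ = _ := by rw [e1]; ring
      have e4 := Nat.eq_of_mul_eq_mul_left (by norm_num : 0 < 3) e3
      have e5 : n ∣ (2 * (2 * (n * t) - 1)) * catalan k := by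
        rw [← e4]; exact dvd_mul_right _ _
      refine (Nat.Coprime.dvd_mul_left ?_).1 e5
      apply Nat.Coprime.mul_right
      · rw [Nat.coprime_two_right]; exact hn
      · by_contra hcon
        obtain ⟨l, hl, hl1, hl2⟩ := Nat.Prime.not_coprime_iff_dvd.1 hcon
        have h8 : l ∣ 2 * (n * t) := (hl1.mul_right t).mul_left 2
        have h9 := (Nat.dvd_sub_iff_right (by omega : 1 ≤ 2 * (n * t)) h8).1 hl2
        exact hl.one_lt.ne' (Nat.dvd_one.1 h9)
  · refine ⟨n, 2 * n - 2, hn0, fun l _ h => h, ?_, ?_⟩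
    · by_contra hcon
      obtain ⟨l, hl, hl1, hl2⟩ := Nat.Prime.not_coprime_iff_dvd.1 hcon
      have h7 : l ∣ 2 := (Nat.dvd_sub_iff_right (by omega : 2 ≤ 2 * n) (hl2.mul_left 2)).1 hl1
      have h5 : n.Coprime 2 := by
        rw [Nat.coprime_two_right]; exact hn
      have := Nat.dvd_gcd hl2 h7
      rw [h5] at this
      exact hl.one_lt.ne' (Nat.dvd_one.1 this)
    · intro k hk
      have hd : n ∣ k + 2 := by
        have := hk.add_right 2
        rw [Nat.sub_add_cancel (by omega)] at this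
        exact (Nat.modEq_zero_iff_dvd.1 (this.trans (Nat.modEq_zero_iff_dvd.2 ⟨2, by ring⟩)))
      have e1 := cat_rec k
      have e5 : n ∣ (2 * (2 * k + 1)) * catalan k := by
        rw [← e1]; exact hd.mul_right _
      refine (Nat.Coprime.dvd_mul_left ?_).1 e5
      apply Nat.Coprime.mul_right
      · rw [Nat.coprime_two_right]; exact hn
      · by_contra hcon
        obtain ⟨l, hl, hl1, hl2⟩ := Nat.Prime.not_coprime_iff_dvd.1 hcon
        have h8 : l ∣ 2 * (k + 2) := (hl1.trans hd).mul_left 2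
        rw [show 2 * (k + 2) = (2 * k + 1) + 3 by ring] at h8
        have h9 : l ∣ 3 := (Nat.dvd_add_right hl2).1 h8
        rw [(Nat.prime_dvd_prime_iff_eq hl Nat.prime_three).1 h9] at hl1
        exact h3 hl1

theorem P_all (n : ℕ) (hn : 0 < n) : P n := by
  obtain ⟨a, m, hm, rfl⟩ := Nat.exists_eq_two_pow_mul_odd hn.ne'
  refine P_mul ?_ (P_two a) (P_odd m hm)
  exact Nat.Coprime.pow_left _ ((Nat.coprime_two_left).2 hm)

/-- the summatory function -/
noncomputable def R (M : ℕ) (a : ZMod M) (N : ℕ) : ℝ := ∑ k ∈ Icc 1 N, vonMangoldt.residueClass a k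

theorem R_sub_le (M : ℕ) (a : ZMod M) (y N : ℕ) (hyN : y ≤ N)
    (hno : ∀ q : ℕ, q.Prime → y < q → q ≤ N → (q : ZMod M) ≠ a) :
    R M a N - R M a y ≤ Chebyshev.psi N - Chebyshev.theta N := by
  have h1 : R M a N - R M a y = ∑ k ∈ Ioc y N, vonMangoldt.residueClass a k := by
    unfold R
    rw [show Icc 1 N = Ioc 0 N from rfl, show Icc 1 y = Ioc 0 y from rfl,
      ← Finset.sum_Ioc_consecutive _ (Nat.zero_le y) hyN]
    ring
  have h2 : Chebyshev.psi N - Chebyshev.theta N = ∑ k ∈ Ioc 0 N, (Λ k - if k.Prime then Real.log k else 0) := by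
    unfold Chebyshev.psi Chebyshev.theta
    rw [Nat.floor_natCast, Finset.sum_sub_distrib, Finset.sum_filter]
  rw [h1, h2]
  refine le_trans (Finset.sum_le_sum (g := fun k => Λ k - if k.Prime then Real.log k else 0) ?_) ?_
  · intro k hk
    rw [mem_Ioc] at hk
    by_cases hp : k.Prime
    · have hc : (k : ZMod M) ≠ a := hno k hp hk.1 hk.2
      rw [if_pos hp, vonMangoldt_apply_prime hp, sub_self]
      unfold vonMangoldt.residueClass
      rw [Set.indicator_of_notMem]
      exact hc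
    · rw [if_neg hp, sub_zero]
      exact vonMangoldt.residueClass_le _ _
  · apply Finset.sum_le_sum_of_subset_of_nonneg
    · intro k hk
      rw [mem_Ioc] at hk ⊢
      omega
    · intro k _ _
      by_cases hp : k.Prime
      · rw [if_pos hp, vonMangoldt_apply_prime hp, sub_self]
      · rw [if_neg hp, sub_zero]
        exact vonMangoldt_nonneg

theorem exists_prime_window (M : ℕ) (hM : 0 < M) (a : ZMod M) (ha : IsUnit a) :
    ∃ x0 : ℕ, ∀ x : ℕ, x0 ≤ x → ∃ q : ℕ, q.Prime ∧ (q : ZMod M) = a ∧ 3 * x < 2 * q ∧ q < 2 * x := by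
  have : NeZero M := ⟨hM.ne'⟩
  have hφ : (0 : ℝ) < (M.totient : ℝ) := by exact_mod_cast Nat.totient_pos.2 hM
  set φ : ℝ := (M.totient : ℝ)⁻¹ with hφd
  have hφ0 : 0 < φ := by positivity
  have h0 := pnt_residueClass (q := M) (a := a) ha
  obtain ⟨C, hC⟩ := Chebyshev.psi_sub_theta_le_mul_sqrt
  -- bounds for R
  have hb := h0.eventually (Ioo_mem_nhds (show (99 / 100 : ℝ) * φ < φ by linarith)
    (show φ < (101 / 100 : ℝ) * φ by linarith))
  obtain ⟨X, hX⟩ := eventually_atTop.1 (hb.and (eventually_ge_atTop (1 : ℝ)))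
  have e1 : ∀ᶠ x : ℕ in atTop, C * Real.sqrt (19 / 10 * (x : ℝ)) ≤ (φ / 10) * x := by
    have h1 : Tendsto (fun x : ℝ => 19 / 10 * C * (Real.sqrt (19 / 10 * x))⁻¹) atTop (𝓝 0) := by
      have h0 : Tendsto (fun x : ℝ => 19 / 10 * x) atTop atTop := Tendsto.const_mul_atTop (by norm_num) tendsto_id
      have := (tendsto_inv_atTop_zero.comp (Real.tendsto_sqrt_atTop.comp h0)).const_mul (19 / 10 * C)
      simpa [Function.comp_def] using this
    have h2 := (h1.comp tendsto_natCast_atTop_atTop).eventually (gt_mem_nhds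
      (show (0 : ℝ) < φ / 10 by positivity))
    filter_upwards [h2, eventually_ge_atTop 1] with M h3 h4
    simp only [Function.comp] at h3
    have hM : (0 : ℝ) < M := by exact_mod_cast h4
    have hs : 0 < Real.sqrt (19 / 10 * M) := Real.sqrt_pos.2 (by positivity)
    have hs2 : Real.sqrt (19 / 10 * M) * Real.sqrt (19 / 10 * M) = 19 / 10 * M := Real.mul_self_sqrt (by positivity)
    have h5 : C * Real.sqrt (19 / 10 * M) = (19 / 10 * C * (Real.sqrt (19 / 10 * M))⁻¹) * M := by
      calc C * Real.sqrt (19 / 10 * M) = C * (Real.sqrt (19 / 10 * M) * Real.sqrt (19 / 10 * M)) * (Real.sqrt (19 / 10 * M))⁻¹ := by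
            rw [← mul_assoc, mul_assoc (C * _), mul_inv_cancel₀ hs.ne', mul_one]
        _ = _ := by rw [hs2]; ring
    rw [h5]
    exact mul_le_mul_of_nonneg_right h3.le hM.le
  obtain ⟨x0, hx0⟩ := eventually_atTop.1 (e1.and ((eventually_ge_atTop ⌈X⌉₊).and (eventually_ge_atTop 100)))
  refine ⟨x0, fun x hx => ?_⟩
  obtain ⟨g1, g2, g3⟩ := hx0 x hx
  have hxr : (100 : ℝ) ≤ x := by exact_mod_cast g3
  have hXx : X ≤ x := (Nat.le_ceil X).trans (by exact_mod_cast g2)
  by_contra hcon
  push Not at hcon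
  obtain ⟨⟨b1, b2⟩, -⟩ := hX (19 / 10 * x) (by linarith)
  obtain ⟨⟨b3, b4⟩, -⟩ := hX (16 / 10 * x) (by linarith)
  rw [lt_div_iff₀ (by positivity)] at b1 b3
  rw [div_lt_iff₀ (by positivity)] at b2 b4
  have hfl : ⌊(16 / 10 : ℝ) * x⌋₊ ≤ ⌊(19 / 10 : ℝ) * x⌋₊ := Nat.floor_le_floor (by linarith)
  have hR := R_sub_le M a ⌊(16 / 10 : ℝ) * x⌋₊ ⌊(19 / 10 : ℝ) * x⌋₊ hfl (by
    intro q hq hq1 hq2 hqa
    have k1 : (16 / 10 : ℝ) * x < q := Nat.lt_of_floor_lt hq1
    have k2 : (q : ℝ) ≤ (19 / 10 : ℝ) * x := (Nat.le_floor_iff (by positivity)).1 hq2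
    have k3 : 3 * x < 2 * q := by
      have : (3 : ℝ) * x < 2 * q := by linarith
      exact_mod_cast this
    have k4 : q < 2 * x := by
      have : (q : ℝ) < 2 * x := by linarith
      exact_mod_cast this
    have := hcon q hq hqa k3
    omega)
  have hps : Chebyshev.psi ((⌊(19 / 10 : ℝ) * x⌋₊ : ℕ) : ℝ) - Chebyshev.theta ((⌊(19 / 10 : ℝ) * x⌋₊ : ℕ) : ℝ)
      ≤ (φ / 10) * x := by
    have : Chebyshev.psi ((⌊(19 / 10 : ℝ) * x⌋₊ : ℕ) : ℝ) - Chebyshev.theta ((⌊(19 / 10 : ℝ) * x⌋₊ : ℕ) : ℝ)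
      = Chebyshev.psi ((19 / 10 : ℝ) * x) - Chebyshev.theta ((19 / 10 : ℝ) * x) := by
      unfold Chebyshev.psi Chebyshev.theta
      rw [Nat.floor_natCast]
    rw [this]
    exact (hC _).trans g1
  unfold R at hR
  have hxp : (0 : ℝ) < φ * x := by positivity
  nlinarith

theorem main (n : ℕ) (hn : 0 < n) (B : ℕ) : ∃ m : ℕ, B < m ∧ 0 < m ∧ Nat.gcd m n = 1 ∧ m * n ∣ catalan (m + n) := by
  obtain ⟨M, c, hM, h1, h2, h3⟩ := P_all n hn
  set s : ℕ := c + (M - 1) * n with hs
  have hsM : s.Coprime M := by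
    by_contra hcon
    obtain ⟨l, hl, hl1, hl2⟩ := Nat.Prime.not_coprime_iff_dvd.1 hcon
    have h4 : l ∣ (M - 1) * n := (h1 l hl hl2).mul_left _
    have h5 : l ∣ c := (Nat.dvd_add_left h4).1 hl1
    have := Nat.dvd_gcd h5 hl2
    rw [h2] at this
    exact hl.one_lt.ne' (Nat.dvd_one.1 this)
  have : NeZero M := ⟨hM.ne'⟩
  have hunit : IsUnit ((s : ℕ) : ZMod M) := (ZMod.isUnit_iff_coprime s M).2 hsM
  obtain ⟨x0, hx0⟩ := exists_prime_window M hM (s : ZMod M) hunit
  obtain ⟨p, hpgt, hp, hpM⟩ := Nat.forall_exists_prime_gt_and_eq_mod (q := M) (a := 1) isUnit_one (x0 + 2 * n + 4 + B)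
  obtain ⟨q, hq, hqM, hq1, hq2⟩ := hx0 p (by omega)
  have hpq : p < q := by omega
  have hcp : p.Coprime q := (Nat.coprime_primes hp hq).2 (by omega)
  have hpn : p.Coprime n := (Nat.Prime.coprime_iff_not_dvd hp).2 (fun h => by
    have := Nat.le_of_dvd hn h
    omega)
  have hqn : q.Coprime n := (Nat.Prime.coprime_iff_not_dvd hq).2 (fun h => by
    have := Nat.le_of_dvd hn h
    omega)
  have hmn : (p * q).Coprime n := Nat.Coprime.mul_left hpn hqn
  have hBm : B < p * q := by nlinarith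
  refine ⟨p * q, hBm, Nat.mul_pos hp.pos hq.pos, hmn, ?_⟩
  -- n divides
  have hn1 : n ∣ catalan (p * q + n) := by
    apply h3
    rw [← ZMod.natCast_eq_natCast_iff]
    push_cast
    rw [hpM, hqM, hs]
    push_cast
    rw [Nat.cast_sub (by omega : 1 ≤ M)]
    push_cast
    simp
  have key : ∀ r : ℕ, r.Prime → r ∣ p * q → 2 * n + 4 < r → r ∣ Nat.centralBinom (p * q + n) → r ∣ catalan (p * q + n) := by
    intro r hr hrm hrn h
    rw [← succ_mul_catalan_eq_centralBinom] at h
    rcases (Nat.Prime.dvd_mul hr).1 h with h | h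
    · exfalso
      rw [add_assoc] at h
      have := (Nat.dvd_add_right hrm).1 h
      have := Nat.le_of_dvd (by omega) this
      omega
    · exact h
  have hpc : p ∣ catalan (p * q + n) := by
    apply key p hp (dvd_mul_right _ _) (by omega)
    have : Fact p.Prime := ⟨hp⟩
    rw [Nat.centralBinom_eq_two_mul_choose]
    have l1 := Choose.choose_modEq_choose_mod_mul_choose_div_nat (n := 2 * (p * q + n)) (k := p * q + n) (p := p)
    have a1 : 2 * (p * q + n) / p = 2 * q := by
      rw [show 2 * (p * q + n) = p * (2 * q) + 2 * n by ring, Nat.mul_add_div hp.pos, Nat.div_eq_of_lt (by omega)]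
      rfl
    have a2 : (p * q + n) / p = q := by
      rw [Nat.mul_add_div hp.pos, Nat.div_eq_of_lt (by omega)]
      rfl
    have l2 := Choose.choose_modEq_choose_mod_mul_choose_div_nat (n := 2 * q) (k := q) (p := p)
    have a3 : 2 * q % p = 2 * q - 3 * p := by
      rw [show 2 * q = (2 * q - 3 * p) + p * 3 by omega, Nat.add_mul_mod_self_left, Nat.mod_eq_of_lt (by omega)]
      omega
    have a4 : q % p = q - p := by
      rw [show q % p = ((q - p) + p * 1) % p by congr 1; omega, Nat.add_mul_mod_self_left, Nat.mod_eq_of_lt (by omega)]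
    rw [a3, a4, Nat.choose_eq_zero_of_lt (by omega : 2 * q - 3 * p < q - p), zero_mul] at l2
    rw [a1, a2] at l1
    have l3 := l1.trans (l2.mul_left _)
    rw [mul_zero] at l3
    exact Nat.modEq_zero_iff_dvd.1 l3
  have hqc : q ∣ catalan (p * q + n) := by
    apply key q hq (dvd_mul_left _ _) (by omega)
    have : Fact q.Prime := ⟨hq⟩
    rw [Nat.centralBinom_eq_two_mul_choose]
    have l1 := Choose.choose_modEq_choose_mod_mul_choose_div_nat (n := 2 * (p * q + n)) (k := p * q + n) (p := q)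
    have a1 : 2 * (p * q + n) / q = 2 * p := by
      rw [show 2 * (p * q + n) = q * (2 * p) + 2 * n by ring, Nat.mul_add_div hq.pos, Nat.div_eq_of_lt (by omega)]
      rfl
    have a2 : (p * q + n) / q = p := by
      rw [mul_comm p q, Nat.mul_add_div hq.pos, Nat.div_eq_of_lt (by omega)]
      rfl
    have l2 := Choose.choose_modEq_choose_mod_mul_choose_div_nat (n := 2 * p) (k := p) (p := q)
    have a3 : 2 * p % q = 2 * p - q := by
      rw [show 2 * p % q = ((2 * p - q) + q * 1) % q by congr 1; omega, Nat.add_mul_mod_self_left, Nat.mod_eq_of_lt (by omega)]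
    have a4 : p % q = p := Nat.mod_eq_of_lt hpq
    rw [a3, a4, Nat.choose_eq_zero_of_lt (by omega : 2 * p - q < p), zero_mul] at l2
    rw [a1, a2] at l1
    have l3 := l1.trans (l2.mul_left _)
    rw [mul_zero] at l3
    exact Nat.modEq_zero_iff_dvd.1 l3
  exact Nat.Coprime.mul_dvd_of_dvd_of_dvd hmn (Nat.Coprime.mul_dvd_of_dvd_of_dvd hcp hpc hqc) hn1

end Pool.Agent.X72.CatDiv
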