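import Mathlib

/-! Elementary estimates for numbers of partitions. -/

namespace Pool.Agent.X72.PartCount

/-- partitions of size at most `n` (as multisets of positive parts) -/
def Pset (n : ℕ) : Set (Multiset ℕ) := {l | (∀ x ∈ l, 0 < x) ∧ l.sum ≤ n}

/-- partitions of size exactly `n` -/
def pset (n : ℕ) : Set (Multiset ℕ) := {l | (∀ x ∈ l, 0 < x) ∧ l.sum = n}

theorem card_le_sum {l : Multiset ℕ} (h : ∀ x ∈ l, 0 < x) : l.card ≤ l.sum := by
  induction l using Multiset.induction_on with
  | empty => simp
  | cons a s ih =>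
    rw [Multiset.card_cons, Multiset.sum_cons]
    have h1 := ih (fun x hx => h x (Multiset.mem_cons_of_mem hx))
    have h2 := h a (Multiset.mem_cons_self a s)
    omega

theorem count_mul_le (l : Multiset ℕ) (i : ℕ) : l.count i * i ≤ l.sum := by
  have h : Multiset.replicate (l.count i) i ≤ l := Multiset.le_count_iff_replicate_le.mp le_rfl
  obtain ⟨u, hu⟩ := Multiset.le_iff_exists_add.mp h
  conv_rhs => rw [hu]
  rw [Multiset.sum_add, Multiset.sum_replicate, smul_eq_mul]
  omega

theorem pset_finite (n : ℕ) : (pset n).Finite := by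
  have : pset n ⊆ Set.range (fun q : Nat.Partition n => q.parts) := by
    rintro l ⟨h1, h2⟩
    exact ⟨⟨l, fun {x} hx => h1 x hx, h2⟩, rfl⟩
  exact (Set.finite_range _).subset this

theorem Pset_succ (n : ℕ) : Pset (n + 1) = Pset n ∪ pset (n + 1) := by
  ext l
  simp only [Pset, pset, Set.mem_ofPred_eq, Set.mem_union]
  constructor
  · rintro ⟨h1, h2⟩
    rcases Nat.lt_or_ge l.sum (n + 1) with h | h
    · exact Or.inl ⟨h1, by omega⟩
    · exact Or.inr ⟨h1, by omega⟩
  · rintro (⟨h1, h2⟩ | ⟨h1, h2⟩)
    · exact ⟨h1, by omega⟩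
    · exact ⟨h1, by omega⟩

theorem Pset_zero : Pset 0 = pset 0 := by
  ext l
  simp [Pset, pset]

theorem Pset_finite (n : ℕ) : (Pset n).Finite := by
  induction n with
  | zero => rw [Pset_zero]; exact pset_finite 0
  | succ n ih => rw [Pset_succ]; exact ih.union (pset_finite _)

/-- number of partitions of size at most `n` -/
noncomputable def P (n : ℕ) : ℕ := (Pset n).ncard
/-- number of partitions of size `n` -/
noncomputable def p (n : ℕ) : ℕ := (pset n).ncard

theorem P_succ (n : ℕ) : P (n + 1) = P n + p (n + 1) := by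
  unfold P p
  rw [Pset_succ, Set.ncard_union_eq _ (Pset_finite n) (pset_finite _)]
  rw [Set.disjoint_left]
  rintro l ⟨-, h1⟩ ⟨-, h2⟩
  omega

theorem p_le_P (n : ℕ) : p n ≤ P n :=
  Set.ncard_le_ncard (fun _ h => ⟨h.1, h.2.le⟩) (Pset_finite n)

/-- adding copies of a fixed part `a` to partitions without... -/
theorem add_replicate_inj {a : ℕ} {l l' : Multiset ℕ} {k k' : ℕ} (h1 : l.count a = 0)
    (h1' : l'.count a = 0) (h : l + Multiset.replicate k a = l' + Multiset.replicate k' a) :
    l = l' := by
  ext b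
  have hb := congrArg (Multiset.count b) h
  rw [Multiset.count_add, Multiset.count_add, Multiset.count_replicate,
    Multiset.count_replicate] at hb
  by_cases hba : a = b
  · subst hba; rw [h1, h1']
  · simpa [hba] using hb

theorem p_mono {a b : ℕ} (hab : a ≤ b) : p a ≤ p b := by
  apply Set.ncard_le_ncard_of_injOn (fun l => l + Multiset.replicate (b - a) 1) _ _ (pset_finite b)
  · rintro l ⟨h1, h2⟩
    refine ⟨fun x hx => ?_, ?_⟩
    · rcases Multiset.mem_add.mp hx with h | h
      · exact h1 x h
      · rw [Multiset.eq_of_mem_replicate h]; norm_num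
    · rw [Multiset.sum_add, Multiset.sum_replicate, h2, smul_eq_mul]; omega
  · intro l _ l' _ h
    exact add_right_cancel h

/-- partitions of size at most `n` without ones -/
theorem noOnes (n : ℕ) : {l | l ∈ Pset n ∧ l.count 1 = 0}.ncard ≤ p n := by
  apply Set.ncard_le_ncard_of_injOn (fun l => l + Multiset.replicate (n - l.sum) 1) _ _
    (pset_finite n)
  · rintro l ⟨⟨h1, h2⟩, -⟩
    refine ⟨fun x hx => ?_, ?_⟩
    · rcases Multiset.mem_add.mp hx with h | h
      · exact h1 x h
      · rw [Multiset.eq_of_mem_replicate h]; norm_num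
    · rw [Multiset.sum_add, Multiset.sum_replicate, smul_eq_mul]; omega
  · rintro l ⟨-, h1⟩ l' ⟨-, h1'⟩ h
    exact add_replicate_inj h1 h1' h

/-- partitions of size at most `n` without twos -/
theorem noTwos (n : ℕ) : {l | l ∈ Pset n ∧ l.count 2 = 0}.ncard ≤ 2 * p n := by
  have h1 : {l | l ∈ Pset n ∧ l.count 2 = 0}.ncard ≤ (pset n ∪ pset (n - 1)).ncard := by
    apply Set.ncard_le_ncard_of_injOn (fun l => l + Multiset.replicate ((n - l.sum) / 2) 2) _ _
      ((pset_finite n).union (pset_finite _))
    · rintro l ⟨⟨h1, h2⟩, -⟩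
      have hpos : ∀ x ∈ l + Multiset.replicate ((n - l.sum) / 2) 2, 0 < x := by
        intro x hx
        rcases Multiset.mem_add.mp hx with h | h
        · exact h1 x h
        · rw [Multiset.eq_of_mem_replicate h]; norm_num
      have hsum : (l + Multiset.replicate ((n - l.sum) / 2) 2).sum =
          l.sum + (n - l.sum) / 2 * 2 := by
        rw [Multiset.sum_add, Multiset.sum_replicate, smul_eq_mul]
      rcases Nat.even_or_odd' (n - l.sum) with ⟨k, hk | hk⟩
      · left
        exact ⟨hpos, by rw [hsum]; omega⟩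
      · right
        exact ⟨hpos, by rw [hsum]; omega⟩
    · rintro l ⟨-, h1⟩ l' ⟨-, h1'⟩ h
      exact add_replicate_inj h1 h1' h
  have h2 : (pset n ∪ pset (n - 1)).ncard ≤ p n + p (n - 1) := Set.ncard_union_le _ _
  have h3 : p (n - 1) ≤ p n := p_mono (Nat.sub_le n 1)
  omega

/-! ### Blocks -/

theorem P_add (a b : ℕ) : P a + b * p a ≤ P (a + b) := by
  induction b with
  | zero => simp
  | succ b ih =>
    rw [← Nat.add_assoc, P_succ]
    have := p_mono (show a ≤ a + b + 1 by omega)
    rw [Nat.add_mul, one_mul]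
    omega

theorem block_sum (n k : ℕ) (C : ℕ) (hC : C * k ≤ n) :
    k * ∑ c ∈ Finset.range C, p (n - (c + 1) * k) + P (n - C * k) ≤ P n := by
  induction C with
  | zero => simp
  | succ C ih =>
    have hC' : C * k ≤ n := (Nat.mul_le_mul_right k (Nat.le_succ C)).trans hC
    have h1 := ih hC'
    rw [Finset.sum_range_succ, Nat.mul_add]
    have h2 := P_add (n - (C + 1) * k) k
    have h3 : n - (C + 1) * k + k = n - C * k := by
      have : (C + 1) * k = C * k + k := by ring
      omega
    rw [h3] at h2
    omega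

/-! ### The shifted partitions -/

/-- the parts strictly between... -/
theorem split_sum (K : ℕ) (hK : 2 ≤ K) (l : Multiset ℕ) (hpos : ∀ x ∈ l, 0 < x) :
    l.sum = l.count 1 + (l.filter fun i => 2 ≤ i ∧ i < K).sum + l.count K * K +
      (l.filter fun i => K < i).sum := by
  induction l using Multiset.induction_on with
  | empty => simp
  | cons a s ih =>
    have hs := ih (fun x hx => hpos x (Multiset.mem_cons_of_mem hx))
    have ha := hpos a (Multiset.mem_cons_self a s)
    rw [Multiset.sum_cons, hs, Multiset.filter_cons, Multiset.filter_cons, Multiset.sum_add,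
      Multiset.sum_add, Multiset.count_cons, Multiset.count_cons]
    rcases Nat.lt_trichotomy a K with h | h | h
    · by_cases h1 : a = 1
      · subst h1
        have : K ≠ 1 := by omega
        simp [this, show ¬ K < 1 by omega]
        ring
      · have h2 : 2 ≤ a := by omega
        simp [h, h2, Ne.symm h1, h.ne', h.not_gt]
        ring
    · subst h
      have : ¬ (1 = a) := by omega
      simp [this]
      ring
    · have e1 : ¬ (1 = a) := by omega
      have e2 : ¬ (K = a) := by omega
      have e3 : ¬ (a < K) := by omega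
      simp [e1, e2, e3, h]
      ring

theorem sum_map_succ (l : Multiset ℕ) : (l.map Nat.succ).sum = l.sum + l.card := by
  induction l using Multiset.induction_on with
  | empty => simp
  | cons a s ih =>
    rw [Multiset.map_cons, Multiset.sum_cons, Multiset.sum_cons, Multiset.card_cons, ih]
    simp only [Nat.succ_eq_add_one]
    ring

theorem card_filter_eq (K : ℕ) (l : Multiset ℕ) :
    (l.filter fun i => 2 ≤ i ∧ i < K).card = ∑ i ∈ Finset.Ico 2 K, l.count i := by
  induction l using Multiset.induction_on with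
  | empty => simp
  | cons a s ih =>
    simp only [Multiset.filter_cons, Multiset.card_add, ih, Multiset.count_cons,
      Finset.sum_add_distrib]
    rw [add_comm]
    congr 1
    rw [Finset.sum_ite_eq' (Finset.Ico 2 K) a (fun _ => 1)]
    by_cases h : 2 ≤ a ∧ a < K
    · simp [h]
    · simp [h]

/-- the shifted partition -/
noncomputable def shift (K : ℕ) (l : Multiset ℕ) : Multiset ℕ :=
  Multiset.replicate (l.count 1 - ∑ i ∈ Finset.Icc 2 K, l.count i) 1 +
    (l.filter fun i => 2 ≤ i ∧ i < K).map Nat.succ + l.filter fun i => K < i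

theorem shift_pos (K : ℕ) (l : Multiset ℕ) (hpos : ∀ x ∈ l, 0 < x) : ∀ x ∈ shift K l, 0 < x := by
  intro x hx
  rcases Multiset.mem_add.mp hx with h | h
  · rcases Multiset.mem_add.mp h with h | h
    · rw [Multiset.eq_of_mem_replicate h]; norm_num
    · obtain ⟨y, -, rfl⟩ := Multiset.mem_map.mp h
      exact Nat.succ_pos y
  · exact hpos x (Multiset.mem_filter.mp h).1

theorem shift_sum (K : ℕ) (hK : 2 ≤ K) (l : Multiset ℕ) (hpos : ∀ x ∈ l, 0 < x)
    (hle : ∑ i ∈ Finset.Icc 2 K, l.count i ≤ l.count 1) :
    (shift K l).sum + l.count K * (K + 1) = l.sum := by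
  have h1 := split_sum K hK l hpos
  have h2 : ∑ i ∈ Finset.Icc 2 K, l.count i = ∑ i ∈ Finset.Ico 2 K, l.count i + l.count K := by
    rw [← Finset.Ico_succ_right_eq_Icc, Nat.succ_eq_succ, Nat.succ_eq_add_one,
      Finset.sum_Ico_succ_top hK]
  unfold shift
  rw [Multiset.sum_add, Multiset.sum_add, Multiset.sum_replicate, smul_eq_mul, mul_one,
    sum_map_succ, card_filter_eq, h1]
  rw [Nat.mul_add, mul_one]
  omega

theorem count_shift_one (K : ℕ) (hK : 2 ≤ K) (l : Multiset ℕ) :
    (shift K l).count 1 = l.count 1 - ∑ i ∈ Finset.Icc 2 K, l.count i := by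
  unfold shift
  rw [Multiset.count_add, Multiset.count_add, Multiset.count_replicate_self]
  have h1 : ((l.filter fun i => 2 ≤ i ∧ i < K).map Nat.succ).count 1 = 0 := by
    rw [Multiset.count_eq_zero]
    intro h
    obtain ⟨y, hy, h⟩ := Multiset.mem_map.mp h
    have := (Multiset.mem_filter.mp hy).2
    omega
  have h2 : (l.filter fun i => K < i).count 1 = 0 := by
    rw [Multiset.count_eq_zero]
    intro h
    have := (Multiset.mem_filter.mp h).2
    omega
  omega

theorem count_shift_two (K : ℕ) (hK : 2 ≤ K) (l : Multiset ℕ) : (shift K l).count 2 = 0 := by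
  unfold shift
  rw [Multiset.count_eq_zero]
  intro h
  rcases Multiset.mem_add.mp h with h | h
  · rcases Multiset.mem_add.mp h with h | h
    · have := Multiset.eq_of_mem_replicate h
      omega
    · obtain ⟨y, hy, h⟩ := Multiset.mem_map.mp h
      have := (Multiset.mem_filter.mp hy).2
      omega
  · have := (Multiset.mem_filter.mp h).2
    omega

theorem count_shift_succ (K : ℕ) (l : Multiset ℕ) (i : ℕ) (h2 : 2 ≤ i) (hi : i < K) :
    (shift K l).count (i + 1) = l.count i := by
  unfold shift
  rw [Multiset.count_add, Multiset.count_add, Multiset.count_replicate, if_neg (by omega)]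
  have h1 : (l.filter fun i => K < i).count (i + 1) = 0 := by
    rw [Multiset.count_eq_zero]
    intro h
    have := (Multiset.mem_filter.mp h).2
    omega
  have h3 : ((l.filter fun i => 2 ≤ i ∧ i < K).map Nat.succ).count (i + 1) =
      (l.filter fun i => 2 ≤ i ∧ i < K).count i :=
    Multiset.count_map_eq_count' _ _ Nat.succ_injective i
  rw [h1, h3, Multiset.count_filter_of_pos ⟨h2, hi⟩]
  omega

theorem count_shift_gt (K : ℕ) (hK : 2 ≤ K) (l : Multiset ℕ) (i : ℕ) (hi : K < i) :
    (shift K l).count i = l.count i := by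
  unfold shift
  rw [Multiset.count_add, Multiset.count_add, Multiset.count_replicate, if_neg (by omega)]
  have h1 : ((l.filter fun i => 2 ≤ i ∧ i < K).map Nat.succ).count i = 0 := by
    rw [Multiset.count_eq_zero]
    intro h
    obtain ⟨y, hy, h⟩ := Multiset.mem_map.mp h
    have := (Multiset.mem_filter.mp hy).2
    omega
  rw [h1, Multiset.count_filter_of_pos (show K < i from hi)]
  omega

/-- partitions in which there are at least as many ones as parts in `[2, K]` -/
def Qset (K n : ℕ) : Set (Multiset ℕ) :=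
  {l | l ∈ Pset n ∧ ∑ i ∈ Finset.Icc 2 K, l.count i ≤ l.count 1}

theorem shift_inj (K : ℕ) (hK : 2 ≤ K) {l l' : Multiset ℕ} (hl : ∀ x ∈ l, 0 < x)
    (hl' : ∀ x ∈ l', 0 < x)
    (h1 : ∑ i ∈ Finset.Icc 2 K, l.count i ≤ l.count 1)
    (h1' : ∑ i ∈ Finset.Icc 2 K, l'.count i ≤ l'.count 1) (hc : l.count K = l'.count K)
    (h : shift K l = shift K l') : l = l' := by
  have key : ∀ i, 2 ≤ i → l.count i = l'.count i := by
    intro i hi
    rcases Nat.lt_trichotomy i K with hlt | heq | hgt
    · rw [← count_shift_succ K l i hi hlt, ← count_shift_succ K l' i hi hlt, h]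
    · rw [heq]; exact hc
    · rw [← count_shift_gt K hK l i hgt, ← count_shift_gt K hK l' i hgt, h]
  ext i
  rcases Nat.lt_or_ge i 2 with hi | hi
  · have : i = 0 ∨ i = 1 := by omega
    rcases this with rfl | rfl
    · rw [Multiset.count_eq_zero.mpr (fun h => absurd (hl 0 h) (lt_irrefl 0)),
        Multiset.count_eq_zero.mpr (fun h => absurd (hl' 0 h) (lt_irrefl 0))]
    · have e1 := count_shift_one K hK l
      have e2 := count_shift_one K hK l'
      rw [h] at e1
      have e3 : ∑ i ∈ Finset.Icc 2 K, l.count i = ∑ i ∈ Finset.Icc 2 K, l'.count i :=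
        Finset.sum_congr rfl fun i hi => key i (Finset.mem_Icc.mp hi).1
      omega
  · exact key i hi

theorem Qset_le (K : ℕ) (hK : 2 ≤ K) (n : ℕ) :
    (K + 1) * (Qset K n).ncard ≤ (K + 1) * (2 * p n) + 2 * P n := by
  have hfin : (Qset K n).Finite := (Pset_finite n).subset fun _ h => h.1
  -- split according to the number of parts equal to `K`
  have h1 : (Qset K n).ncard ≤ ∑ c ∈ Finset.range (n / (K + 1) + 1),
      2 * p (n - c * (K + 1)) := by
    have hcover : Qset K n ⊆ ⋃ c ∈ Finset.range (n / (K + 1) + 1),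
        {l | l ∈ Qset K n ∧ l.count K = c} := by
      intro l hl
      simp only [Set.mem_iUnion, Finset.mem_range, exists_prop]
      refine ⟨l.count K, ?_, hl, rfl⟩
      have hs := shift_sum K hK l hl.1.1 hl.2
      have hle : l.count K * (K + 1) ≤ n := by
        have := hl.1.2
        omega
      exact Nat.lt_succ_of_le ((Nat.le_div_iff_mul_le (Nat.succ_pos K)).mpr hle)
    have hU : (Qset K n).ncard ≤ ∑ c ∈ Finset.range (n / (K + 1) + 1),
        {l | l ∈ Qset K n ∧ l.count K = c}.ncard := by
      refine (Set.ncard_le_ncard hcover ?_).trans (Finset.set_ncard_biUnion_le _ _)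
      exact Set.Finite.biUnion (Finset.finite_toSet _) fun c _ => hfin.subset fun _ h => h.1
    refine hU.trans (Finset.sum_le_sum fun c _ => ?_)
    refine le_trans ?_ (noTwos (n - c * (K + 1)))
    apply Set.ncard_le_ncard_of_injOn (shift K) _ _ ((Pset_finite _).subset fun _ h => h.1)
    · rintro l ⟨hl, hc⟩
      have hs := shift_sum K hK l hl.1.1 hl.2
      rw [hc] at hs
      refine ⟨⟨shift_pos K l hl.1.1, ?_⟩, count_shift_two K hK l⟩
      have := hl.1.2
      omega
    · rintro l ⟨hl, hc⟩ l' ⟨hl', hc'⟩ h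
      exact shift_inj K hK hl.1.1 hl'.1.1 hl.2 hl'.2 (hc.trans hc'.symm) h
  have h2 := block_sum n (K + 1) (n / (K + 1)) (Nat.div_mul_le_self n (K + 1))
  have h3 : ∑ c ∈ Finset.range (n / (K + 1) + 1), 2 * p (n - c * (K + 1)) =
      2 * p n + 2 * ∑ c ∈ Finset.range (n / (K + 1)), p (n - (c + 1) * (K + 1)) := by
    rw [Finset.sum_range_succ', Finset.mul_sum]
    simp only [zero_mul, Nat.sub_zero]
    ring
  rw [h3] at h1
  calc (K + 1) * (Qset K n).ncard
      ≤ (K + 1) * (2 * p n + 2 * ∑ c ∈ Finset.range (n / (K + 1)), p (n - (c + 1) * (K + 1))) :=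
        Nat.mul_le_mul_left _ h1
    _ = (K + 1) * (2 * p n) + 2 * ((K + 1) * ∑ c ∈ Finset.range (n / (K + 1)),
          p (n - (c + 1) * (K + 1))) := by ring
    _ ≤ (K + 1) * (2 * p n) + 2 * P n := by omega

end Pool.Agent.X72.PartCount
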