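import Mathlib
import Pool.Agent.X72.PartCount

/-! The ratio `p(n) / P(n)` tends to zero. -/

namespace Pool.Agent.X72.PartCount

/-- partitions with many distinct parts, each with one part removed, are different -/
theorem many_distinct (k n : ℕ) :
    k * {l | l ∈ pset n ∧ k ≤ l.toFinset.card}.ncard ≤ P n := by
  classical
  have hfin : {l | l ∈ pset n ∧ k ≤ l.toFinset.card}.Finite :=
    (pset_finite n).subset fun _ h => h.1
  have hex : ∀ l : Multiset ℕ, k ≤ l.toFinset.card → ∃ f : Fin k → ℕ, Function.Injective f ∧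
      ∀ i, f i ∈ l := by
    intro l hl
    obtain ⟨s, hs, hsc⟩ := Finset.exists_subset_card_eq hl
    refine ⟨fun i => s.orderEmbOfFin hsc i, (s.orderEmbOfFin hsc).injective, fun i => ?_⟩
    exact Multiset.mem_toFinset.mp (hs (Finset.orderEmbOfFin_mem s hsc i))
  choose! f hf1 hf2 using hex
  have hcard := Finset.card_le_card_of_injOn (s := hfin.toFinset ×ˢ (Finset.univ : Finset (Fin k)))
    (t := (Pset_finite n).toFinset) (fun q => q.1.erase (f q.1 q.2)) (by
      rintro ⟨l, i⟩ hq
      rw [Finset.mem_coe, Finset.mem_product, Set.Finite.mem_toFinset] at hq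
      obtain ⟨⟨⟨h1, h2⟩, h3⟩, -⟩ := hq
      rw [Finset.mem_coe, Set.Finite.mem_toFinset]
      have hmem := hf2 l h3 i
      refine ⟨fun x hx => h1 x (Multiset.mem_of_mem_erase hx), ?_⟩
      have := Multiset.sum_erase hmem
      simp only at h2 this ⊢
      omega) (by
      rintro ⟨l, i⟩ hq ⟨l', i'⟩ hq' h
      rw [Finset.mem_coe, Finset.mem_product, Set.Finite.mem_toFinset] at hq hq'
      obtain ⟨⟨⟨h1, h2⟩, h3⟩, -⟩ := hq
      obtain ⟨⟨⟨h1', h2'⟩, h3'⟩, -⟩ := hq'
      simp only at h h1 h2 h3 h1' h2' h3'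
      have hmem := hf2 l h3 i
      have hmem' := hf2 l' h3' i'
      have e1 := Multiset.sum_erase hmem
      have e2 := Multiset.sum_erase hmem'
      rw [h] at e1
      have e3 : f l i = f l' i' := by omega
      have e4 : l = l' := by
        rw [← Multiset.cons_erase hmem, ← Multiset.cons_erase hmem', h, e3]
      subst e4
      rw [hf1 l h3 e3])
  rw [Finset.card_product, Finset.card_univ, Fintype.card_fin,
    ← Set.ncard_eq_toFinset_card _ hfin, ← Set.ncard_eq_toFinset_card _ (Pset_finite n)] at hcard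
  rw [mul_comm]
  exact hcard

/-- multisets built from few blocks of equal parts -/
def DD (n : ℕ) : ℕ → Finset (Multiset ℕ)
  | 0 => {0}
  | k + 1 => Finset.image₂ (fun (am : ℕ × ℕ) l => Multiset.replicate am.2 am.1 + l)
      (Finset.range (n + 1) ×ˢ Finset.range (n + 1)) (DD n k)

theorem DD_card (n k : ℕ) : (DD n k).card ≤ ((n + 1) ^ 2) ^ k := by
  induction k with
  | zero => simp [DD]
  | succ k ih =>
    refine (Finset.card_image₂_le _ _ _).trans ?_
    rw [Finset.card_product, Finset.card_range, pow_succ]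
    calc (n + 1) * (n + 1) * (DD n k).card ≤ (n + 1) * (n + 1) * ((n + 1) ^ 2) ^ k :=
          Nat.mul_le_mul_left _ ih
      _ = ((n + 1) ^ 2) ^ k * (n + 1) ^ 2 := by ring

theorem mem_DD (n k : ℕ) : ∀ l : Multiset ℕ, (∀ x ∈ l, x ≤ n) → (∀ x, l.count x ≤ n) →
    l.toFinset.card ≤ k → l ∈ DD n k := by
  induction k with
  | zero =>
    intro l _ _ hc
    have : l.toFinset = ∅ := Finset.card_eq_zero.mp (Nat.le_zero.mp hc)
    rw [Multiset.toFinset_eq_empty] at this
    simp [DD, this]
  | succ k ih =>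
    intro l h1 h2 hc
    rw [DD, Finset.mem_image₂]
    by_cases hl : l = 0
    · subst hl
      refine ⟨(0, 0), ?_, 0, ih 0 (by simp) (by simp) (by simp), by simp⟩
      simp
    · obtain ⟨a, ha⟩ := Multiset.exists_mem_of_ne_zero hl
      refine ⟨(a, l.count a), ?_, l.filter (fun x => ¬ x = a), ih _ ?_ ?_ ?_, ?_⟩
      · rw [Finset.mem_product, Finset.mem_range, Finset.mem_range]
        exact ⟨Nat.lt_succ_of_le (h1 a ha), Nat.lt_succ_of_le (h2 a)⟩
      · intro x hx
        exact h1 x (Multiset.mem_filter.mp hx).1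
      · intro x
        exact (Multiset.count_le_of_le x (Multiset.filter_le _ _)).trans (h2 x)
      · have : (l.filter fun x => ¬ x = a).toFinset = l.toFinset.erase a := by
          ext x
          simp only [Multiset.mem_toFinset, Multiset.mem_filter, Finset.mem_erase]
          tauto
        rw [this, Finset.card_erase_of_mem (Multiset.mem_toFinset.mpr ha)]
        omega
      · have h3 := Multiset.filter_add_not (fun x => x = a) l
        have h4 : l.filter (fun x => x = a) = Multiset.replicate (l.count a) a :=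
          Multiset.filter_eq' l a
        rw [h4] at h3
        exact h3

theorem few_distinct (k n : ℕ) :
    {l | l ∈ pset n ∧ l.toFinset.card < k}.ncard ≤ ((n + 1) ^ 2) ^ k := by
  refine le_trans ?_ (DD_card n k)
  rw [← Set.ncard_coe_finset]
  apply Set.ncard_le_ncard _ (Finset.finite_toSet _)
  rintro l ⟨⟨h1, h2⟩, h3⟩
  rw [Finset.mem_coe]
  apply mem_DD n k l _ _ h3.le
  · intro x hx
    rw [← h2]
    exact Multiset.single_le_sum (fun _ _ => Nat.zero_le _) x hx
  · intro x
    exact (Multiset.count_le_card x l).trans ((card_le_sum h1).trans h2.le)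

/-- `P(n)` is superpolynomial -/
theorem P_ge (r n : ℕ) : (n / (r * r) + 1) ^ r ≤ P n := by
  classical
  let F : (Fin r → Fin (n / (r * r) + 1)) → Multiset ℕ := fun f =>
    ∑ i : Fin r, Multiset.replicate (f i : ℕ) ((i : ℕ) + 1)
  have hcount : ∀ f (i : Fin r), (F f).count ((i : ℕ) + 1) = f i := by
    intro f i
    simp only [F, Multiset.count_sum']
    rw [Finset.sum_eq_single i]
    · rw [Multiset.count_replicate_self]
    · intro j _ hj
      rw [Multiset.count_replicate, if_neg]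
      intro h
      apply hj
      apply Fin.ext
      omega
    · intro h; exact absurd (Finset.mem_univ i) h
  have hinj : Function.Injective F := by
    intro f g h
    funext i
    apply Fin.ext
    rw [← hcount f i, ← hcount g i, h]
  have hmem : ∀ f, F f ∈ Pset n := by
    intro f
    refine ⟨fun x hx => ?_, ?_⟩
    · obtain ⟨i, -, hi⟩ := Multiset.mem_sum.mp hx
      rw [Multiset.eq_of_mem_replicate hi]
      omega
    · simp only [F]
      rw [Multiset.sum_sum]
      have h1 : ∀ i : Fin r, (Multiset.replicate (f i : ℕ) ((i : ℕ) + 1)).sum ≤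
          n / (r * r) * r := by
        intro i
        rw [Multiset.sum_replicate, smul_eq_mul]
        exact Nat.mul_le_mul (Nat.lt_succ_iff.mp (f i).2) i.2
      calc ∑ i : Fin r, (Multiset.replicate (f i : ℕ) ((i : ℕ) + 1)).sum
          ≤ ∑ _i : Fin r, n / (r * r) * r := Finset.sum_le_sum fun i _ => h1 i
        _ = n / (r * r) * (r * r) := by
          rw [Finset.sum_const, Finset.card_univ, Fintype.card_fin, smul_eq_mul]; ring
        _ ≤ n := Nat.div_mul_le_self n (r * r)
  have h := Finset.card_le_card_of_injOn (s := (Finset.univ : Finset (Fin r → Fin (n / (r * r) + 1))))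
    (t := (Pset_finite n).toFinset) F (by
      intro f _
      rw [Finset.mem_coe, Set.Finite.mem_toFinset]
      exact hmem f) (fun f _ g _ h => hinj h)
  rw [Finset.card_univ, Fintype.card_fun, Fintype.card_fin, Fintype.card_fin,
    ← Set.ncard_eq_toFinset_card _ (Pset_finite n)] at h
  exact h

theorem P_pos (n : ℕ) : 0 < P n := by
  have := P_ge 0 n
  rw [pow_zero] at this
  exact this

theorem p_le (k n : ℕ) : k * p n ≤ k * ((n + 1) ^ 2) ^ k + P n := by
  have h1 : p n ≤ {l | l ∈ pset n ∧ l.toFinset.card < k}.ncard +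
      {l | l ∈ pset n ∧ k ≤ l.toFinset.card}.ncard := by
    have hsub : pset n ⊆ {l | l ∈ pset n ∧ l.toFinset.card < k} ∪
        {l | l ∈ pset n ∧ k ≤ l.toFinset.card} := by
      intro l hl
      rcases Nat.lt_or_ge l.toFinset.card k with h | h
      · exact Or.inl ⟨hl, h⟩
      · exact Or.inr ⟨hl, h⟩
    refine (Set.ncard_le_ncard hsub ?_).trans (Set.ncard_union_le _ _)
    exact ((pset_finite n).subset fun _ h => h.1).union ((pset_finite n).subset fun _ h => h.1)
  have h2 := few_distinct k n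
  have h3 := many_distinct k n
  calc k * p n ≤ k * (((n + 1) ^ 2) ^ k + {l | l ∈ pset n ∧ k ≤ l.toFinset.card}.ncard) :=
        Nat.mul_le_mul_left _ (h1.trans (Nat.add_le_add_right h2 _))
    _ = k * ((n + 1) ^ 2) ^ k + k * {l | l ∈ pset n ∧ k ≤ l.toFinset.card}.ncard := by ring
    _ ≤ _ := Nat.add_le_add_left h3 _

theorem ratio_le (k n : ℕ) (hk : 1 ≤ k) :
    (p n : ℝ) / P n ≤ 1 / k + ((2 * k + 1 : ℝ) ^ 2) ^ (2 * k + 1) / (n + 1) := by
  have hP : (0 : ℝ) < P n := by exact_mod_cast P_pos n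
  have hk' : (0 : ℝ) < k := by exact_mod_cast hk
  have hn : (0 : ℝ) < (n : ℝ) + 1 := by positivity
  have h1 : (k : ℝ) * p n ≤ k * (((n : ℝ) + 1) ^ 2) ^ k + P n := by exact_mod_cast p_le k n
  have h2 : (((n : ℝ) + 1) / (2 * k + 1) ^ 2) ^ (2 * k + 1) ≤ P n := by
    have h3 : ((n / ((2 * k + 1) * (2 * k + 1)) + 1 : ℕ) : ℝ) ^ (2 * k + 1) ≤ P n := by
      exact_mod_cast P_ge (2 * k + 1) n
    refine le_trans (pow_le_pow_left₀ (by positivity) ?_ _) h3
    rw [div_le_iff₀ (by positivity)]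
    have h4 : n < (n / ((2 * k + 1) * (2 * k + 1)) + 1) * ((2 * k + 1) * (2 * k + 1)) := by
      have := Nat.lt_div_mul_add (a := n) (b := (2 * k + 1) * (2 * k + 1)) (by positivity)
      rw [Nat.add_mul, one_mul]
      exact this
    have h5 : n + 1 ≤ (n / ((2 * k + 1) * (2 * k + 1)) + 1) * ((2 * k + 1) * (2 * k + 1)) := h4
    have h6 : ((n + 1 : ℕ) : ℝ) ≤ (((n / ((2 * k + 1) * (2 * k + 1)) + 1) *
      ((2 * k + 1) * (2 * k + 1)) : ℕ) : ℝ) := by exact_mod_cast h5
    push_cast at h6 ⊢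
    calc (n : ℝ) + 1 ≤ _ := h6
      _ = _ := by ring
  -- combine
  have h7 : (((n : ℝ) + 1) ^ 2) ^ k * ((n : ℝ) + 1) ≤ P n * ((2 * k + 1 : ℝ) ^ 2) ^ (2 * k + 1) := by
    rw [div_pow, div_le_iff₀ (by positivity)] at h2
    calc (((n : ℝ) + 1) ^ 2) ^ k * ((n : ℝ) + 1) = ((n : ℝ) + 1) ^ (2 * k + 1) := by
          rw [← pow_mul, ← pow_succ]
      _ ≤ _ := h2
  have h8 : (((n : ℝ) + 1) ^ 2) ^ k / P n ≤ ((2 * k + 1 : ℝ) ^ 2) ^ (2 * k + 1) / (n + 1) := by
    rw [div_le_div_iff₀ hP hn]
    linarith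
  calc (p n : ℝ) / P n ≤ ((((n : ℝ) + 1) ^ 2) ^ k + P n / k) / P n := by
        apply div_le_div_of_nonneg_right _ hP.le
        rw [← mul_le_mul_iff_of_pos_left hk']
        have : (k : ℝ) * ((((n : ℝ) + 1) ^ 2) ^ k + P n / k) =
          k * (((n : ℝ) + 1) ^ 2) ^ k + P n := by field_simp
        rw [this]
        exact h1
    _ = 1 / k + (((n : ℝ) + 1) ^ 2) ^ k / P n := by field_simp; ring
    _ ≤ _ := by linarith

theorem ratio_tendsto : Filter.Tendsto (fun n => (p n : ℝ) / P n) Filter.atTop (nhds 0) := by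
  rw [Metric.tendsto_atTop]
  intro ε hε
  obtain ⟨k, hk⟩ := exists_nat_gt (2 / ε)
  have hk0 : 0 < k := by
    rcases Nat.eq_zero_or_pos k with h | h
    · subst h
      have : 0 < 2 / ε := by positivity
      simp at hk
      linarith
    · exact h
  have hk' : (0 : ℝ) < k := by exact_mod_cast hk0
  obtain ⟨N, hN⟩ := exists_nat_gt (((2 * k + 1 : ℝ) ^ 2) ^ (2 * k + 1) * (2 / ε))
  refine ⟨N, fun n hn => ?_⟩
  have h1 := ratio_le k n hk0
  have h2 : (1 : ℝ) / k < ε / 2 := by
    rw [div_lt_iff₀ hk']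
    rw [div_lt_iff₀ hε] at hk
    linarith
  have h3 : ((2 * k + 1 : ℝ) ^ 2) ^ (2 * k + 1) / (n + 1) < ε / 2 := by
    have hn' : (N : ℝ) ≤ n := by exact_mod_cast hn
    rw [div_lt_iff₀ (by positivity)]
    have h4 : ((2 * k + 1 : ℝ) ^ 2) ^ (2 * k + 1) * (2 / ε) < (n : ℝ) + 1 := by linarith
    calc ((2 * k + 1 : ℝ) ^ 2) ^ (2 * k + 1)
        = ε / 2 * (((2 * k + 1 : ℝ) ^ 2) ^ (2 * k + 1) * (2 / ε)) := by field_simp
      _ < ε / 2 * (n + 1) := mul_lt_mul_of_pos_left h4 (by positivity)
  have h5 : (0 : ℝ) ≤ (p n : ℝ) / P n := by positivity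
  rw [Real.dist_eq, sub_zero, abs_of_nonneg h5]
  linarith

end Pool.Agent.X72.PartCount
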