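import Mathlib

/-! The nilpotent-Jacobian method for 4x4 sign patterns. -/

namespace Pool.Agent.X72.SAP4

open Polynomial Matrix Filter Topology

/-- coefficients of the characteristic polynomial of a 4x4 matrix -/
def cc {R : Type*} [CommRing R] (M : Fin 4 → Fin 4 → R) : Fin 4 → R := ![
  -(M 0 0 + M 1 1 + M 2 2 + M 3 3),
  (M 0 0 * M 1 1 - M 0 1 * M 1 0) + (M 0 0 * M 2 2 - M 0 2 * M 2 0) + (M 0 0 * M 3 3 - M 0 3 * M 3 0)
    + (M 1 1 * M 2 2 - M 1 2 * M 2 1) + (M 1 1 * M 3 3 - M 1 3 * M 3 1) + (M 2 2 * M 3 3 - M 2 3 * M 3 2),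
  -((M 0 0 * (M 1 1 * M 2 2 - M 1 2 * M 2 1) - M 0 1 * (M 1 0 * M 2 2 - M 1 2 * M 2 0)
      + M 0 2 * (M 1 0 * M 2 1 - M 1 1 * M 2 0))
    + (M 0 0 * (M 1 1 * M 3 3 - M 1 3 * M 3 1) - M 0 1 * (M 1 0 * M 3 3 - M 1 3 * M 3 0)
      + M 0 3 * (M 1 0 * M 3 1 - M 1 1 * M 3 0))
    + (M 0 0 * (M 2 2 * M 3 3 - M 2 3 * M 3 2) - M 0 2 * (M 2 0 * M 3 3 - M 2 3 * M 3 0)
      + M 0 3 * (M 2 0 * M 3 2 - M 2 2 * M 3 0))
    + (M 1 1 * (M 2 2 * M 3 3 - M 2 3 * M 3 2) - M 1 2 * (M 2 1 * M 3 3 - M 2 3 * M 3 1)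
      + M 1 3 * (M 2 1 * M 3 2 - M 2 2 * M 3 1))),
  M 0 0 * (M 1 1 * (M 2 2 * M 3 3 - M 2 3 * M 3 2) - M 1 2 * (M 2 1 * M 3 3 - M 2 3 * M 3 1)
      + M 1 3 * (M 2 1 * M 3 2 - M 2 2 * M 3 1))
  - M 0 1 * (M 1 0 * (M 2 2 * M 3 3 - M 2 3 * M 3 2) - M 1 2 * (M 2 0 * M 3 3 - M 2 3 * M 3 0)
      + M 1 3 * (M 2 0 * M 3 2 - M 2 2 * M 3 0))
  + M 0 2 * (M 1 0 * (M 2 1 * M 3 3 - M 2 3 * M 3 1) - M 1 1 * (M 2 0 * M 3 3 - M 2 3 * M 3 0)
      + M 1 3 * (M 2 0 * M 3 1 - M 2 1 * M 3 0))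
  - M 0 3 * (M 1 0 * (M 2 1 * M 3 2 - M 2 2 * M 3 1) - M 1 1 * (M 2 0 * M 3 2 - M 2 2 * M 3 0)
      + M 1 2 * (M 2 0 * M 3 1 - M 2 1 * M 3 0))]

/-- the determinant of a 4x4 array, explicit -/
def dd {R : Type*} [CommRing R] (M : Fin 4 → Fin 4 → R) : R := cc M 3

theorem charpoly_eq (M : Matrix (Fin 4) (Fin 4) ℝ) :
    M.charpoly = X ^ 4 + C (cc M 0) * X ^ 3 + C (cc M 1) * X ^ 2 + C (cc M 2) * X + C (cc M 3) := by
  rw [Matrix.charpoly, Matrix.det_succ_row_zero]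
  simp [Fin.sum_univ_succ, Matrix.det_fin_three, Matrix.charmatrix_apply, Fin.succAbove, cc,
    Matrix.diagonal_apply]
  ring

theorem det_eq (M : Matrix (Fin 4) (Fin 4) ℝ) : M.det = dd M := by
  rw [Matrix.det_succ_row_zero]
  simp [Fin.sum_univ_succ, Matrix.det_fin_three, Fin.succAbove, cc, dd]
  ring

/-- the unit matrices at the varied positions (1,0),(1,1),(3,2),(3,3) -/
def U {R : Type*} [CommRing R] (u : Fin 4 → R) : Fin 4 → Fin 4 → R :=
  ![![0, 0, 0, 0], ![u 0, u 1, 0, 0], ![0, 0, 0, 0], ![0, 0, u 2, u 3]]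

def jac {R : Type*} [CommRing R] (M : Fin 4 → Fin 4 → R) : Fin 4 → Fin 4 → R :=
  fun m k => cc (fun i j => M i j + U (fun l => if l = m then 1 else 0) i j) k - cc M k

lemma cc_scale (t : ℝ) (M : Fin 4 → Fin 4 → ℝ) (k : Fin 4) :
    cc (fun i j => t * M i j) k = t ^ (k.val + 1) * cc M k := by
  fin_cases k <;> simp [cc] <;> ring

/-- the family of matrices -/
def fam (M P : Fin 4 → Fin 4 → ℝ) (x : ℝ × (Fin 4 → ℝ)) : Fin 4 → Fin 4 → ℝ :=
  fun i j => M i j + x.1 * P i j + U x.2 i j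

lemma fam_contDiff (M P : Fin 4 → Fin 4 → ℝ) (i j : Fin 4) :
    ContDiff ℝ 1 (fun x => fam M P x i j) := by
  have hU : ContDiff ℝ 1 (fun x : ℝ × (Fin 4 → ℝ) => U x.2 i j) := by
    fin_cases i <;> fin_cases j <;> simp [U] <;> fun_prop
  unfold fam
  fun_prop

lemma cc_contDiff {E : Type*} [NormedAddCommGroup E] [NormedSpace ℝ E] (f : E → Fin 4 → Fin 4 → ℝ)
    (hf : ∀ i j, ContDiff ℝ 1 (fun x => f x i j)) (k : Fin 4) :
    ContDiff ℝ 1 (fun x => cc (f x) k) := by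
  have h00 := hf 0 0
  have h01 := hf 0 1
  have h02 := hf 0 2
  have h03 := hf 0 3
  have h10 := hf 1 0
  have h11 := hf 1 1
  have h12 := hf 1 2
  have h13 := hf 1 3
  have h20 := hf 2 0
  have h21 := hf 2 1
  have h22 := hf 2 2
  have h23 := hf 2 3
  have h30 := hf 3 0
  have h31 := hf 3 1
  have h32 := hf 3 2
  have h33 := hf 3 3
  fin_cases k <;> simp only [cc, Fin.zero_eta, Fin.mk_one, Fin.reduceFinMk, Matrix.cons_val_zero,
    Matrix.cons_val_one, Matrix.cons_val] <;> fun_prop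

def FF (M P : Fin 4 → Fin 4 → ℝ) (x : ℝ × (Fin 4 → ℝ)) : ℝ × (Fin 4 → ℝ) :=
  (x.1, cc (fam M P x))

lemma FF_contDiff (M P : Fin 4 → Fin 4 → ℝ) : ContDiff ℝ 1 (FF M P) := by
  unfold FF
  refine ContDiff.prodMk contDiff_fst ?_
  rw [contDiff_pi]
  intro k
  exact cc_contDiff _ (fam_contDiff M P) k

/-- affine dependence on a single varied entry -/
lemma cc_line (M : Fin 4 → Fin 4 → ℝ) (m k : Fin 4) (t : ℝ) :
    cc (fun i j => M i j + U (fun l => if l = m then t else 0) i j) k = cc M k + t * jac M m k := by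
  fin_cases m <;> fin_cases k <;> simp [cc, jac, U] <;> ring

lemma FF_line (M P : Fin 4 → Fin 4 → ℝ) (m : Fin 4) (t : ℝ) :
    FF M P (t • ((0 : ℝ), (fun l => if l = m then (1 : ℝ) else 0))) = (0, cc M + t • jac M m) := by
  unfold FF fam
  ext k
  · simp
  · simp only [Prod.smul_mk, Pi.add_apply, Pi.smul_apply, smul_eq_mul]
    rw [← cc_line]
    congr 1
    funext i j
    have h1 : (fun l => t * (if l = m then (1 : ℝ) else 0)) = fun l => if l = m then t else 0 := by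
      funext l; simp
    have h2 : U (t • fun l => if l = m then (1 : ℝ) else 0) i j = U (fun l => if l = m then t else 0) i j := by
      rw [← h1]; rfl
    rw [h2]
    ring

lemma fderiv_line (M P : Fin 4 → Fin 4 → ℝ) (m : Fin 4) :
    fderiv ℝ (FF M P) 0 ((0 : ℝ), (fun l => if l = m then (1 : ℝ) else 0)) = (0, jac M m) := by
  set v : ℝ × (Fin 4 → ℝ) := ((0 : ℝ), (fun l => if l = m then (1 : ℝ) else 0)) with hv
  have h1 : HasFDerivAt (FF M P) (fderiv ℝ (FF M P) 0) ((0 : ℝ) • v) := by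
    rw [zero_smul]
    exact ((FF_contDiff M P).differentiable (by norm_num) 0).hasFDerivAt
  have h2 : HasDerivAt (fun t : ℝ => t • v) v 0 := by
    simpa using (hasDerivAt_id (0 : ℝ)).smul_const v
  have h3 := h1.comp_hasDerivAt (0 : ℝ) h2
  have h4 : (FF M P) ∘ (fun t : ℝ => t • v) = fun t => ((0 : ℝ), cc M + t • jac M m) := by
    funext t
    exact FF_line M P m t
  rw [h4] at h3
  have h5 : HasDerivAt (fun t : ℝ => ((0 : ℝ), cc M + t • jac M m)) ((0 : ℝ), jac M m) 0 := by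
    refine HasDerivAt.prodMk (hasDerivAt_const _ _) ?_
    have := ((hasDerivAt_id (0 : ℝ)).smul_const (jac M m)).const_add (cc M)
    simpa using this
  exact h3.unique h5

lemma fderiv_fst (M P : Fin 4 → Fin 4 → ℝ) (v : ℝ × (Fin 4 → ℝ)) :
    (fderiv ℝ (FF M P) 0 v).1 = v.1 := by
  have h1 : HasFDerivAt (FF M P) (fderiv ℝ (FF M P) 0) 0 :=
    ((FF_contDiff M P).differentiable (by norm_num) 0).hasFDerivAt
  have h2 : HasFDerivAt (fun x => (FF M P x).1) ((ContinuousLinearMap.fst ℝ ℝ (Fin 4 → ℝ)).comp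
    (fderiv ℝ (FF M P) 0)) 0 := h1.fst
  have h3 : HasFDerivAt (fun x : ℝ × (Fin 4 → ℝ) => x.1) (ContinuousLinearMap.fst ℝ ℝ (Fin 4 → ℝ)) 0 :=
    hasFDerivAt_fst
  have := h2.unique h3
  have h4 := congrArg (fun L : (ℝ × (Fin 4 → ℝ)) →L[ℝ] ℝ => L v) this
  simpa using h4

lemma fderiv_surj (M P : Fin 4 → Fin 4 → ℝ) (hJ : dd (jac M) ≠ 0) :
    LinearMap.range (fderiv ℝ (FF M P) 0 : (ℝ × (Fin 4 → ℝ)) →ₗ[ℝ] (ℝ × (Fin 4 → ℝ))) = ⊤ := by
  set L := fderiv ℝ (FF M P) 0 with hL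
  rw [LinearMap.range_eq_top]
  have hdet : IsUnit (Matrix.of (jac M)).det := by
    rw [det_eq]
    exact isUnit_iff_ne_zero.2 hJ
  -- all (0, b) are hit
  have h0 : ∀ b : Fin 4 → ℝ, ∃ u : Fin 4 → ℝ, L (0, u) = (0, b) := by
    intro b
    refine ⟨b ᵥ* (Matrix.of (jac M))⁻¹, ?_⟩
    set u := b ᵥ* (Matrix.of (jac M))⁻¹ with hu
    have h1 : ((0 : ℝ), u) = ∑ m : Fin 4, u m • ((0 : ℝ), (fun l => if l = m then (1 : ℝ) else 0)) := by
      ext l
      · simp [Prod.fst_sum]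
      · simp [Prod.snd_sum, Finset.sum_apply]
    rw [h1, map_sum]
    simp_rw [map_smul, hL, fderiv_line]
    ext l
    · simp [Prod.fst_sum]
    · simp only [Prod.smul_mk, Prod.snd_sum, Finset.sum_apply, Pi.smul_apply, smul_eq_mul]
      have h2 : u ᵥ* (Matrix.of (jac M)) = b := by
        rw [hu, Matrix.vecMul_vecMul, Matrix.nonsing_inv_mul _ hdet, Matrix.vecMul_one]
      have h3 := congrFun h2 l
      rw [← h3]
      simp [Matrix.vecMul, dotProduct]
  rintro ⟨a, b⟩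
  obtain ⟨u, hu⟩ := h0 (b - a • (L (1, 0)).2)
  refine ⟨(a, u), ?_⟩
  have h1 : ((a, u) : ℝ × (Fin 4 → ℝ)) = a • (1, 0) + (0, u) := by ext <;> simp
  show L (a, u) = (a, b)
  rw [h1, map_add, map_smul, hu]
  have h2 : (L (1, 0)).1 = 1 := fderiv_fst M P (1, 0)
  ext l
  · simp [h2]
  · simp

/-- local surjectivity -/
theorem exists_near (M P : Fin 4 → Fin 4 → ℝ) (h0 : ∀ k, cc M k = 0) (hJ : dd (jac M) ≠ 0)
    (V : Set (ℝ × (Fin 4 → ℝ))) (hV : V ∈ 𝓝 (0 : ℝ × (Fin 4 → ℝ))) (a : Fin 4 → ℝ) :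
    ∃ x ∈ V, 0 < x.1 ∧ ∀ k, cc (fam M P x) k = x.1 ^ (k.val + 1) * a k := by
  have hs : HasStrictFDerivAt (FF M P) (fderiv ℝ (FF M P) 0) 0 :=
    (FF_contDiff M P).contDiffAt.hasStrictFDerivAt (by norm_num)
  have hmap := hs.map_nhds_eq_of_surj (fderiv_surj M P hJ)
  have hF0 : FF M P 0 = 0 := by
    unfold FF fam
    ext k
    · simp
    · have : (fun i j => M i j + (0 : ℝ × (Fin 4 → ℝ)).1 * P i j + U (0 : ℝ × (Fin 4 → ℝ)).2 i j) = M := by
        funext i j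
        fin_cases i <;> fin_cases j <;> simp [U]
      show cc (fun i j => M i j + (0 : ℝ × (Fin 4 → ℝ)).1 * P i j + U (0 : ℝ × (Fin 4 → ℝ)).2 i j) k = 0
      rw [this, h0]
  rw [hF0] at hmap
  have himg : (FF M P) '' V ∈ 𝓝 (0 : ℝ × (Fin 4 → ℝ)) := by
    rw [← hmap]
    exact Filter.image_mem_map hV
  have hγ : Tendsto (fun s : ℝ => ((s, fun k : Fin 4 => s ^ (k.val + 1) * a k) : ℝ × (Fin 4 → ℝ)))
      (𝓝[>] 0) (𝓝 0) := by
    have hc : Continuous (fun s : ℝ => ((s, fun k : Fin 4 => s ^ (k.val + 1) * a k) : ℝ × (Fin 4 → ℝ))) := by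
      fun_prop
    have := hc.tendsto 0
    have h00 : ((0 : ℝ), fun k : Fin 4 => (0 : ℝ) ^ (k.val + 1) * a k) = (0 : ℝ × (Fin 4 → ℝ)) := by
      ext k <;> simp
    rw [h00] at this
    exact this.mono_left nhdsWithin_le_nhds
  have hev := hγ.eventually himg
  have hpos : ∀ᶠ s : ℝ in 𝓝[>] 0, 0 < s := eventually_mem_nhdsWithin
  obtain ⟨s, hs1, hs2⟩ := (hev.and hpos).exists
  obtain ⟨x, hxV, hx⟩ := hs1
  have hx1 : x.1 = s := congrArg Prod.fst hx
  have hx2 : cc (fam M P x) = fun k : Fin 4 => s ^ (k.val + 1) * a k := congrArg Prod.snd hx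
  refine ⟨x, hxV, by rw [hx1]; exact hs2, fun k => ?_⟩
  rw [hx2, hx1]

/-- **The nilpotent-Jacobian method**: every sign pattern whose signs agree with those of `M`
where `M` is nonzero is spectrally arbitrary. -/
theorem nj (M : Fin 4 → Fin 4 → ℝ) (h0 : ∀ k, cc M k = 0) (hJ : dd (jac M) ≠ 0)
    (h10 : M 1 0 ≠ 0) (h11 : M 1 1 ≠ 0) (h32 : M 3 2 ≠ 0) (h33 : M 3 3 ≠ 0)
    (B : Matrix (Fin 4) (Fin 4) SignType) (hB : ∀ i j, M i j ≠ 0 → SignType.sign (M i j) = B i j)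
    (a : Fin 4 → ℝ) :
    ∃ A : Matrix (Fin 4) (Fin 4) ℝ, (∀ i j, SignType.sign (A i j) = B i j) ∧ ∀ k, cc A k = a k := by
  classical
  set P : Fin 4 → Fin 4 → ℝ := fun i j => if M i j = 0 then ((B i j : SignType) : ℝ) else 0 with hP
  set V : Set (ℝ × (Fin 4 → ℝ)) := {x | ∀ i j, M i j ≠ 0 → 0 < M i j * fam M P x i j} with hV
  have hVn : V ∈ 𝓝 (0 : ℝ × (Fin 4 → ℝ)) := by
    have : ∀ i j, ∀ᶠ x in 𝓝 (0 : ℝ × (Fin 4 → ℝ)), M i j ≠ 0 → 0 < M i j * fam M P x i j := by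
      intro i j
      by_cases hM : M i j = 0
      · exact Filter.Eventually.of_forall fun x h => absurd hM h
      · have hc : Continuous (fun x => M i j * fam M P x i j) :=
          continuous_const.mul (fam_contDiff M P i j).continuous
        have hx : 0 < M i j * fam M P 0 i j := by
          have : fam M P 0 i j = M i j := by
            unfold fam
            fin_cases i <;> fin_cases j <;> simp [U]
          rw [this]
          exact mul_self_pos.2 hM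
        have := hc.continuousAt.eventually (lt_mem_nhds hx)
        filter_upwards [this] with x hx _
        exact hx
    have h2 : ∀ᶠ x in 𝓝 (0 : ℝ × (Fin 4 → ℝ)), ∀ i j, M i j ≠ 0 → 0 < M i j * fam M P x i j := by
      rw [Filter.eventually_all]
      intro i
      rw [Filter.eventually_all]
      exact this i
    exact h2
  obtain ⟨x, hxV, hx0, hx⟩ := exists_near M P h0 hJ V hVn a
  refine ⟨fun i j => x.1⁻¹ * fam M P x i j, ?_, ?_⟩
  · intro i j
    have hs : SignType.sign (x.1⁻¹) = 1 := sign_pos (by positivity)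
    rw [sign_mul, hs, one_mul]
    by_cases hM : M i j = 0
    · have hfam : fam M P x i j = x.1 * ((B i j : SignType) : ℝ) := by
        unfold fam
        have hU : U x.2 i j = 0 := by
          fin_cases i <;> fin_cases j <;> simp [U] <;> simp_all
        rw [hU, hM, hP]
        simp [hM]
      rw [hfam, sign_mul, sign_pos hx0, one_mul]
      generalize B i j = b
      cases b <;> simp
    · rw [← hB i j hM]
      have := hxV i j hM
      rcases lt_or_gt_of_ne hM with h | h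
      · have h2 : fam M P x i j < 0 := by
          by_contra hcon
          push Not at hcon
          have := mul_nonpos_of_nonpos_of_nonneg h.le hcon
          linarith
        rw [sign_neg h, sign_neg h2]
      · have h2 : 0 < fam M P x i j := by
          by_contra hcon
          push Not at hcon
          have := mul_nonpos_of_nonneg_of_nonpos h.le hcon
          linarith
        rw [sign_pos h, sign_pos h2]
  · intro k
    show cc (fun i j => x.1⁻¹ * fam M P x i j) k = a k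
    rw [cc_scale, hx k]
    have : x.1 ≠ 0 := hx0.ne'
    rw [← mul_assoc, ← mul_pow, inv_mul_cancel₀ this, one_pow, one_mul]

end Pool.Agent.X72.SAP4
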