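import Mathlib
import Pool.Agent.X72.SAP4

/-! 64 nilpotent integer matrices for the minimal superpatterns of T2 ⊕ T2. -/

namespace Pool.Agent.X72.SAP4

def tab0 : List (List ℤ) := [
  [2, 2, -2, 0, -9, -6, 0, 0, -1, 0, 10, 2, 0, 0, -36, -6],
  [1, 1, -1, 0, -4, -2, 0, 0, 1, 0, 3, 1, 0, 0, -4, -2],
  [1, 1, 1, 0, -4, -2, 0, 0, -1, 0, 3, 1, 0, 0, -4, -2],
  [2, 2, 2, 0, -9, -6, 0, 0, 1, 0, 10, 2, 0, 0, -36, -6]]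

def tab1 : List (List ℤ) := [
  [1, 22, -1, 0, -1, -4, 0, 0, 0, -81, 5, 1, 0, 0, -1, -2],
  [1, 7, -1, 0, -1, -4, 0, 0, 0, 9, 5, 16, 0, 0, -1, -2],
  [1, 7, 1, 0, -1, -4, 0, 0, 0, -9, 5, 16, 0, 0, -1, -2],
  [1, 22, 1, 0, -1, -4, 0, 0, 0, 81, 5, 1, 0, 0, -1, -2]]

def tab2 : List (List ℤ) := [
  [5, 1, -1, 0, -16, -2, 0, 0, 0, 0, 1, 1, -9, 0, -7, -4],
  [5, 1, -1, 0, -1, -2, 0, 0, 0, 0, 1, 1, 81, 0, -22, -4],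
  [5, 1, 1, 0, -1, -2, 0, 0, 0, 0, 1, 1, -81, 0, -22, -4],
  [5, 1, 1, 0, -16, -2, 0, 0, 0, 0, 1, 1, 9, 0, -7, -4]]

def tab3 : List (List ℤ) := [
  [1, 2, -1, 0, -1, -1, 0, 0, 0, 0, 2, 1, 0, -1, -3, -2],
  [1, 5, -1, 0, -1, -3, 0, 0, 0, 0, 3, 1, 0, 4, -5, -1],
  [1, 5, 1, 0, -1, -3, 0, 0, 0, 0, 3, 1, 0, -4, -5, -1],
  [1, 2, 1, 0, -1, -1, 0, 0, 0, 0, 2, 1, 0, 1, -3, -2]]

def tab4 : List (List ℤ) := [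
  [5, 1, 0, -1, -1, -2, 0, 0, -81, 0, 1, 22, 0, 0, -1, -4],
  [5, 16, 0, -1, -1, -2, 0, 0, 9, 0, 1, 7, 0, 0, -1, -4],
  [5, 16, 0, 1, -1, -2, 0, 0, -9, 0, 1, 7, 0, 0, -1, -4],
  [5, 1, 0, 1, -1, -2, 0, 0, 81, 0, 1, 22, 0, 0, -1, -4]]

def tab5 : List (List ℤ) := [
  [1, 5, 0, -1, -1, -3, 0, 0, 0, -4, 3, 5, 0, 0, -1, -1],
  [1, 2, 0, -1, -1, -1, 0, 0, 0, 1, 2, 3, 0, 0, -1, -2],
  [1, 2, 0, 1, -1, -1, 0, 0, 0, -1, 2, 3, 0, 0, -1, -2],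
  [1, 5, 0, 1, -1, -3, 0, 0, 0, 4, 3, 5, 0, 0, -1, -1]]

def tab6 : List (List ℤ) := [
  [2, 2, 0, -2, -4, -2, 0, 0, 0, 0, 2, 2, -1, 0, -1, -2],
  [1, 1, 0, -1, -8, -4, 0, 0, 0, 0, 4, 1, 1, 0, -8, -1],
  [1, 1, 0, 1, -8, -4, 0, 0, 0, 0, 4, 1, -1, 0, -8, -1],
  [2, 2, 0, 2, -4, -2, 0, 0, 0, 0, 2, 2, 1, 0, -1, -2]]

def tab7 : List (List ℤ) := [
  [4, 7, 0, -1, -1, -1, 0, 0, 0, 0, 2, 16, 0, -9, -1, -5],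
  [4, 22, 0, -1, -1, -1, 0, 0, 0, 0, 2, 1, 0, 81, -1, -5],
  [4, 22, 0, 1, -1, -1, 0, 0, 0, 0, 2, 1, 0, -81, -1, -5],
  [4, 7, 0, 1, -1, -1, 0, 0, 0, 0, 2, 16, 0, 9, -1, -5]]

def tab8 : List (List ℤ) := [
  [1, 1, 0, 0, -7, -4, -1, 0, -9, 0, 5, 1, 0, 0, -16, -2],
  [1, 1, 0, 0, -22, -4, -1, 0, 81, 0, 5, 1, 0, 0, -1, -2],
  [1, 1, 0, 0, -22, -4, 1, 0, -81, 0, 5, 1, 0, 0, -1, -2],
  [1, 1, 0, 0, -7, -4, 1, 0, 9, 0, 5, 1, 0, 0, -16, -2]]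

def tab9 : List (List ℤ) := [
  [2, 2, 0, 0, -4, -2, -2, 0, 0, -1, 2, 2, 0, 0, -1, -2],
  [4, 1, 0, 0, -8, -1, -1, 0, 0, 1, 1, 1, 0, 0, -8, -4],
  [4, 1, 0, 0, -8, -1, 1, 0, 0, -1, 1, 1, 0, 0, -8, -4],
  [2, 2, 0, 0, -4, -2, 2, 0, 0, 1, 2, 2, 0, 0, -1, -2]]

def tab10 : List (List ℤ) := [
  [1, 1, 0, 0, -5, -3, -1, 0, 0, 0, 3, 1, -4, 0, -5, -1],
  [1, 1, 0, 0, -2, -1, -1, 0, 0, 0, 2, 1, 1, 0, -3, -2],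
  [1, 1, 0, 0, -2, -1, 1, 0, 0, 0, 2, 1, -1, 0, -3, -2],
  [1, 1, 0, 0, -5, -3, 1, 0, 0, 0, 3, 1, 4, 0, -5, -1]]

def tab11 : List (List ℤ) := [
  [2, 1, 0, 0, -1, -5, -1, 0, 0, 0, 4, 1, 0, -81, -22, -1],
  [2, 1, 0, 0, -16, -5, -1, 0, 0, 0, 4, 1, 0, 9, -7, -1],
  [2, 1, 0, 0, -16, -5, 1, 0, 0, 0, 4, 1, 0, -9, -7, -1],
  [2, 1, 0, 0, -1, -5, 1, 0, 0, 0, 4, 1, 0, 81, -22, -1]]

def tab12 : List (List ℤ) := [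
  [1, 1, 0, 0, -2, -1, 0, -1, -1, 0, 2, 3, 0, 0, -1, -2],
  [1, 1, 0, 0, -5, -3, 0, -1, 4, 0, 3, 5, 0, 0, -1, -1],
  [1, 1, 0, 0, -5, -3, 0, 1, -4, 0, 3, 5, 0, 0, -1, -1],
  [1, 1, 0, 0, -2, -1, 0, 1, 1, 0, 2, 3, 0, 0, -1, -2]]

def tab13 : List (List ℤ) := [
  [2, 16, 0, 0, -1, -5, 0, -1, 0, -9, 4, 7, 0, 0, -1, -1],
  [2, 1, 0, 0, -1, -5, 0, -1, 0, 81, 4, 22, 0, 0, -1, -1],
  [2, 1, 0, 0, -1, -5, 0, 1, 0, -81, 4, 22, 0, 0, -1, -1],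
  [2, 16, 0, 0, -1, -5, 0, 1, 0, 9, 4, 7, 0, 0, -1, -1]]

def tab14 : List (List ℤ) := [
  [4, 1, 0, 0, -22, -1, 0, -1, 0, 0, 2, 1, -81, 0, -1, -5],
  [4, 1, 0, 0, -7, -1, 0, -1, 0, 0, 2, 1, 9, 0, -16, -5],
  [4, 1, 0, 0, -7, -1, 0, 1, 0, 0, 2, 1, -9, 0, -16, -5],
  [4, 1, 0, 0, -22, -1, 0, 1, 0, 0, 2, 1, 81, 0, -1, -5]]

def tab15 : List (List ℤ) := [
  [6, 2, 0, 0, -9, -2, 0, -2, 0, 0, 6, 2, 0, -1, -36, -10],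
  [2, 1, 0, 0, -4, -1, 0, -1, 0, 0, 2, 1, 0, 1, -4, -3],
  [2, 1, 0, 0, -4, -1, 0, 1, 0, 0, 2, 1, 0, -1, -4, -3],
  [6, 2, 0, 0, -9, -2, 0, 2, 0, 0, 6, 2, 0, 1, -36, -10]]

def tab : List (List ℤ) := tab0 ++ tab1 ++ tab2 ++ tab3 ++ tab4 ++ tab5 ++ tab6 ++ tab7 ++ tab8 ++ tab9 ++ tab10 ++ tab11 ++ tab12 ++ tab13 ++ tab14 ++ tab15

def NM (i j k l : Fin 2) (sb sc : Bool) : Fin 4 → Fin 4 → ℤ := fun p q =>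
  (tab.getD (((((i.val * 2 + j.val) * 2 + k.val) * 2 + l.val) * 2 + sb.toNat) * 2 + sc.toNat) []).getD (4 * p.val + q.val) 0

/-- the pattern T2 ⊕ T2 as an integer array -/
def TT : Fin 4 → Fin 4 → ℤ := ![![1, 1, 0, 0], ![-1, -1, 0, 0], ![0, 0, 1, 1], ![0, 0, -1, -1]]

def sg (b : Bool) : ℤ := if b then 1 else -1

def Good (i j k l : Fin 2) (sb sc : Bool) : Prop :=
  (∀ m, cc (NM i j k l sb sc) m = 0) ∧ dd (jac (NM i j k l sb sc)) ≠ 0 ∧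
  NM i j k l sb sc 1 0 ≠ 0 ∧ NM i j k l sb sc 1 1 ≠ 0 ∧ NM i j k l sb sc 3 2 ≠ 0 ∧
  NM i j k l sb sc 3 3 ≠ 0 ∧
  ∀ p q, NM i j k l sb sc p q ≠ 0 →
    (TT p q ≠ 0 ∧ 0 < TT p q * NM i j k l sb sc p q) ∨
    (p = Fin.castAdd 2 i ∧ q = Fin.natAdd 2 j ∧ 0 < sg sb * NM i j k l sb sc p q) ∨
    (p = Fin.natAdd 2 k ∧ q = Fin.castAdd 2 l ∧ 0 < sg sc * NM i j k l sb sc p q)

instance (i j k l : Fin 2) (sb sc : Bool) : Decidable (Good i j k l sb sc) := by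
  unfold Good; infer_instance

set_option maxRecDepth 100000 in
theorem allGood : ∀ (i j k l : Fin 2) (sb sc : Bool), Good i j k l sb sc := by
  decide +kernel

lemma cc_cast (M : Fin 4 → Fin 4 → ℤ) (k : Fin 4) :
    cc (fun i j => (M i j : ℝ)) k = ((cc M k : ℤ) : ℝ) := by
  fin_cases k <;> simp [cc]

lemma jac_cast (M : Fin 4 → Fin 4 → ℤ) :
    jac (fun i j => (M i j : ℝ)) = fun m k => ((jac M m k : ℤ) : ℝ) := by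
  funext m k
  unfold jac
  rw [cc_cast]
  have : (fun i j => (M i j : ℝ) + U (fun l => if l = m then (1 : ℝ) else 0) i j) =
      fun i j => ((M i j + U (fun l => if l = m then (1 : ℤ) else 0) i j : ℤ) : ℝ) := by
    funext i j
    push_cast
    congr 1
    fin_cases i <;> fin_cases j <;> simp [U]
  rw [this, cc_cast]
  push_cast
  rfl

lemma dd_cast (M : Fin 4 → Fin 4 → ℤ) : dd (jac (fun i j => (M i j : ℝ))) = ((dd (jac M) : ℤ) : ℝ) := by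
  rw [jac_cast]
  exact cc_cast _ 3

end Pool.Agent.X72.SAP4
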