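import Mathlib

/-! Veto interval graphs: definitions and counting lemmas. -/

namespace Pool.Agent.X72.Veto

variable {V : Type*}

/-- Veto interval graphs: distinct vertices have distinct veto intervals
`l a < v a < r a`, and `a b` is an edge iff `v a < l b < r a < v b` or `v b < l a < r b < v a`. -/
def IsVI (G : SimpleGraph V) : Prop :=
  ∃ l v r : V → ℝ, (∀ a, l a < v a ∧ v a < r a) ∧
    Function.Injective (fun a => (l a, v a, r a)) ∧
    ∀ a b, a ≠ b → (G.Adj a b ↔
      (v a < l b ∧ l b < r a ∧ r a < v b) ∨ (v b < l a ∧ l a < r b ∧ r b < v a))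

/-- Midpoint veto interval graphs: veto interval graphs with a representation in which every veto
mark is the midpoint of its interval. -/
def IsMVI (G : SimpleGraph V) : Prop :=
  ∃ l v r : V → ℝ, (∀ a, l a < v a ∧ v a < r a) ∧ (∀ a, v a = (l a + r a) / 2) ∧
    Function.Injective (fun a => (l a, v a, r a)) ∧
    ∀ a b, a ≠ b → (G.Adj a b ↔
      (v a < l b ∧ l b < r a ∧ r a < v b) ∨ (v b < l a ∧ l a < r b ∧ r b < v a))

/-- Double veto interval graphs: distinct vertices have distinct double veto intervals
`l a < v a < w a < r a`, and `a b` is an edge iff `w a < l b < r a < v b` or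
`w b < l a < r b < v a`. -/
def IsDoubleVeto (G : SimpleGraph V) : Prop :=
  ∃ l v w r : V → ℝ, (∀ a, l a < v a ∧ v a < w a ∧ w a < r a) ∧
    Function.Injective (fun a => (l a, v a, w a, r a)) ∧
    ∀ a b, a ≠ b → (G.Adj a b ↔
      (w a < l b ∧ l b < r a ∧ r a < v b) ∨ (w b < l a ∧ l a < r b ∧ r b < v a))

/-! ### Positions -/

section

variable {β : Type*} [Fintype β]

open Classical in
/-- the position of `x` with respect to thresholds `g` (strict) and `h` (weak) -/
noncomputable def pos (g h : β → ℝ) (x : ℝ) : ℕ :=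
  (Finset.univ.filter fun b => g b < x).card + (Finset.univ.filter fun b => h b ≤ x).card

theorem pos_mono (g h : β → ℝ) {x y : ℝ} (hxy : x ≤ y) : pos g h x ≤ pos g h y := by
  classical
  apply Nat.add_le_add
  · apply Finset.card_le_card
    intro b hb
    simp only [Finset.mem_filter, Finset.mem_univ, true_and] at hb ⊢
    exact hb.trans_le hxy
  · apply Finset.card_le_card
    intro b hb
    simp only [Finset.mem_filter, Finset.mem_univ, true_and] at hb ⊢
    exact hb.trans hxy

theorem lt_of_pos_lt (g h : β → ℝ) {x y : ℝ} (hxy : pos g h x < pos g h y) : x < y := by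
  by_contra hge
  push Not at hge
  exact absurd (pos_mono g h hge) (not_le.mpr hxy)

theorem pos_le (g h : β → ℝ) (x : ℝ) : pos g h x ≤ 2 * Fintype.card β := by
  classical
  have h1 : (Finset.univ.filter fun b => g b < x).card ≤ Fintype.card β := Finset.card_le_univ _
  have h2 : (Finset.univ.filter fun b => h b ≤ x).card ≤ Fintype.card β := Finset.card_le_univ _
  unfold pos
  omega

theorem pos_eq_aux (g h : β → ℝ) {x y : ℝ} (hle : x ≤ y) (hxy : pos g h x = pos g h y) (b : β) :
    (g b < x ↔ g b < y) ∧ (h b ≤ x ↔ h b ≤ y) := by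
  classical
  have s1 : (Finset.univ.filter fun b => g b < x) ⊆ (Finset.univ.filter fun b => g b < y) := by
    intro b hb
    simp only [Finset.mem_filter, Finset.mem_univ, true_and] at hb ⊢
    exact hb.trans_le hle
  have s2 : (Finset.univ.filter fun b => h b ≤ x) ⊆ (Finset.univ.filter fun b => h b ≤ y) := by
    intro b hb
    simp only [Finset.mem_filter, Finset.mem_univ, true_and] at hb ⊢
    exact hb.trans hle
  have c1 := Finset.card_le_card s1
  have c2 := Finset.card_le_card s2
  have hxy' : (Finset.univ.filter fun b => g b < x).card + (Finset.univ.filter fun b => h b ≤ x).card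
    = (Finset.univ.filter fun b => g b < y).card + (Finset.univ.filter fun b => h b ≤ y).card := by
    unfold pos at hxy
    convert hxy
  have e1 := Finset.eq_of_subset_of_card_le s1 (by omega)
  have e2 := Finset.eq_of_subset_of_card_le s2 (by omega)
  constructor
  · have : b ∈ (Finset.univ.filter fun b => g b < x) ↔ b ∈ (Finset.univ.filter fun b => g b < y) := by
      rw [e1]
    simpa only [Finset.mem_filter, Finset.mem_univ, true_and] using this
  · have : b ∈ (Finset.univ.filter fun b => h b ≤ x) ↔ b ∈ (Finset.univ.filter fun b => h b ≤ y) := by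
      rw [e2]
    simpa only [Finset.mem_filter, Finset.mem_univ, true_and] using this

theorem pos_eq (g h : β → ℝ) {x y : ℝ} (hxy : pos g h x = pos g h y) (b : β) :
    (g b < x ↔ g b < y) ∧ (h b ≤ x ↔ h b ≤ y) := by
  rcases le_total x y with hle | hle
  · exact pos_eq_aux g h hle hxy b
  · have := pos_eq_aux g h hle hxy.symm b
    exact ⟨this.1.symm, this.2.symm⟩

end

/-! ### Counting -/

/-- neighbourhoods in a reference set of a VI graph are determined by three positions -/
theorem adj_of_pos {α β : Type*} [Fintype β] (la va ra : α → ℝ) (lb vb rb : β → ℝ) (a a' : α)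
    (h1 : pos vb rb (la a) = pos vb rb (la a')) (h2 : pos rb lb (va a) = pos rb lb (va a'))
    (h3 : pos lb vb (ra a) = pos lb vb (ra a')) (b : β) :
    ((va a < lb b ∧ lb b < ra a ∧ ra a < vb b) ∨ (vb b < la a ∧ la a < rb b ∧ rb b < va a)) ↔
    ((va a' < lb b ∧ lb b < ra a' ∧ ra a' < vb b) ∨
      (vb b < la a' ∧ la a' < rb b ∧ rb b < va a')) := by
  have e1 := pos_eq vb rb h1 b
  have e2 := pos_eq rb lb h2 b
  have e3 := pos_eq lb vb h3 b
  have f1 : la a < rb b ↔ la a' < rb b := by
    rw [← not_le, ← not_le, e1.2]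
  have f2 : va a < lb b ↔ va a' < lb b := by
    rw [← not_le, ← not_le, e2.2]
  have f3 : ra a < vb b ↔ ra a' < vb b := by
    rw [← not_le, ← not_le, e3.2]
  rw [f2, e3.1, f3, e1.1, f1, e2.1]

/-- the number of vertices of a VI graph with distinct neighbourhoods in a reference set -/
theorem VI_card_le {α β : Type*} [Fintype α] [Fintype β] {G : SimpleGraph V} (h : IsVI G)
    (P : α → V) (Q : β → V) (hPQ : ∀ a b, P a ≠ Q b)
    (hd : ∀ a a', a ≠ a' → ∃ b, ¬ (G.Adj (P a) (Q b) ↔ G.Adj (P a') (Q b))) :
    Fintype.card α ≤ (2 * Fintype.card β + 1) ^ 3 := by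
  classical
  obtain ⟨l, v, r, -, -, hadj⟩ := h
  let N : α → Fin (2 * Fintype.card β + 1) × Fin (2 * Fintype.card β + 1) ×
      Fin (2 * Fintype.card β + 1) := fun a =>
    (⟨pos (fun b => v (Q b)) (fun b => r (Q b)) (l (P a)), Nat.lt_succ_of_le (pos_le _ _ _)⟩,
     ⟨pos (fun b => r (Q b)) (fun b => l (Q b)) (v (P a)), Nat.lt_succ_of_le (pos_le _ _ _)⟩,
     ⟨pos (fun b => l (Q b)) (fun b => v (Q b)) (r (P a)), Nat.lt_succ_of_le (pos_le _ _ _)⟩)
  have hinj : Function.Injective N := by
    intro a a' haa
    by_contra hne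
    obtain ⟨b, hb⟩ := hd a a' hne
    apply hb
    rw [hadj _ _ (hPQ a b), hadj _ _ (hPQ a' b)]
    simp only [N, Prod.mk.injEq, Fin.mk.injEq] at haa
    exact adj_of_pos (fun a => l (P a)) (fun a => v (P a)) (fun a => r (P a)) (fun b => l (Q b))
      (fun b => v (Q b)) (fun b => r (Q b)) a a' haa.1 haa.2.1 haa.2.2 b
  have := Fintype.card_le_of_injective N hinj
  simp only [Fintype.card_prod, Fintype.card_fin] at this
  calc Fintype.card α ≤ _ := this
    _ = (2 * Fintype.card β + 1) ^ 3 := by ring

/-- cells cut out by three parallel classes of lines -/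
theorem plane_count {α : Type*} [Fintype α] (f1 f2 : α → ℝ) (n1 n2 n3 : α → ℕ) (M : ℕ)
    (b1 : ∀ a, n1 a ≤ M) (b2 : ∀ a, n2 a ≤ M) (b3 : ∀ a, n3 a ≤ M)
    (m1 : ∀ a a', n1 a < n1 a' → f1 a < f1 a') (m2 : ∀ a a', n2 a < n2 a' → f2 a < f2 a')
    (m3 : ∀ a a', f1 a + f2 a ≤ f1 a' + f2 a' → n3 a ≤ n3 a')
    (hinj : ∀ a a', n1 a = n1 a' → n2 a = n2 a' → n3 a = n3 a' → a = a') :
    Fintype.card α ≤ (M + 1) * (M + 1) + M * (2 * M + 1) := by
  classical
  let A : Finset α := Finset.univ.filter fun a => ∀ a', n1 a' = n1 a → n2 a' = n2 a → n3 a ≤ n3 a'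
  let B : Finset α := Finset.univ.filter fun a =>
    ¬ ∀ a', n1 a' = n1 a → n2 a' = n2 a → n3 a ≤ n3 a'
  have hsplit : Fintype.card α = A.card + B.card :=
    (Finset.card_filter_add_card_filter_not (s := (Finset.univ : Finset α)) _).symm
  have hA : A.card ≤ (M + 1) * (M + 1) := by
    have := Finset.card_le_card_of_injOn (s := A)
      (t := Finset.range (M + 1) ×ˢ Finset.range (M + 1)) (fun a => (n1 a, n2 a)) (by
        intro a _
        simp only [Finset.coe_product, Set.mem_prod, Finset.mem_coe, Finset.mem_range]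
        exact ⟨Nat.lt_succ_of_le (b1 a), Nat.lt_succ_of_le (b2 a)⟩) (by
        intro a ha a' ha' h
        simp only [Prod.mk.injEq] at h
        have ha := (Finset.mem_filter.mp ha).2
        have ha' := (Finset.mem_filter.mp ha').2
        exact hinj a a' h.1 h.2 (le_antisymm (ha a' h.1.symm h.2.symm) (ha' a h.1 h.2)))
    simpa only [Finset.card_product, Finset.card_range] using this
  have hB : B.card ≤ M * (2 * M + 1) := by
    have := Finset.card_le_card_of_injOn (s := B)
      (t := Finset.range M ×ˢ Finset.range (2 * M + 1))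
      (fun a => (n3 a - 1, n1 a + M - n2 a)) (by
        intro a ha
        have h3 := b3 a
        have h1 := b1 a
        have h2 := b2 a
        have ha := (Finset.mem_filter.mp ha).2
        push Not at ha
        obtain ⟨a', -, -, h⟩ := ha
        simp only [Finset.coe_product, Set.mem_prod, Finset.mem_coe, Finset.mem_range]
        omega) (by
        intro a ha a' ha' h
        simp only [Prod.mk.injEq] at h
        have ha := (Finset.mem_filter.mp ha).2
        have ha' := (Finset.mem_filter.mp ha').2
        push Not at ha ha'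
        obtain ⟨c, hc1, hc2, hc3⟩ := ha
        obtain ⟨c', hc1', hc2', hc3'⟩ := ha'
        have e3 : n3 a = n3 a' := by omega
        have g1 := b2 a
        have g2 := b2 a'
        have e12 : n1 a + n2 a' = n1 a' + n2 a := by omega
        have key : ∀ x y z : α, n3 x = n3 y → n1 z = n1 y → n2 z = n2 y → n3 z < n3 y →
            n1 x < n1 y → n2 x < n2 y → False := by
          intro x y z h3 hz1 hz2 hz3 h1 h2
          have q1 := m1 x z (by omega)
          have q2 := m2 x z (by omega)
          have q3 := m3 x z (by linarith)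
          omega
        rcases lt_trichotomy (n1 a) (n1 a') with hlt | heq | hgt
        · exact (key a a' c' e3 hc1' hc2' hc3' hlt (by omega)).elim
        · exact hinj a a' heq (by omega) e3
        · exact (key a' a c e3.symm hc1 hc2 hc3 hgt (by omega)).elim)
    simpa only [Finset.card_product, Finset.card_range] using this
  omega

/-- the number of vertices of an MVI graph with distinct neighbourhoods in a reference set -/
theorem MVI_card_le {α β : Type*} [Fintype α] [Fintype β] {G : SimpleGraph V} (h : IsMVI G)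
    (P : α → V) (Q : β → V) (hPQ : ∀ a b, P a ≠ Q b)
    (hd : ∀ a a', a ≠ a' → ∃ b, ¬ (G.Adj (P a) (Q b) ↔ G.Adj (P a') (Q b))) :
    Fintype.card α ≤ (2 * Fintype.card β + 1) * (2 * Fintype.card β + 1) +
      2 * Fintype.card β * (2 * (2 * Fintype.card β) + 1) := by
  classical
  obtain ⟨l, v, r, -, hmid, -, hadj⟩ := h
  apply plane_count (fun a => l (P a)) (fun a => r (P a))
    (fun a => pos (fun b => v (Q b)) (fun b => r (Q b)) (l (P a)))
    (fun a => pos (fun b => l (Q b)) (fun b => v (Q b)) (r (P a)))
    (fun a => pos (fun b => r (Q b)) (fun b => l (Q b)) (v (P a)))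
    (2 * Fintype.card β) (fun a => pos_le _ _ _) (fun a => pos_le _ _ _) (fun a => pos_le _ _ _)
    (fun a a' h => lt_of_pos_lt _ _ h) (fun a a' h => lt_of_pos_lt _ _ h)
  · intro a a' hle
    apply pos_mono
    rw [hmid, hmid]
    linarith
  · intro a a' e1 e2 e3
    by_contra hne
    obtain ⟨b, hb⟩ := hd a a' hne
    apply hb
    rw [hadj _ _ (hPQ a b), hadj _ _ (hPQ a' b)]
    exact adj_of_pos (fun a => l (P a)) (fun a => v (P a)) (fun a => r (P a)) (fun b => l (Q b))
      (fun b => v (Q b)) (fun b => r (Q b)) a a' e1 e3 e2 b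

end Pool.Agent.X72.Veto
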