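import Mathlib

/-! Waiting times of patterns in coin tossing. -/

namespace Pool.Agent.X72.Coin

/-- `E p n F` is the expectation of `F (X₁ ⋯ Xₙ)` for independent letters `X_i` equal to
`H = true` with probability `p` and to `T = false` with probability `1 - p`. -/
def E (p : ℝ) : ℕ → (List Bool → ℝ) → ℝ
  | 0, F => F []
  | n + 1, F => p * E p n (fun w => F (true :: w)) + (1 - p) * E p n (fun w => F (false :: w))

open Classical in
/-- `Pr(τ_A > n)`: the pattern `A` does not occur in `X₁ ⋯ Xₙ`. -/
noncomputable def tail (A : List Bool) (p : ℝ) (n : ℕ) : ℝ :=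
  E p n (fun w => if A <:+: w then 0 else 1)

open Classical in
/-- `Pr(τ_A = n)`: the pattern `A` is a suffix of `X₁ ⋯ Xₙ` and does not occur in
`X₁ ⋯ X_{n-1}`. -/
noncomputable def pmf (A : List Bool) (p : ℝ) (n : ℕ) : ℝ :=
  E p n (fun w => if A <:+ w ∧ ¬ A <:+: w.dropLast then 1 else 0)

/-- `W_{A,B}(p) = Pr(τ_A < τ_B) + ½ Pr(τ_A = τ_B)` for independent sequences, with
`Pr(τ_A < τ_B) = ∑ₙ Pr(τ_A = n) Pr(τ_B > n)` and `Pr(τ_A = τ_B) = ∑ₙ Pr(τ_A = n) Pr(τ_B = n)`. -/
noncomputable def W (A B : List Bool) (p : ℝ) : ℝ :=
  (∑' n : ℕ, pmf A p n * tail B p n) + 1 / 2 * ∑' n : ℕ, pmf A p n * pmf B p n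

/-! ### Expectations -/

theorem E_congr (p : ℝ) (n : ℕ) {F G : List Bool → ℝ} (h : ∀ w : List Bool, w.length = n → F w = G w) :
    E p n F = E p n G := by
  induction n generalizing F G with
  | zero => exact h [] rfl
  | succ n ih =>
    rw [E, E, ih (fun w hw => h (true :: w) (by simp [hw])),
      ih (fun w hw => h (false :: w) (by simp [hw]))]

theorem E_const (p : ℝ) (n : ℕ) (c : ℝ) : E p n (fun _ => c) = c := by
  induction n with
  | zero => rfl
  | succ n ih => rw [E, ih]; ring

theorem E_sub (p : ℝ) (n : ℕ) (F G : List Bool → ℝ) :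
    E p n (fun w => F w - G w) = E p n F - E p n G := by
  induction n generalizing F G with
  | zero => rfl
  | succ n ih => rw [E, E, E, ih, ih]; ring

theorem E_mul (p : ℝ) (n : ℕ) (c : ℝ) (F : List Bool → ℝ) :
    E p n (fun w => F w * c) = E p n F * c := by
  induction n generalizing F with
  | zero => rfl
  | succ n ih => rw [E, E, ih, ih]; ring

theorem E_append (p : ℝ) (m n : ℕ) (F : List Bool → ℝ) :
    E p (m + n) F = E p m (fun u => E p n (fun v => F (u ++ v))) := by
  induction m generalizing F with
  | zero => simp [E]
  | succ m ih =>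
    rw [show m + 1 + n = (m + n) + 1 by omega, E, E, ih, ih]
    rfl

theorem E_mono {p : ℝ} (h0 : 0 ≤ p) (h1 : p ≤ 1) (n : ℕ) {F G : List Bool → ℝ}
    (h : ∀ w, F w ≤ G w) : E p n F ≤ E p n G := by
  induction n generalizing F G with
  | zero => exact h []
  | succ n ih =>
    rw [E, E]
    have a1 := ih (fun w => h (true :: w))
    have a2 := ih (fun w => h (false :: w))
    have : 0 ≤ 1 - p := by linarith
    exact add_le_add (mul_le_mul_of_nonneg_left a1 h0) (mul_le_mul_of_nonneg_left a2 this)

/-- the probability of a word -/
def wt (p : ℝ) : List Bool → ℝ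
  | [] => 1
  | true :: w => p * wt p w
  | false :: w => (1 - p) * wt p w

theorem E_word (p : ℝ) (A : List Bool) (F : List Bool → ℝ) :
    E p A.length (fun v => if v = A then F v else 0) = wt p A * F A := by
  induction A generalizing F with
  | nil => simp [E, wt]
  | cons a A ih =>
    rw [List.length_cons, E]
    cases a with
    | true =>
      have h1 : (fun w : List Bool => if true :: w = true :: A then F (true :: w) else 0)
          = fun w => if w = A then F (true :: w) else 0 := by
        funext w; simp
      have h2 : (fun w : List Bool => if false :: w = true :: A then F (false :: w) else 0)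
          = fun _ => 0 := by
        funext w; simp
      rw [h1, h2, ih (fun w => F (true :: w)), E_const, wt]
      ring
    | false =>
      have h1 : (fun w : List Bool => if true :: w = false :: A then F (true :: w) else 0)
          = fun _ => 0 := by
        funext w; simp
      have h2 : (fun w : List Bool => if false :: w = false :: A then F (false :: w) else 0)
          = fun w => if w = A then F (false :: w) else 0 := by
        funext w; simp
      rw [h1, h2, ih (fun w => F (false :: w)), E_const, wt]
      ring

/-! ### Waiting times -/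

theorem tail_nonneg (A : List Bool) {p : ℝ} (h0 : 0 ≤ p) (h1 : p ≤ 1) (n : ℕ) : 0 ≤ tail A p n := by
  classical
  unfold tail
  calc (0 : ℝ) = E p n (fun _ => 0) := (E_const p n 0).symm
    _ ≤ _ := E_mono h0 h1 n fun w => by split_ifs <;> norm_num

theorem tail_le_one (A : List Bool) {p : ℝ} (h0 : 0 ≤ p) (h1 : p ≤ 1) (n : ℕ) :
    tail A p n ≤ 1 := by
  classical
  unfold tail
  calc _ ≤ E p n (fun _ => (1 : ℝ)) := E_mono h0 h1 n fun w => by split_ifs <;> norm_num
    _ = 1 := E_const p n 1

theorem infix_dropLast {A w : List Bool} (h : A <:+: w.dropLast) : A <:+: w :=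
  h.trans (List.dropLast_prefix w).isInfix

theorem infix_cases {A w : List Bool} (h : A <:+: w) : A <:+ w ∨ A <:+: w.dropLast := by
  obtain ⟨s, t, rfl⟩ := h
  by_cases ht : t = []
  · subst ht
    left
    exact ⟨s, by simp⟩
  · right
    refine ⟨s, t.dropLast, ?_⟩
    rw [List.dropLast_append_of_ne_nil ht]

theorem pmf_succ (A : List Bool) (p : ℝ) (n : ℕ) :
    pmf A p (n + 1) = tail A p n - tail A p (n + 1) := by
  classical
  have h1 : tail A p n = E p (n + 1) (fun w => if A <:+: w.dropLast then 0 else 1) := by
    rw [E_append p n 1]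
    unfold tail
    apply E_congr
    intro u _
    simp only [E, List.dropLast_concat]
    ring
  rw [h1]
  unfold tail
  rw [← E_sub]
  unfold pmf
  apply E_congr
  intro w _
  by_cases ha : A <:+: w.dropLast
  · have hb := infix_dropLast ha
    simp [ha, hb]
  · by_cases hb : A <:+: w
    · have hc := (infix_cases hb).resolve_right ha
      simp [ha, hb, hc]
    · have hc : ¬ A <:+ w := fun h => hb h.isInfix
      simp [ha, hb, hc]

theorem pmf_zero (A : List Bool) (hA : A ≠ []) (p : ℝ) : pmf A p 0 = 0 := by
  classical
  unfold pmf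
  simp [E, hA]

/-- A pattern is unbordered if no proper nonempty prefix is a suffix. -/
def Unbordered (A : List Bool) : Prop :=
  ∀ k < A.length, 0 < k → A.take k ≠ A.drop (A.length - k)

theorem renewal (A : List Bool) (hA : A ≠ []) (hU : Unbordered A) (w : List Bool) :
    (A <:+ w ∧ ¬ A <:+: w.dropLast) ↔ ∃ u, w = u ++ A ∧ ¬ A <:+: u := by
  constructor
  · rintro ⟨⟨u, rfl⟩, h2⟩
    refine ⟨u, rfl, fun h => h2 ?_⟩
    rw [List.dropLast_append_of_ne_nil hA]
    exact h.trans (List.prefix_append u A.dropLast).isInfix
  · rintro ⟨u, rfl, hu⟩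
    refine ⟨⟨u, rfl⟩, fun h => ?_⟩
    rw [List.dropLast_append_of_ne_nil hA] at h
    obtain ⟨s, t, hst⟩ := h
    have hlen := congrArg List.length hst
    simp only [List.length_append, List.length_dropLast] at hlen
    have hA0 : 0 < A.length := List.length_pos_iff.mpr hA
    have hst' : s ++ (A ++ t) = u ++ A.dropLast := by rw [← List.append_assoc]; exact hst
    rcases List.append_eq_append_iff.mp hst' with ⟨m, hm1, hm2⟩ | ⟨m, hm1, hm2⟩
    · -- `u = s ++ m`, `A ++ t = m ++ A.dropLast`
      rcases List.append_eq_append_iff.mp hm2 with ⟨m', hm1', hm2'⟩ | ⟨m', hm1', hm2'⟩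
      · -- `m = A ++ m'`
        apply hu
        exact ⟨s, m', by rw [hm1, hm1', List.append_assoc]⟩
      · -- `A = m ++ m'`, `A.dropLast = m' ++ t`
        by_cases hm'0 : m' = []
        · subst hm'0
          apply hu
          rw [List.append_nil] at hm1'
          exact ⟨s, [], by rw [hm1, hm1', List.append_nil]⟩
        · have hl1 := congrArg List.length hm1'
          have hl2 := congrArg List.length hm2'
          have hm'pos := List.length_pos_iff.mpr hm'0
          simp only [List.length_append, List.length_dropLast] at hl1 hl2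
          apply hU m'.length (by omega) hm'pos
          have e1 : A.take m'.length = m' := by
            have h3 : A.dropLast.take m'.length = m' := by
              rw [hm2', List.take_left']
              rfl
            rw [List.dropLast_eq_take, List.take_take, min_eq_left (by omega)] at h3
            exact h3
          have e2 : A.drop (A.length - m'.length) = m' := by
            have : A.length - m'.length = m.length := by omega
            rw [this]
            conv_lhs => rw [hm1']
            rw [List.drop_left']
            rfl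
          rw [e1, e2]
    · -- `s = u ++ m`, `A.dropLast = m ++ (A ++ t)`
      have hl2 := congrArg List.length hm2
      simp only [List.length_append, List.length_dropLast] at hl2
      omega

theorem pmf_unbordered (A : List Bool) (hA : A ≠ []) (hU : Unbordered A) (p : ℝ) (n : ℕ) :
    pmf A p (n + A.length) = tail A p n * wt p A := by
  classical
  unfold pmf
  rw [E_append]
  have : ∀ u : List Bool, E p A.length (fun v => if A <:+ u ++ v ∧ ¬ A <:+: (u ++ v).dropLast
      then (1 : ℝ) else 0) = (if A <:+: u then 0 else 1) * wt p A := by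
    intro u
    rw [mul_comm, ← E_word p A (fun _ => if A <:+: u then 0 else 1)]
    apply E_congr
    intro v hv
    by_cases hvA : v = A
    · subst hvA
      by_cases hu : v <:+: u
      · have hn : ¬ (v <:+ u ++ v ∧ ¬ v <:+: (u ++ v).dropLast) := by
          rw [renewal v hA hU]
          rintro ⟨u', h1, h2⟩
          have := List.append_cancel_right h1
          rw [← this] at h2
          exact h2 hu
        rw [if_neg hn, if_pos rfl, if_pos hu]
      · have hn : (v <:+ u ++ v ∧ ¬ v <:+: (u ++ v).dropLast) := by
          rw [renewal v hA hU]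
          exact ⟨u, rfl, hu⟩
        rw [if_pos hn, if_pos rfl, if_neg hu]
    · have hn : ¬ (A <:+ u ++ v ∧ ¬ A <:+: (u ++ v).dropLast) := by
        rintro ⟨⟨s, hs⟩, -⟩
        apply hvA
        have := List.append_inj_right' hs hv.symm
        exact this.symm
      rw [if_neg hn, if_neg hvA]
  simp only [this]
  rw [E_mul]
  rfl

theorem tail_rec (A : List Bool) (hA : A ≠ []) (hU : Unbordered A) (p : ℝ) (n l : ℕ)
    (hl : A.length = l + 1) :
    tail A p (n + l + 1) = tail A p (n + l) - tail A p n * wt p A := by
  have h1 := pmf_unbordered A hA hU p n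
  rw [hl, ← Nat.add_assoc, pmf_succ] at h1
  linarith

theorem tail_short (A : List Bool) (p : ℝ) (n : ℕ) (hn : n < A.length) : tail A p n = 1 := by
  classical
  unfold tail
  refine (E_congr p n fun w hw => ?_).trans (E_const p n 1)
  rw [if_neg]
  intro h
  have := h.length_le
  omega

end Pool.Agent.X72.Coin
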