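import Mathlib

/-! Hamiltonian cycles in normal Cayley graphs: lifting through abelian normal subgroups. -/

namespace Pool.Agent.X72.HamCayley

open Equiv Equiv.Perm

/-! ### merging cycles of permutations -/

section Merge

variable {X : Type*}

lemma sameCycle_of_step {σ τ : Perm X} (h : ∀ z, τ.SameCycle z (σ z)) {u v : X}
    (huv : σ.SameCycle u v) : τ.SameCycle u v := by
  obtain ⟨i, rfl⟩ := huv
  induction i using Int.induction_on with
  | zero => exact SameCycle.refl _ _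
  | succ i ih =>
    have h1 := h ((σ ^ (i : ℤ)) u)
    have h2 : σ ((σ ^ (i : ℤ)) u) = (σ ^ ((i : ℤ) + 1)) u := by
      rw [add_comm, zpow_add, zpow_one]; rfl
    rw [h2] at h1
    exact ih.trans h1
  | pred i ih =>
    have h1 := h ((σ ^ (-(i : ℤ) - 1)) u)
    have h2 : σ ((σ ^ (-(i : ℤ) - 1)) u) = (σ ^ (-(i : ℤ))) u := by
      have : (-(i : ℤ)) = 1 + (-(i : ℤ) - 1) := by ring
      conv_rhs => rw [this, zpow_add, zpow_one]
      rfl
    rw [h2] at h1
    exact ih.trans h1.symm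

variable [DecidableEq X]

theorem merge [Finite X] (σ : Perm X) (x y : X) (h : ¬ σ.SameCycle x y) :
    (∀ u v, σ.SameCycle u v → (σ * swap x y).SameCycle u v) ∧ (σ * swap x y).SameCycle x y := by
  set τ : Perm X := σ * swap x y with hτ
  have hx : τ x = σ y := by simp [hτ]
  have hy : τ y = σ x := by simp [hτ]
  have hz : ∀ z, z ≠ x → z ≠ y → τ z = σ z := by
    intro z h1 h2
    simp [hτ, swap_apply_of_ne_of_ne h1 h2]
  have key : ∀ k : ℕ, (∀ j, 1 ≤ j → j ≤ k → (σ ^ j) x ≠ x) → τ.SameCycle y ((σ ^ (k + 1)) x) := by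
    intro k
    induction k with
    | zero =>
      intro _
      rw [zero_add, pow_one, ← hy]
      exact (sameCycle_apply_right).2 (SameCycle.refl _ _)
    | succ k ih =>
      intro hj
      have h1 := ih (fun j h1 h2 => hj j h1 (by omega))
      have h2 : (σ ^ (k + 1)) x ≠ x := hj (k + 1) (by omega) le_rfl
      have h3 : (σ ^ (k + 1)) x ≠ y := fun h4 => h ⟨((k + 1 : ℕ) : ℤ), by rw [zpow_natCast]; exact h4⟩
      have h4 : τ ((σ ^ (k + 1)) x) = (σ ^ (k + 1 + 1)) x := by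
        rw [hz _ h2 h3, pow_succ' σ (k + 1)]
        rfl
      rw [← h4]
      exact (sameCycle_apply_right).2 h1
  have hxy : τ.SameCycle x y := by
    have hex : ∃ m : ℕ, 0 < m ∧ (σ ^ m) x = x :=
      ⟨orderOf σ, orderOf_pos σ, by rw [pow_orderOf_eq_one]; rfl⟩
    classical
    have hm := Nat.find_spec hex
    have hmin : ∀ j, j < Nat.find hex → ¬ (0 < j ∧ (σ ^ j) x = x) := fun j hj => Nat.find_min hex hj
    set m := Nat.find hex with hmdef
    have := key (m - 1) (fun j h1 h2 h3 => hmin j (by omega) ⟨by omega, h3⟩)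
    rw [Nat.sub_add_cancel hm.1, hm.2] at this
    exact this.symm
  refine ⟨fun u v huv => sameCycle_of_step (fun z => ?_) huv, hxy⟩
  by_cases h1 : z = x
  · subst h1
    rw [← hy]
    exact (sameCycle_apply_right).2 hxy
  · by_cases h2 : z = y
    · subst h2
      rw [← hx]
      exact (sameCycle_apply_right).2 hxy.symm
    · rw [← hz z h1 h2]
      exact (sameCycle_apply_right).2 (SameCycle.refl _ _)

theorem exists_extremal [Finite X] (S : Set (Perm X)) (hS : S.Nonempty) :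
    ∃ σ ∈ S, ∀ x y, σ * swap x y ∈ S → σ.SameCycle x y := by
  classical
  have hfin : (Set.univ : Set (Perm X)).Finite := Set.toFinite _
  obtain ⟨σ, hσ, hmax⟩ := Set.exists_max_image S (fun σ => {p : X × X | σ.SameCycle p.1 p.2}.ncard)
    (Set.toFinite S) hS
  refine ⟨σ, hσ, fun x y hxy => ?_⟩
  by_contra hcon
  obtain ⟨h1, h2⟩ := merge σ x y hcon
  have h3 := hmax _ hxy
  have h4 : {p : X × X | σ.SameCycle p.1 p.2} ⊂ {p : X × X | (σ * swap x y).SameCycle p.1 p.2} := by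
    refine ⟨fun p hp => h1 _ _ hp, fun hsub => hcon ?_⟩
    have : (x, y) ∈ {p : X × X | (σ * swap x y).SameCycle p.1 p.2} := h2
    exact hsub this
  have h5 := Set.ncard_lt_ncard h4 (Set.toFinite _)
  omega

end Merge

/-! ### the lifting lemma -/

section Lift

variable {G : Type*} [Group G] [Finite G]

theorem lift (N : Subgroup G) [N.Normal]
    (τ : Perm (G ⧸ N)) (hτ : ∀ p q, τ.SameCycle p q) (c : G ⧸ N → G)
    (hc : ∀ q, ((c q : G) : G ⧸ N) = q⁻¹ * τ q) (D : G ⧸ N → Subgroup G)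
    (hD : ∀ q, D q ≤ N) (hDc : ∀ q, ∀ d ∈ D q, c q * d * (c q)⁻¹ ∈ D q)
    (hDc' : ∀ q, ∀ d ∈ D q, (c q)⁻¹ * d * c q ∈ D q)
    (A : Set G) (hA : ∀ q, ∀ d ∈ D q, c q * d ∈ A) :
    ∃ σ : Perm G, (∀ g, g⁻¹ * σ g ∈ A) ∧ (∀ g, ((σ g : G) : G ⧸ N) = τ g) ∧
      (∀ g : G, ∀ d ∈ D g, σ.SameCycle g (g * d)) ∧
      (∀ n ∈ N, (∃ q : G ⧸ N, ∀ g : G, (g : G ⧸ N) = q → σ.SameCycle g (n * g)) →
        ∀ g, σ.SameCycle g (n * g)) := by
  classical
  -- the initial permutation
  have hbij : Function.Bijective (fun g : G => g * c g) := by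
    rw [← Finite.injective_iff_bijective]
    intro g g' h
    have h1 : ((g * c g : G) : G ⧸ N) = ((g' * c g' : G) : G ⧸ N) := by
      simp only at h
      rw [h]
    rw [QuotientGroup.mk_mul, QuotientGroup.mk_mul, hc, hc, mul_inv_cancel_left, mul_inv_cancel_left] at h1
    have h2 := τ.injective h1
    simp only at h
    rw [h2] at h
    exact mul_right_cancel h
  set σ₀ : Perm G := Equiv.ofBijective _ hbij with hσ₀
  have hσ₀' : ∀ g, σ₀ g = g * c g := fun g => rfl
  set S : Set (Perm G) := {σ | ∀ g : G, (c g)⁻¹ * (g⁻¹ * σ g) ∈ D g} with hS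
  have hS0 : σ₀ ∈ S := by
    intro g
    rw [hσ₀', inv_mul_cancel_left, inv_mul_cancel]
    exact (D g).one_mem
  obtain ⟨σ, hσS, hext⟩ := exists_extremal S ⟨σ₀, hS0⟩
  have hproj : ∀ g, ((σ g : G) : G ⧸ N) = τ g := by
    intro g
    have h1 := hD _ (hσS g)
    have h2 : (((c g)⁻¹ * (g⁻¹ * σ g) : G) : G ⧸ N) = 1 := (QuotientGroup.eq_one_iff _).2 h1
    rw [QuotientGroup.mk_mul, QuotientGroup.mk_mul, QuotientGroup.mk_inv, QuotientGroup.mk_inv, hc] at h2
    have h3 := mul_eq_one_iff_inv_eq.1 h2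
    rw [inv_inv] at h3
    exact (mul_left_cancel h3).symm
  -- labels in A
  have hlab : ∀ g, g⁻¹ * σ g ∈ A := by
    intro g
    have := hA _ _ (hσS g)
    rwa [mul_inv_cancel_left] at this
  -- D-closure
  have hDcl : ∀ g : G, ∀ d ∈ D g, σ.SameCycle g (g * d) := by
    intro g d hd
    have hgd : ((g * d : G) : G ⧸ N) = g := by
      rw [QuotientGroup.mk_mul, (QuotientGroup.eq_one_iff d).2 (hD _ hd), mul_one]
    apply hext
    intro z
    have hswap : (σ * swap g (g * d)) z = σ (swap g (g * d) z) := rfl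
    rw [hswap]
    by_cases h1 : z = g
    · subst h1
      rw [swap_apply_left]
      have h2 := hσS (z * d)
      rw [hgd] at h2
      have h3 : (c z)⁻¹ * (z⁻¹ * σ (z * d)) =
          ((c z)⁻¹ * d * c z) * ((c z)⁻¹ * ((z * d)⁻¹ * σ (z * d))) := by group
      rw [h3]
      exact (D z).mul_mem (hDc' _ _ hd) h2
    · by_cases h2 : z = g * d
      · subst h2
        rw [swap_apply_right, hgd]
        have h4 := hσS g
        have h3 : (c g)⁻¹ * ((g * d)⁻¹ * σ g) =
            ((c g)⁻¹ * d * c g)⁻¹ * ((c g)⁻¹ * (g⁻¹ * σ g)) := by group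
        rw [h3]
        exact (D g).mul_mem ((D g).inv_mem (hDc' _ _ hd)) h4
      · rw [swap_apply_of_ne_of_ne h1 h2]
        exact hσS z
  refine ⟨σ, hlab, hproj, hDcl, ?_⟩
  -- monotonicity along the cycle
  intro n hn
  have hstep : ∀ q : G ⧸ N, (∀ g : G, (g : G ⧸ N) = q → σ.SameCycle g (n * g)) →
      ∀ g : G, (g : G ⧸ N) = τ q → σ.SameCycle g (n * g) := by
    intro q hq g' hg'
    obtain ⟨g, rfl⟩ := σ.surjective g'
    obtain ⟨g₁, hg₁⟩ := σ.surjective (n * σ g)
    have hgq : (g : G ⧸ N) = q := by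
      rw [hproj] at hg'
      exact τ.injective hg'
    have hg₁q : (g₁ : G ⧸ N) = q := by
      have : ((σ g₁ : G) : G ⧸ N) = τ q := by
        rw [hg₁, QuotientGroup.mk_mul, (QuotientGroup.eq_one_iff n).2 hn, one_mul, hg']
      rw [hproj] at this
      exact τ.injective this
    -- g₁ = n * g * d''
    set a := g⁻¹ * σ g with ha
    set a₁ := g₁⁻¹ * σ g₁ with ha₁
    have h1 : (c q)⁻¹ * a ∈ D q := by have := hσS g; rwa [hgq] at this
    have h2 : (c q)⁻¹ * a₁ ∈ D q := by have := hσS g₁; rwa [hg₁q] at this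
    have h3 : a * a₁⁻¹ ∈ D q := by
      have h4 := hDc q _ ((D q).mul_mem h1 ((D q).inv_mem h2))
      have h5 : c q * ((c q)⁻¹ * a * ((c q)⁻¹ * a₁)⁻¹) * (c q)⁻¹ = a * a₁⁻¹ := by group
      rwa [h5] at h4
    have h4 : g₁ = (n * g) * (a * a₁⁻¹) := by
      rw [ha, ha₁, hg₁]; group
    have hng : ((n * g : G) : G ⧸ N) = q := by
      rw [QuotientGroup.mk_mul, (QuotientGroup.eq_one_iff n).2 hn, one_mul, hgq]
    have h5 : σ.SameCycle (n * g) g₁ := by
      rw [h4]
      apply hDcl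
      rw [hng]
      exact h3
    have h6 : σ.SameCycle g (n * g) := hq g hgq
    have h7 : σ.SameCycle (σ g) (σ g₁) :=
      (sameCycle_apply_left.2 (SameCycle.refl σ g)).trans ((h6.trans h5).trans
        (sameCycle_apply_right.2 (SameCycle.refl σ g₁)))
    rw [hg₁] at h7
    exact h7
  rintro ⟨q, hq⟩ g
  obtain ⟨i, hi⟩ := (hτ q (g : G ⧸ N)).exists_nat_pow_eq
  have : ∀ i : ℕ, ∀ g : G, (g : G ⧸ N) = (τ ^ i) q → σ.SameCycle g (n * g) := by
    intro i
    induction i with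
    | zero => intro g hg; exact hq g hg
    | succ i ih =>
      intro g hg
      refine hstep _ ih g ?_
      rw [hg, pow_succ' τ i]
      rfl
  exact this i g hi.symm

/-- if all `N`-translates are in the same cycle, the lift is transitive. -/
theorem transitive_of_lift (N : Subgroup G) [N.Normal] (τ : Perm (G ⧸ N)) (hτ : ∀ p q, τ.SameCycle p q)
    (σ : Perm G) (hproj : ∀ g, ((σ g : G) : G ⧸ N) = τ g)
    (h : ∀ n ∈ N, ∀ g, σ.SameCycle g (n * g)) : ∀ x y, σ.SameCycle x y := by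
  intro x y
  obtain ⟨i, hi⟩ := (hτ (x : G ⧸ N) (y : G ⧸ N)).exists_nat_pow_eq
  have h1 : ∀ i : ℕ, (((σ ^ i) x : G) : G ⧸ N) = (τ ^ i) x := by
    intro i
    induction i with
    | zero => rfl
    | succ i ih =>
      rw [pow_succ' σ i, pow_succ' τ i]
      show ((σ ((σ ^ i) x) : G) : G ⧸ N) = τ ((τ ^ i) x)
      rw [hproj, ih]
  have h2 : (((σ ^ i) x : G) : G ⧸ N) = y := by rw [h1, hi]
  have h3 : y * ((σ ^ i) x)⁻¹ ∈ N := by
    rw [← QuotientGroup.eq_one_iff, QuotientGroup.mk_mul, QuotientGroup.mk_inv, h2, mul_inv_cancel]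
  have h4 := h _ h3 ((σ ^ i) x)
  rw [inv_mul_cancel_right] at h4
  exact (SameCycle.trans ⟨(i : ℤ), by rw [zpow_natCast]⟩ h4)

end Lift

/-- `Ham G A`: the Cayley graph has a (directed) Hamiltonian cycle with labels in `A`. -/
def Ham (G : Type*) [Group G] (A : Set G) : Prop :=
  ∃ σ : Perm G, (∀ g, g⁻¹ * σ g ∈ A) ∧ ∀ x y, σ.SameCycle x y

lemma Ham.mono {G : Type*} [Group G] {A B : Set G} (h : Ham G B) (hBA : B ⊆ A) : Ham G A := by
  obtain ⟨σ, h1, h2⟩ := h
  exact ⟨σ, fun g => hBA (h1 g), h2⟩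

section Steps

variable {G : Type*} [Group G] [Finite G]

omit [Finite G] in
lemma choose_labels (N : Subgroup G) [N.Normal] (A : Set G) (τ : Perm (G ⧸ N))
    (hτ : ∀ q, q⁻¹ * τ q ∈ (QuotientGroup.mk' N) '' A) :
    ∃ c : G ⧸ N → G, (∀ q, ((c q : G) : G ⧸ N) = q⁻¹ * τ q) ∧ ∀ q, c q ∈ A := by
  choose c hc using hτ
  exact ⟨c, fun q => (hc q).2, fun q => (hc q).1⟩

/-- the subgroup `[a, N]` for abelian normal `N` -/
def DD (N : Subgroup G) [N.Normal] (hN : ∀ a ∈ N, ∀ b ∈ N, a * b = b * a) (a : G) : Subgroup G where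
  carrier := {x | ∃ n ∈ N, x = a⁻¹ * n⁻¹ * a * n}
  mul_mem' := by
    rintro _ _ ⟨n, hn, rfl⟩ ⟨m, hm, rfl⟩
    refine ⟨m * n, N.mul_mem hm hn, ?_⟩
    have h1 : a⁻¹ * m⁻¹ * a ∈ N := by
      have := Subgroup.Normal.conj_mem ‹N.Normal› _ (N.inv_mem hm) a⁻¹
      rwa [inv_inv] at this
    calc a⁻¹ * n⁻¹ * a * n * (a⁻¹ * m⁻¹ * a * m)
        = a⁻¹ * n⁻¹ * a * (n * (a⁻¹ * m⁻¹ * a)) * m := by group
      _ = a⁻¹ * n⁻¹ * a * ((a⁻¹ * m⁻¹ * a) * n) * m := by rw [hN _ hn _ h1]
      _ = a⁻¹ * n⁻¹ * m⁻¹ * a * (n * m) := by group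
      _ = a⁻¹ * n⁻¹ * m⁻¹ * a * (m * n) := by rw [hN _ hn _ hm]
      _ = a⁻¹ * (m * n)⁻¹ * a * (m * n) := by group
  one_mem' := ⟨1, N.one_mem, by group⟩
  inv_mem' := by
    rintro _ ⟨n, hn, rfl⟩
    refine ⟨n⁻¹, N.inv_mem hn, ?_⟩
    have h1 : a⁻¹ * n * a ∈ N := by
      have := Subgroup.Normal.conj_mem ‹N.Normal› _ hn a⁻¹
      rwa [inv_inv] at this
    calc (a⁻¹ * n⁻¹ * a * n)⁻¹ = n⁻¹ * (a⁻¹ * n * a) := by group
      _ = (a⁻¹ * n * a) * n⁻¹ := hN _ (N.inv_mem hn) _ h1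
      _ = a⁻¹ * (n⁻¹)⁻¹ * a * n⁻¹ := by group

omit [Finite G] in
lemma mem_DD {N : Subgroup G} [N.Normal] {hN : ∀ a ∈ N, ∀ b ∈ N, a * b = b * a} {a x : G} :
    x ∈ DD N hN a ↔ ∃ n ∈ N, x = a⁻¹ * n⁻¹ * a * n := Iff.rfl

/-- **Step A.** -/
theorem stepA (N : Subgroup G) [hNn : N.Normal] (hN : ∀ a ∈ N, ∀ b ∈ N, a * b = b * a)
    (hcomm : N ≤ ⁅(⊤ : Subgroup G), N⁆) (A : Set G) (hA : ∀ a ∈ A, ∀ g : G, g * a * g⁻¹ ∈ A)
    (h : Ham (G ⧸ N) ((QuotientGroup.mk' N) '' A)) : Ham G A := by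
  obtain ⟨τ, hτ1, hτ2⟩ := h
  obtain ⟨c, hc1, hc2⟩ := choose_labels N A τ hτ1
  have hconj : ∀ (g : G), ∀ n ∈ N, g * n * g⁻¹ ∈ N := fun g n hn => hNn.conj_mem n hn g
  have hconj' : ∀ (g : G), ∀ n ∈ N, g⁻¹ * n * g ∈ N := fun g n hn => by
    have := hNn.conj_mem n hn g⁻¹
    rwa [inv_inv] at this
  obtain ⟨σ, h1, h2, h3, h4⟩ := lift N τ hτ2 c hc1 (fun q => DD N hN (c q))
    (by
      rintro q _ ⟨n, hn, rfl⟩
      exact N.mul_mem (hconj' _ _ (N.inv_mem hn)) hn)
    (by
      rintro q _ ⟨n, hn, rfl⟩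
      refine ⟨c q * n * (c q)⁻¹, hconj _ _ hn, ?_⟩
      group)
    (by
      rintro q _ ⟨n, hn, rfl⟩
      refine ⟨(c q)⁻¹ * n * c q, hconj' _ _ hn, ?_⟩
      group)
    A
    (by
      rintro q _ ⟨n, hn, rfl⟩
      have := hA _ (hc2 q) n⁻¹
      have h5 : c q * ((c q)⁻¹ * n⁻¹ * c q * n) = n⁻¹ * c q * n⁻¹⁻¹ := by group
      rw [h5]
      exact this)
  refine ⟨σ, h1, transitive_of_lift N τ hτ2 σ h2 ?_⟩
  -- the subgroup M
  let M : Subgroup G :=
    { carrier := {n | n ∈ N ∧ ∀ g, σ.SameCycle g (n * g)}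
      mul_mem' := by
        rintro a b ⟨ha, ha'⟩ ⟨hb, hb'⟩
        refine ⟨N.mul_mem ha hb, fun g => ?_⟩
        rw [mul_assoc]
        exact (hb' g).trans (ha' _)
      one_mem' := ⟨N.one_mem, fun g => by rw [one_mul]⟩
      inv_mem' := by
        rintro a ⟨ha, ha'⟩
        refine ⟨N.inv_mem ha, fun g => ?_⟩
        have := ha' (a⁻¹ * g)
        rw [mul_inv_cancel_left] at this
        exact this.symm }
  have hM : ∀ n, n ∈ M ↔ (n ∈ N ∧ ∀ g, σ.SameCycle g (n * g)) := fun n => Iff.rfl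
  -- conjugates of D are in M
  have hDM : ∀ g : G, ∀ d ∈ DD N hN (c g), g * d * g⁻¹ ∈ M := by
    intro g d hd
    have hdN : d ∈ N := by
      obtain ⟨n, hn, rfl⟩ := hd
      exact N.mul_mem (hconj' _ _ (N.inv_mem hn)) hn
    refine ⟨hconj _ _ hdN, h4 _ (hconj _ _ hdN) ⟨g, ?_⟩⟩
    intro g' hg'
    have hm : g⁻¹ * g' ∈ N := QuotientGroup.eq.1 hg'.symm
    have h5 : g * d * g⁻¹ * g' = g' * d := by
      calc g * d * g⁻¹ * g' = g * (d * (g⁻¹ * g')) := by group
        _ = g * ((g⁻¹ * g') * d) := by rw [hN _ hdN _ hm]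
        _ = g' * d := by group
    rw [h5]
    apply h3
    rw [hg']
    exact hd
  -- commutators are in M
  have hcomM : ∀ i : ℕ, ∀ g : G, (g : G ⧸ N) = (τ ^ i) 1 → ∀ n ∈ N, g * n * g⁻¹ * n⁻¹ ∈ M := by
    intro i
    induction i with
    | zero =>
      intro g hg n hn
      have hg' : g ∈ N := (QuotientGroup.eq_one_iff g).1 hg
      have : g * n * g⁻¹ * n⁻¹ = 1 := by
        rw [hN _ hg' _ hn]; group
      rw [this]
      exact M.one_mem
    | succ i ih =>
      intro g' hg' n hn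
      obtain ⟨g, hg⟩ := QuotientGroup.mk_surjective ((τ ^ i) (1 : G ⧸ N))
      have h5 : ((g * c g : G) : G ⧸ N) = (g' : G ⧸ N) := by
        rw [hg', QuotientGroup.mk_mul, hc1, mul_inv_cancel_left, hg, pow_succ' τ i]
        rfl
      set m := (g * c g)⁻¹ * g' with hm
      have hmN : m ∈ N := QuotientGroup.eq.1 h5
      have h6 : g' = g * c g * m := by rw [hm]; group
      have h7 : m * n * m⁻¹ = n := by rw [hN _ hmN _ hn]; group
      have h8 : g' * n * g'⁻¹ * n⁻¹ = g * (c g * n * (c g)⁻¹ * n⁻¹) * g⁻¹ * (g * n * g⁻¹ * n⁻¹) := by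
        rw [h6]
        calc g * c g * m * n * (g * c g * m)⁻¹ * n⁻¹
            = g * c g * (m * n * m⁻¹) * (c g)⁻¹ * g⁻¹ * n⁻¹ := by group
          _ = g * c g * n * (c g)⁻¹ * g⁻¹ * n⁻¹ := by rw [h7]
          _ = g * (c g * n * (c g)⁻¹ * n⁻¹) * g⁻¹ * (g * n * g⁻¹ * n⁻¹) := by group
      rw [h8]
      refine M.mul_mem (hDM g _ ?_) (ih g hg n hn)
      -- c n c⁻¹ n⁻¹ ∈ DD
      refine ⟨c g * n * (c g)⁻¹, hconj _ _ hn, ?_⟩
      calc c g * n * (c g)⁻¹ * n⁻¹ = n⁻¹ * (c g * n * (c g)⁻¹) :=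
            hN _ (hconj _ _ hn) _ (N.inv_mem hn)
        _ = (c g)⁻¹ * (c g * n * (c g)⁻¹)⁻¹ * c g * (c g * n * (c g)⁻¹) := by group
  have hle : ⁅(⊤ : Subgroup G), N⁆ ≤ M := by
    rw [Subgroup.commutator_le]
    intro g _ n hn
    rw [commutatorElement_def]
    obtain ⟨i, hi⟩ := (hτ2 1 (g : G ⧸ N)).exists_nat_pow_eq
    exact hcomM i g hi.symm n hn
  intro n hn
  exact (hle (hcomm hn)).2

/-- **Step B.** central extension with a flexible label -/
theorem stepB (K : Subgroup G) [K.Normal] (hK : ∀ k ∈ K, ∀ g : G, g * k = k * g) (A : Set G)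
    (τ : Perm (G ⧸ K)) (hτ : ∀ p q, τ.SameCycle p q) (c : G ⧸ K → G)
    (hc : ∀ q, ((c q : G) : G ⧸ K) = q⁻¹ * τ q) (hcA : ∀ q, c q ∈ A)
    (q₀ : G ⧸ K) (hflex : ∀ k ∈ K, c q₀ * k ∈ A) : Ham G A := by
  classical
  have hconj : ∀ (g : G), ∀ k ∈ K, g * k * g⁻¹ = k := by
    intro g k hk
    rw [hK k hk g, mul_inv_cancel_right]
  have hconj' : ∀ (g : G), ∀ k ∈ K, g⁻¹ * k * g = k := by
    intro g k hk
    have := hconj g⁻¹ k hk
    rwa [inv_inv] at this
  obtain ⟨σ, h1, h2, h3, h4⟩ := lift K τ hτ c hc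
    (fun q => if q = q₀ then K else ⊥)
    (by
      intro q
      split_ifs
      · exact le_rfl
      · exact bot_le)
    (by
      intro q d hd
      split_ifs at hd ⊢
      · rw [hconj _ _ hd]; exact hd
      · rw [Subgroup.mem_bot] at hd ⊢
        rw [hd]; group)
    (by
      intro q d hd
      split_ifs at hd ⊢
      · rw [hconj' _ _ hd]; exact hd
      · rw [Subgroup.mem_bot] at hd ⊢
        rw [hd]; group)
    A
    (by
      intro q d hd
      split_ifs at hd with h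
      · rw [h]; exact hflex d hd
      · rw [Subgroup.mem_bot] at hd
        rw [hd, mul_one]
        exact hcA q)
  refine ⟨σ, h1, transitive_of_lift K τ hτ σ h2 ?_⟩
  intro n hn
  apply h4 n hn
  refine ⟨q₀, fun g hg => ?_⟩
  rw [← hK n hn g]
  apply h3
  rw [hg, if_pos rfl]
  exact hn

/-! ### the abelian case -/

/-- rotation of one fiber -/
def rho (C : Subgroup G) [C.Normal] [DecidableEq (G ⧸ C)] (q : G ⧸ C) (b : G) (hb : b ∈ C) :
    Perm G where
  toFun x := if (x : G ⧸ C) = q then x * b else x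
  invFun x := if (x : G ⧸ C) = q then x * b⁻¹ else x
  left_inv x := by
    have h1 : ∀ y : G, ((y * b : G) : G ⧸ C) = y := fun y => by
      rw [QuotientGroup.mk_mul, (QuotientGroup.eq_one_iff b).2 hb, mul_one]
    dsimp only
    by_cases h : (x : G ⧸ C) = q
    · rw [if_pos h, if_pos (by rw [h1, h]), mul_inv_cancel_right]
    · rw [if_neg h, if_neg h]
  right_inv x := by
    have h1 : ∀ y : G, ((y * b⁻¹ : G) : G ⧸ C) = y := fun y => by
      rw [QuotientGroup.mk_mul, (QuotientGroup.eq_one_iff b⁻¹).2 (C.inv_mem hb), mul_one]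
    dsimp only
    by_cases h : (x : G ⧸ C) = q
    · rw [if_pos h, if_pos (by rw [h1, h]), inv_mul_cancel_right]
    · rw [if_neg h, if_neg h]

omit [Finite G] in
lemma rho_pos (C : Subgroup G) [C.Normal] [DecidableEq (G ⧸ C)] (q : G ⧸ C) (b : G) (hb : b ∈ C)
    {x : G} (h : (x : G ⧸ C) = q) : rho C q b hb x = x * b := by
  show (if (x : G ⧸ C) = q then x * b else x) = x * b
  rw [if_pos h]

omit [Finite G] in
lemma rho_neg (C : Subgroup G) [C.Normal] [DecidableEq (G ⧸ C)] (q : G ⧸ C) (b : G) (hb : b ∈ C)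
    {x : G} (h : (x : G ⧸ C) ≠ q) : rho C q b hb x = x := by
  show (if (x : G ⧸ C) = q then x * b else x) = x
  rw [if_neg h]

omit [Finite G] in
lemma rho_same (C : Subgroup G) [C.Normal] [DecidableEq (G ⧸ C)] (q : G ⧸ C) (b : G) (hb : b ∈ C)
    {x : G} (h : (x : G ⧸ C) = q) (k : ℤ) : (rho C q b hb).SameCycle x (x * b ^ k) := by
  have hbk : ∀ k : ℤ, ((x * b ^ k : G) : G ⧸ C) = q := fun k => by
    rw [QuotientGroup.mk_mul, (QuotientGroup.eq_one_iff _).2 (C.zpow_mem hb k), mul_one, h]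
  induction k using Int.induction_on with
  | zero => rw [zpow_zero, mul_one]
  | succ k ih =>
    have h1 : (rho C q b hb) (x * b ^ (k : ℤ)) = x * b ^ ((k : ℤ) + 1) := by
      rw [rho_pos C q b hb (hbk k), mul_assoc, ← zpow_add_one]
    rw [← h1]
    exact sameCycle_apply_right.2 ih
  | pred k ih =>
    have h1 : (rho C q b hb) (x * b ^ (-(k : ℤ) - 1)) = x * b ^ (-(k : ℤ)) := by
      rw [rho_pos C q b hb (hbk _), mul_assoc, ← zpow_add_one, sub_add_cancel]
    rw [← h1] at ih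
    exact sameCycle_apply_right.1 ih

theorem snake (hcomm : ∀ x y : G, x * y = y * x) (a : G) (ha1 : a ≠ 1)
    (A : Set G) (ha : a ∈ A) (hinv : ∀ x ∈ A, x⁻¹ ∈ A)
    (C : Subgroup G) [C.Normal] (hCdef : C = Subgroup.zpowers a)
    (τ : Perm (G ⧸ C)) (hτ : ∀ p q, τ.SameCycle p q) (c : G ⧸ C → G)
    (hc : ∀ q, ((c q : G) : G ⧸ C) = q⁻¹ * τ q) (hcA : ∀ q, c q ∈ A) : Ham G A := by
  classical
  have haC : a ∈ C := by rw [hCdef]; exact Subgroup.mem_zpowers a
  -- the period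
  have hex : ∃ m : ℕ, 0 < m ∧ (τ ^ m) (1 : G ⧸ C) = 1 :=
    ⟨orderOf τ, orderOf_pos τ, by rw [pow_orderOf_eq_one]; rfl⟩
  obtain ⟨m, ⟨hm0, hm1⟩, hmin⟩ : ∃ m : ℕ, (0 < m ∧ (τ ^ m) (1 : G ⧸ C) = 1) ∧
      ∀ j, j < m → ¬ (0 < j ∧ (τ ^ j) (1 : G ⧸ C) = 1) :=
    ⟨Nat.find hex, Nat.find_spec hex, fun j hj => Nat.find_min hex hj⟩
  have hinj : ∀ i j, j ≤ i → i + 1 < m → (τ ^ (i + 1)) (1 : G ⧸ C) ≠ (τ ^ j) 1 := by
    intro i j hj hi heq
    refine hmin (i + 1 - j) (by omega) ⟨by omega, ?_⟩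
    have h1 : (τ ^ (i + 1)) (1 : G ⧸ C) = (τ ^ j) ((τ ^ (i + 1 - j)) 1) := by
      rw [← Perm.mul_apply, ← pow_add]
      congr 2
      omega
    rw [h1] at heq
    exact (τ ^ j).injective heq
  let U : ℕ → Set G := fun i => {g | ∃ j ≤ i, (g : G ⧸ C) = (τ ^ j) 1}
  have hfib : ∀ (x b : G), b ∈ C → ((x * b : G) : G ⧸ C) = x := fun x b hb => by
    rw [QuotientGroup.mk_mul, (QuotientGroup.eq_one_iff b).2 hb, mul_one]
  -- stages
  have stage : ∀ i, i < m → ∃ σ : Perm G, (∀ g ∈ U i, g⁻¹ * σ g ∈ A) ∧ (∀ g ∈ U i, σ g ∈ U i) ∧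
      (∀ g, g ∉ U i → σ g = g) ∧ (∀ g ∈ U i, ∀ h ∈ U i, σ.SameCycle g h) ∧
      ∃ y : G, (y : G ⧸ C) = (τ ^ i) 1 ∧ ∃ b : G, (b = a ∨ b = a⁻¹) ∧ σ y = y * b := by
    intro i
    induction i with
    | zero =>
      intro _
      have hU0 : ∀ g, g ∈ U 0 ↔ (g : G ⧸ C) = 1 := by
        intro g
        constructor
        · rintro ⟨j, hj, hg⟩
          have : j = 0 := by omega
          subst this
          exact hg
        · intro hg
          exact ⟨0, le_rfl, hg⟩
      refine ⟨rho C (1 : G ⧸ C) a haC, ?_, ?_, ?_, ?_, 1, rfl, a, Or.inl rfl, ?_⟩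
      · intro g hg
        rw [hU0] at hg
        rw [rho_pos C _ a haC hg, inv_mul_cancel_left]
        exact ha
      · intro g hg
        rw [hU0] at hg ⊢
        rw [rho_pos C _ a haC hg, hfib _ _ haC, hg]
      · intro g hg
        rw [hU0] at hg
        exact rho_neg C _ a haC hg
      · intro g hg h hh
        rw [hU0] at hg hh
        have h1 : g⁻¹ * h ∈ C := QuotientGroup.eq.1 (by rw [hg, hh])
        rw [hCdef] at h1
        obtain ⟨k, hk⟩ := Subgroup.mem_zpowers_iff.1 h1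
        have h2 : h = g * a ^ k := by rw [hk]; group
        rw [h2]
        exact rho_same C _ a haC hg k
      · exact rho_pos C _ a haC (x := (1 : G)) rfl
    | succ i ih =>
      intro hi
      obtain ⟨σ, h1, h2, h3, h4, y, hy, b, hb, hyb⟩ := ih (by omega)
      have hbC : b ∈ C := by
        rcases hb with rfl | rfl
        · exact haC
        · exact C.inv_mem haC
      have hbA : b⁻¹ ∈ A := by
        rcases hb with rfl | rfl
        · exact hinv _ ha
        · rw [inv_inv]; exact ha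
      have hb1 : b ≠ 1 := by
        rcases hb with rfl | rfl
        · exact ha1
        · exact inv_ne_one.2 ha1
      have hbC' : b⁻¹ ∈ C := C.inv_mem hbC
      set q : G ⧸ C := (τ ^ i) 1 with hq
      have hq' : (τ ^ (i + 1)) (1 : G ⧸ C) = τ q := by rw [pow_succ' τ i]; rfl
      set s := c q with hs
      have hsA : s ∈ A := hcA q
      have hsq : (s : G ⧸ C) = q⁻¹ * τ q := hc q
      set x := y * b * s with hx
      have hxq : (x : G ⧸ C) = τ q := by
        rw [hx, QuotientGroup.mk_mul, hfib _ _ hbC, hy, hsq, mul_inv_cancel_left]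
      have hUq : ∀ g ∈ U i, (g : G ⧸ C) ≠ τ q := by
        rintro g ⟨j, hj, hg⟩ h5
        exact hinj i j hj hi (by rw [hq', ← h5, hg])
      have hyU : y ∈ U i := ⟨i, le_rfl, hy⟩
      have hxU : x ∉ U i := fun h => hUq x h hxq
      have hU1 : ∀ g, g ∈ U (i + 1) ↔ g ∈ U i ∨ (g : G ⧸ C) = τ q := by
        intro g
        constructor
        · rintro ⟨j, hj, hg⟩
          rcases Nat.lt_or_ge i j with h | h
          · right
            have : j = i + 1 := by omega
            rw [hg, this, hq']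
          · left
            exact ⟨j, h, hg⟩
        · rintro (⟨j, hj, hg⟩ | hg)
          · exact ⟨j, by omega, hg⟩
          · exact ⟨i + 1, le_rfl, by rw [hg, hq']⟩
      set ρ := rho C (τ q) b⁻¹ hbC' with hρ
      set σ₁ : Perm G := σ * ρ with hσ₁
      have e1 : ∀ z ∈ U i, σ₁ z = σ z := by
        intro z hz
        show σ (ρ z) = σ z
        rw [hρ, rho_neg C _ _ hbC' (hUq z hz)]
      have e2 : ∀ z : G, (z : G ⧸ C) = τ q → σ₁ z = z * b⁻¹ := by
        intro z hz
        show σ (ρ z) = z * b⁻¹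
        rw [hρ, rho_pos C _ _ hbC' hz]
        apply h3
        intro h5
        exact hUq _ h5 (by rw [hfib _ _ hbC', hz])
      have e3 : ∀ z, z ∉ U i → (z : G ⧸ C) ≠ τ q → σ₁ z = z := by
        intro z hz hz'
        show σ (ρ z) = z
        rw [hρ, rho_neg C _ _ hbC' hz', h3 z hz]
      have s1 : ∀ u v, σ.SameCycle u v → σ₁.SameCycle u v := by
        intro u v huv
        refine sameCycle_of_step (fun z => ?_) huv
        by_cases hz : z ∈ U i
        · rw [← e1 z hz]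
          exact sameCycle_apply_right.2 (SameCycle.refl _ _)
        · rw [h3 z hz]
      have s2 : ∀ u v, ρ.SameCycle u v → σ₁.SameCycle u v := by
        intro u v huv
        refine sameCycle_of_step (fun z => ?_) huv
        by_cases hz : (z : G ⧸ C) = τ q
        · rw [hρ, rho_pos C _ _ hbC' hz, ← e2 z hz]
          exact sameCycle_apply_right.2 (SameCycle.refl _ _)
        · rw [hρ, rho_neg C _ _ hbC' hz]
      have hns : ¬ σ₁.SameCycle y x := by
        intro hcon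
        obtain ⟨k, hk⟩ := hcon.exists_nat_pow_eq
        have : ∀ k : ℕ, (σ₁ ^ k) y ∈ U i := by
          intro k
          induction k with
          | zero => exact hyU
          | succ k ihk =>
            rw [pow_succ' σ₁ k]
            show σ₁ ((σ₁ ^ k) y) ∈ U i
            rw [e1 _ ihk]
            exact h2 _ ihk
        exact hxU (hk ▸ this k)
      obtain ⟨m1, m2⟩ := merge σ₁ y x hns
      set σ₂ : Perm G := σ₁ * swap y x with hσ₂
      have f1 : σ₂ y = y * s := by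
        show σ₁ (swap y x y) = y * s
        rw [swap_apply_left, e2 x hxq, hx, hcomm (y * b) s]
        rw [← mul_assoc, mul_inv_cancel_right, hcomm s y]
      have f2 : σ₂ x = y * b := by
        show σ₁ (swap y x x) = y * b
        rw [swap_apply_right, e1 y hyU, hyb]
      have f3 : ∀ z, z ≠ y → z ≠ x → σ₂ z = σ₁ z := by
        intro z hz1 hz2
        show σ₁ (swap y x z) = σ₁ z
        rw [swap_apply_of_ne_of_ne hz1 hz2]
      have hysq : ((y * s : G) : G ⧸ C) = τ q := by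
        rw [QuotientGroup.mk_mul, hy, hsq, mul_inv_cancel_left]
      refine ⟨σ₂, ?_, ?_, ?_, ?_, y * s, ?_, b⁻¹, ?_, ?_⟩
      · intro g hg
        by_cases g1 : g = y
        · subst g1
          rw [f1, inv_mul_cancel_left]
          exact hsA
        by_cases g2 : g = x
        · rw [g2, f2]
          have : x⁻¹ * (y * b) = s⁻¹ := by rw [hx]; group
          rw [this]
          exact hinv _ hsA
        rw [f3 g g1 g2]
        rcases (hU1 g).1 hg with h5 | h5
        · rw [e1 g h5]; exact h1 g h5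
        · rw [e2 g h5, inv_mul_cancel_left]; exact hbA
      · intro g hg
        rw [hU1]
        by_cases g1 : g = y
        · subst g1
          right
          rw [f1, hysq]
        by_cases g2 : g = x
        · left
          rw [g2, f2, ← hyb]
          exact h2 y hyU
        rw [f3 g g1 g2]
        rcases (hU1 g).1 hg with h5 | h5
        · left; rw [e1 g h5]; exact h2 g h5
        · right; rw [e2 g h5, hfib _ _ hbC', h5]
      · intro g hg
        rw [hU1, not_or] at hg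
        have g1 : g ≠ y := fun h5 => hg.1 (h5 ▸ hyU)
        have g2 : g ≠ x := fun h5 => hg.2 (h5 ▸ hxq)
        rw [f3 g g1 g2, e3 g hg.1 hg.2]
      · -- everything is in the cycle of y
        have all : ∀ g ∈ U (i + 1), σ₂.SameCycle y g := by
          intro g hg
          rcases (hU1 g).1 hg with h5 | h5
          · exact m1 _ _ (s1 _ _ (h4 y hyU g h5))
          · have h6 : x⁻¹ * g ∈ C := QuotientGroup.eq.1 (by rw [hxq, h5])
            rw [hCdef] at h6
            obtain ⟨k, hk⟩ := Subgroup.mem_zpowers_iff.1 h6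
            have h7 : ∃ k' : ℤ, g = x * (b⁻¹) ^ k' := by
              rcases hb with rfl | rfl
              · refine ⟨-k, ?_⟩
                rw [inv_zpow, zpow_neg, inv_inv, hk]; group
              · refine ⟨k, ?_⟩
                rw [inv_inv, hk]; group
            obtain ⟨k', hk'⟩ := h7
            have h8 : ρ.SameCycle x g := by
              rw [hk', hρ]
              exact rho_same C _ _ hbC' hxq k'
            exact m2.trans (m1 _ _ (s2 _ _ h8))
        intro g hg h hh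
        exact (all g hg).symm.trans (all h hh)
      · rw [hysq, hq']
      · rcases hb with rfl | rfl
        · right; rfl
        · left; rw [inv_inv]
      · have g1 : y * s ≠ y := by
          intro h5
          apply hUq y hyU
          rw [← hysq, h5]
        have g2 : y * s ≠ x := by
          intro h5
          rw [hx, mul_assoc, hcomm b s, ← mul_assoc] at h5
          exact hb1 (mul_eq_left.1 h5.symm)
        rw [f3 _ g1 g2, e2 _ hysq]
  obtain ⟨σ, h1, h2, h3, h4, -⟩ := stage (m - 1) (by omega)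
  have hall : ∀ g : G, g ∈ U (m - 1) := by
    intro g
    obtain ⟨n, hn⟩ := (hτ (1 : G ⧸ C) (g : G ⧸ C)).exists_nat_pow_eq
    refine ⟨n % m, ?_, ?_⟩
    · have := Nat.mod_lt n hm0
      omega
    · rw [← hn]
      conv_lhs => rw [← Nat.mod_add_div n m, pow_add, pow_mul]
      rw [Perm.mul_apply]
      have : ∀ t : ℕ, ((τ ^ m) ^ t) (1 : G ⧸ C) = 1 := by
        intro t
        induction t with
        | zero => rfl
        | succ t iht => rw [pow_succ, Perm.mul_apply, hm1, iht]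
      rw [this]
  exact ⟨σ, fun g => h1 g (hall g), fun x y => h4 x (hall x) y (hall y)⟩

end Steps

end Pool.Agent.X72.HamCayley
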