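import Mathlib
import Pool.Agent.X72.HamCayley

/-! Normal Cayley graphs: the induction. -/

namespace Pool.Agent.X72.HamCayley

open Equiv Equiv.Perm
open scoped commutatorElement

universe u

/-- every nonabelian quotient `G/N` has a noncentral abelian normal subgroup `M/N`. -/
def Reducible (G : Type u) [Group G] : Prop :=
  ∀ N : Subgroup G, N.Normal → (∃ x y : G, ⁅x, y⁆ ∉ N) →
    ∃ M : Subgroup G, M.Normal ∧ N ≤ M ∧ (∀ x ∈ M, ∀ y ∈ M, ⁅x, y⁆ ∈ N) ∧
      ∃ x ∈ M, ∃ g : G, ⁅x, g⁆ ∉ N

lemma Reducible.quotient {G : Type u} [Group G] (h : Reducible G) (L : Subgroup G) [L.Normal] :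
    Reducible (G ⧸ L) := by
  intro N' hN' hex
  have hNn : (N'.comap (QuotientGroup.mk' L)).Normal := hN'.comap _
  obtain ⟨x', y', hxy⟩ := hex
  obtain ⟨x, rfl⟩ := QuotientGroup.mk'_surjective L x'
  obtain ⟨y, rfl⟩ := QuotientGroup.mk'_surjective L y'
  have hxy' : ⁅x, y⁆ ∉ N'.comap (QuotientGroup.mk' L) := by
    rw [Subgroup.mem_comap, map_commutatorElement]
    exact hxy
  obtain ⟨M, hM, hNM, hab, x₀, hx₀, g₀, hx₀g⟩ := h _ hNn ⟨x, y, hxy'⟩
  refine ⟨M.map (QuotientGroup.mk' L), hM.map _ (QuotientGroup.mk'_surjective L), ?_, ?_, ?_⟩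
  · intro z hz
    obtain ⟨w, rfl⟩ := QuotientGroup.mk'_surjective L z
    exact Subgroup.mem_map_of_mem _ (hNM (Subgroup.mem_comap.2 hz))
  · rintro _ ⟨a, ha, rfl⟩ _ ⟨b, hb, rfl⟩
    rw [← map_commutatorElement]
    exact Subgroup.mem_comap.1 (hab a ha b hb)
  · refine ⟨_, Subgroup.mem_map_of_mem _ hx₀, QuotientGroup.mk' L g₀, ?_⟩
    rw [← map_commutatorElement]
    exact fun h => hx₀g (Subgroup.mem_comap.2 h)

lemma card_quot_lt {G : Type u} [Group G] [Finite G] (L : Subgroup G) (hL : L ≠ ⊥) :
    Nat.card (G ⧸ L) < Nat.card G := by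
  have h1 := Subgroup.card_eq_card_quotient_mul_card_subgroup L
  have h2 : 1 < Nat.card L := (Subgroup.one_lt_card_iff_ne_bot L).2 hL
  have h3 : 0 < Nat.card (G ⧸ L) := Nat.card_pos
  rw [h1]
  nlinarith

structure Good {G : Type u} [Group G] (A : Set G) : Prop where
  inv : ∀ a ∈ A, a⁻¹ ∈ A
  conj : ∀ a ∈ A, ∀ g : G, g * a * g⁻¹ ∈ A
  gen : Subgroup.closure A = ⊤
  ne : A.Nonempty

lemma Good.image {G : Type u} [Group G] {A : Set G} (h : Good A) (L : Subgroup G) [L.Normal] :
    Good ((QuotientGroup.mk' L) '' A) where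
  inv := by
    rintro _ ⟨a, ha, rfl⟩
    exact ⟨a⁻¹, h.inv a ha, map_inv _ _⟩
  conj := by
    rintro _ ⟨a, ha, rfl⟩ g'
    obtain ⟨g, rfl⟩ := QuotientGroup.mk'_surjective L g'
    refine ⟨g * a * g⁻¹, h.conj a ha g, ?_⟩
    rw [map_mul, map_mul, map_inv]
  gen := by
    rw [← MonoidHom.map_closure, h.gen, ← MonoidHom.range_eq_map, MonoidHom.range_eq_top]
    exact QuotientGroup.mk'_surjective L
  ne := h.ne.image _

lemma conj_pow_central {G : Type u} [Group G] {b y z : G} (hz : ∀ g : G, g * z = z * g)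
    (hb : y⁻¹ * b * y = b * z) (i : ℤ) : y ^ (-i) * b * y ^ i = b * z ^ i := by
  have hz' : ∀ (j : ℤ) (g : G), g * z ^ j = z ^ j * g := fun j g => by
    have : Commute g z := hz g
    exact (this.zpow_right j)
  induction i using Int.induction_on with
  | zero => simp
  | succ i ih =>
    calc y ^ (-((i : ℤ) + 1)) * b * y ^ ((i : ℤ) + 1)
        = y⁻¹ * (y ^ (-(i : ℤ)) * b * y ^ (i : ℤ)) * y := by group
      _ = y⁻¹ * (b * z ^ (i : ℤ)) * y := by rw [ih]
      _ = y⁻¹ * b * (z ^ (i : ℤ) * y) := by group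
      _ = y⁻¹ * b * (y * z ^ (i : ℤ)) := by rw [hz']
      _ = (y⁻¹ * b * y) * z ^ (i : ℤ) := by group
      _ = b * z * z ^ (i : ℤ) := by rw [hb]
      _ = b * z ^ ((i : ℤ) + 1) := by group
  | pred i ih =>
    have hb' : b = y * (b * z) * y⁻¹ := by rw [← hb]; group
    have hb2 : y * b * y⁻¹ = b * z⁻¹ := by
      have h1 : y * (b * z) * y⁻¹ = y * b * y⁻¹ * z := by
        calc y * (b * z) * y⁻¹ = y * b * (z * y⁻¹) := by group
          _ = y * b * (y⁻¹ * z) := by rw [hz y⁻¹]
          _ = y * b * y⁻¹ * z := by group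
      rw [h1] at hb'
      rw [eq_mul_inv_iff_mul_eq, ← hb']
    calc y ^ (-(-(i : ℤ) - 1)) * b * y ^ (-(i : ℤ) - 1)
        = y * (y ^ (-(-(i : ℤ))) * b * y ^ (-(i : ℤ))) * y⁻¹ := by group
      _ = y * (b * z ^ (-(i : ℤ))) * y⁻¹ := by rw [ih]
      _ = y * b * (z ^ (-(i : ℤ)) * y⁻¹) := by group
      _ = y * b * (y⁻¹ * z ^ (-(i : ℤ))) := by rw [hz']
      _ = (y * b * y⁻¹) * z ^ (-(i : ℤ)) := by group
      _ = b * z⁻¹ * z ^ (-(i : ℤ)) := by rw [hb2]
      _ = b * z ^ (-(i : ℤ) - 1) := by group

theorem main : ∀ n : ℕ, ∀ (G : Type u) [Group G] [Finite G], Nat.card G = n → Reducible G →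
    ∀ A : Set G, Good A → Ham G A := by
  intro n
  induction n using Nat.strong_induction_on with
  | _ n ih =>
    intro G _ _ hn hG A hA
    classical
    by_cases hcomm : ∀ x y : G, x * y = y * x
    · -- abelian case
      by_cases htriv : ∀ a ∈ A, a = 1
      · have hbot : (⊤ : Subgroup G) = ⊥ := by
          rw [← hA.gen, Subgroup.closure_eq_bot_iff]
          intro a ha
          exact htriv a ha
        have hsub : ∀ x y : G, x = y := by
          intro x y
          have hx : x ∈ (⊥ : Subgroup G) := hbot ▸ Subgroup.mem_top x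
          have hy : y ∈ (⊥ : Subgroup G) := hbot ▸ Subgroup.mem_top y
          rw [Subgroup.mem_bot] at hx hy
          rw [hx, hy]
        obtain ⟨a, ha⟩ := hA.ne
        refine ⟨1, fun g => ?_, fun x y => ?_⟩
        · rw [hsub (g⁻¹ * (1 : Perm G) g) a]; exact ha
        · rw [hsub x y]
      · push Not at htriv
        obtain ⟨a, ha, ha1⟩ := htriv
        have hnorm : (Subgroup.zpowers a).Normal := ⟨fun n hn g => by
          rw [hcomm g n, mul_inv_cancel_right]; exact hn⟩
        have hlt := card_quot_lt (Subgroup.zpowers a) (by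
          rw [Ne, Subgroup.zpowers_eq_bot]; exact ha1)
        obtain ⟨τ, hτ1, hτ2⟩ := ih _ (hn ▸ hlt) (G ⧸ Subgroup.zpowers a) rfl (hG.quotient _) _
          (hA.image (Subgroup.zpowers a))
        obtain ⟨c, hc1, hc2⟩ := choose_labels _ A τ hτ1
        exact snake hcomm a ha1 A ha hA.inv (Subgroup.zpowers a) rfl τ hτ2 c hc1 hc2
    · -- nonabelian
      have hex : ∃ x y : G, ⁅x, y⁆ ∉ (⊥ : Subgroup G) := by
        by_contra hcon
        push Not at hcon
        apply hcomm
        intro x y
        have := hcon x y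
        rw [Subgroup.mem_bot, commutatorElement_eq_one_iff_mul_comm] at this
        exact this
      obtain ⟨M, hM, -, hab, x₀, hx₀, g₀, hxg⟩ := hG ⊥ inferInstance hex
      -- a minimal noncentral normal subgroup of M
      have hfam : {L : Subgroup G | L.Normal ∧ L ≤ M ∧ ∃ x ∈ L, ∃ g : G, g * x ≠ x * g}.Nonempty := by
        refine ⟨M, hM, le_rfl, x₀, hx₀, g₀, fun h => hxg ?_⟩
        rw [Subgroup.mem_bot, commutatorElement_eq_one_iff_mul_comm]
        exact h.symm
      obtain ⟨L, ⟨hLn, hLM, x₁, hx₁, g₁, hxg₁⟩, hLmin⟩ := Set.exists_min_image _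
        (fun L : Subgroup G => Nat.card L) (Set.toFinite _) hfam
      have hLab : ∀ a ∈ L, ∀ b ∈ L, a * b = b * a := by
        intro a ha b hb
        have := hab a (hLM ha) b (hLM hb)
        rw [Subgroup.mem_bot, commutatorElement_eq_one_iff_mul_comm] at this
        exact this
      have hle : ⁅(⊤ : Subgroup G), L⁆ ≤ L := Subgroup.commutator_le_right _ _
      by_cases hLL : L ≤ ⁅(⊤ : Subgroup G), L⁆
      · -- step A
        have hLbot : L ≠ ⊥ := by
          rintro rfl
          rw [Subgroup.mem_bot] at hx₁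
          apply hxg₁
          rw [hx₁, mul_one, one_mul]
        exact stepA L hLab hLL A hA.conj (ih _ (hn ▸ card_quot_lt L hLbot) (G ⧸ L) rfl (hG.quotient _) _
          (hA.image L))
      · -- step B
        have hcen : ∀ z ∈ ⁅(⊤ : Subgroup G), L⁆, ∀ g : G, g * z = z * g := by
          by_contra hcon
          push Not at hcon
          obtain ⟨z, hz, g, hg⟩ := hcon
          have hnorm : (⁅(⊤ : Subgroup G), L⁆).Normal := inferInstance
          have := hLmin _ ⟨hnorm, hle.trans hLM, z, hz, g, hg⟩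
          have hlt : Nat.card (⁅(⊤ : Subgroup G), L⁆ : Subgroup G) < Nat.card L := by
            have h1 : (⁅(⊤ : Subgroup G), L⁆ : Subgroup G) < L := lt_of_le_not_ge hle hLL
            exact Set.ncard_lt_ncard h1 (Set.toFinite _)
          omega
        set y := x₁ with hy
        have hyc : ∀ g : G, ∀ h : G, h * (g⁻¹ * y⁻¹ * g * y) = (g⁻¹ * y⁻¹ * g * y) * h := by
          intro g h
          apply hcen
          have h1 : ⁅g⁻¹, y⁻¹⁆ ∈ ⁅(⊤ : Subgroup G), L⁆ :=
            Subgroup.commutator_mem_commutator (Subgroup.mem_top _) (L.inv_mem hx₁)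
          rw [commutatorElement_def, inv_inv, inv_inv] at h1
          exact h1
        -- a minimal generating conjugation closed subset
        obtain ⟨B, ⟨hBA, hB⟩, hBmin⟩ := Set.exists_min_image {B : Set G | B ⊆ A ∧ Good B}
          (fun B => B.ncard) (Set.toFinite _) ⟨A, subset_rfl, hA⟩
        apply Ham.mono _ hBA
        -- some b ∈ B does not commute with y
        obtain ⟨b, hb, hby⟩ : ∃ b ∈ B, b * y ≠ y * b := by
          by_contra hcon
          push Not at hcon
          have h1 : Subgroup.closure B ≤ Subgroup.centralizer {y} := by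
            rw [Subgroup.closure_le]
            intro b hb
            rw [SetLike.mem_coe, Subgroup.mem_centralizer_iff]
            intro w hw
            rw [Set.mem_singleton_iff] at hw
            rw [hw]
            exact (hcon b hb).symm
          rw [hB.gen] at h1
          have h2 := h1 (Subgroup.mem_top g₁)
          rw [Subgroup.mem_centralizer_iff] at h2
          exact hxg₁ (h2 y rfl).symm
        set z := b⁻¹ * y⁻¹ * b * y with hz
        have hzc : ∀ g : G, g * z = z * g := fun g => hyc b g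
        have hz1 : z ≠ 1 := by
          intro h
          apply hby
          have : b * y = y * b * (b⁻¹ * y⁻¹ * b * y) := by group
          rw [this, ← hz, h, mul_one]
        have hbz : y⁻¹ * b * y = b * z := by rw [hz]; group
        have hKc : ∀ k ∈ Subgroup.zpowers z, ∀ g : G, g * k = k * g := by
          intro k hk g
          obtain ⟨i, rfl⟩ := Subgroup.mem_zpowers_iff.1 hk
          have : Commute g z := hzc g
          exact this.zpow_right i
        have hKn : (Subgroup.zpowers z).Normal := ⟨fun k hk g => by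
          rw [hKc k hk g, mul_inv_cancel_right]; exact hk⟩
        have hlt := card_quot_lt (Subgroup.zpowers z) (by rw [Ne, Subgroup.zpowers_eq_bot]; exact hz1)
        obtain ⟨τ, hτ1, hτ2⟩ := ih _ (hn ▸ hlt) (G ⧸ Subgroup.zpowers z) rfl (hG.quotient _) _
          (hB.image (Subgroup.zpowers z))
        obtain ⟨c, hc1, hc2⟩ := choose_labels _ B τ hτ1
        -- a flexible label
        have hflex : ∃ q₀ : G ⧸ Subgroup.zpowers z, ∃ g : G, c q₀ = g * b * g⁻¹ ∨ c q₀ = g * b⁻¹ * g⁻¹ := by
          by_contra hcon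
          push Not at hcon
          set B' : Set G := {x | x ∈ B ∧ ∀ g : G, x ≠ g * b * g⁻¹ ∧ x ≠ g * b⁻¹ * g⁻¹} with hB'
          have hcB' : ∀ q, c q ∈ B' := fun q => ⟨hc2 q, fun g => hcon q g⟩
          have hB'inv : ∀ a ∈ B', a⁻¹ ∈ B' := by
            rintro a ⟨ha, ha'⟩
            refine ⟨hB.inv a ha, fun g => ⟨fun h => (ha' g).2 ?_, fun h => (ha' g).1 ?_⟩⟩
            · rw [← inv_inv a, h]; group
            · rw [← inv_inv a, h]; group
          have hB'conj : ∀ a ∈ B', ∀ g : G, g * a * g⁻¹ ∈ B' := by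
            rintro a ⟨ha, ha'⟩ g
            refine ⟨hB.conj a ha g, fun h => ⟨fun h1 => (ha' (g⁻¹ * h)).1 ?_,
              fun h1 => (ha' (g⁻¹ * h)).2 ?_⟩⟩
            · calc a = g⁻¹ * (g * a * g⁻¹) * g := by group
                _ = _ := by rw [h1]; group
            · calc a = g⁻¹ * (g * a * g⁻¹) * g := by group
                _ = _ := by rw [h1]; group
          set H := Subgroup.closure B' with hH
          have hcover : ∀ i : ℕ, ∃ h ∈ H, (h : G ⧸ Subgroup.zpowers z) = (τ ^ i) 1 := by
            intro i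
            induction i with
            | zero => exact ⟨1, H.one_mem, rfl⟩
            | succ i ihi =>
              obtain ⟨h, hhH, hh⟩ := ihi
              refine ⟨h * c ((τ ^ i) 1), H.mul_mem hhH (Subgroup.subset_closure (hcB' _)), ?_⟩
              rw [QuotientGroup.mk_mul, hc1, hh, mul_inv_cancel_left, pow_succ' τ i]
              rfl
          have hdec : ∀ g : G, ∃ h ∈ H, ∃ k : G, (∀ w : G, w * k = k * w) ∧ g = h * k := by
            intro g
            obtain ⟨i, hi⟩ := (hτ2 1 (g : G ⧸ Subgroup.zpowers z)).exists_nat_pow_eq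
            obtain ⟨h, hhH, hh⟩ := hcover i
            have h1 : h⁻¹ * g ∈ Subgroup.zpowers z := QuotientGroup.eq.1 (by rw [hh, hi])
            exact ⟨h, hhH, h⁻¹ * g, hKc _ h1, by group⟩
          have hzH : z ∈ H := by
            obtain ⟨h, hhH, k, hk, hbk⟩ := hdec b
            obtain ⟨h', hhH', k', hk', hyk⟩ := hdec y
            have hki : ∀ w : G, w * k⁻¹ = k⁻¹ * w := fun w => by
              have : Commute w k := hk w
              exact this.inv_right
            have hki' : ∀ w : G, w * k'⁻¹ = k'⁻¹ * w := fun w => by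
              have : Commute w k' := hk' w
              exact this.inv_right
            have : z = h⁻¹ * h'⁻¹ * h * h' := by
              rw [hz, hbk, hyk]
              calc (h * k)⁻¹ * (h' * k')⁻¹ * (h * k) * (h' * k')
                  = k⁻¹ * (h⁻¹ * (k'⁻¹ * (h'⁻¹ * (h * (k * (h' * k')))))) := by group
                _ = (h⁻¹ * (k'⁻¹ * (h'⁻¹ * (h * (k * (h' * k')))))) * k⁻¹ := (hki _).symm
                _ = h⁻¹ * (k'⁻¹ * (h'⁻¹ * (h * (k * (h' * k')))) ) * k⁻¹ := by group
                _ = h⁻¹ * ((h'⁻¹ * (h * (k * (h' * k')))) * k'⁻¹) * k⁻¹ := by rw [hki' (h'⁻¹ * (h * (k * (h' * k'))))]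
                _ = h⁻¹ * h'⁻¹ * h * (k * h') * k⁻¹ := by group
                _ = h⁻¹ * h'⁻¹ * h * (h' * k) * k⁻¹ := by rw [hk h']
                _ = h⁻¹ * h'⁻¹ * h * h' := by group
            rw [this]
            exact H.mul_mem (H.mul_mem (H.mul_mem (H.inv_mem hhH) (H.inv_mem hhH')) hhH) hhH'
          have hHtop : H = ⊤ := by
            rw [Subgroup.eq_top_iff']
            intro g
            obtain ⟨i, hi⟩ := (hτ2 1 (g : G ⧸ Subgroup.zpowers z)).exists_nat_pow_eq
            obtain ⟨h, hhH, hh⟩ := hcover i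
            have h1 : h⁻¹ * g ∈ Subgroup.zpowers z := QuotientGroup.eq.1 (by rw [hh, hi])
            have h2 : h⁻¹ * g ∈ H := (Subgroup.zpowers_le.2 hzH) h1
            have := H.mul_mem hhH h2
            rwa [mul_inv_cancel_left] at this
          have hB'good : Good B' := ⟨hB'inv, hB'conj, hHtop, ⟨c 1, hcB' 1⟩⟩
          have hsub : B' ⊆ B := fun x hx => hx.1
          have hmin := hBmin B' ⟨hsub.trans hBA, hB'good⟩
          have hbB' : b ∉ B' := fun h => (h.2 1).1 (by group)
          have hlt' : B'.ncard < B.ncard :=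
            Set.ncard_lt_ncard ⟨hsub, fun h => hbB' (h hb)⟩ (Set.toFinite _)
          omega
        obtain ⟨q₀, g, hg⟩ := hflex
        refine stepB (Subgroup.zpowers z) hKc B τ hτ2 c hc1 hc2 q₀ ?_
        intro k hk
        obtain ⟨i, rfl⟩ := Subgroup.mem_zpowers_iff.1 hk
        have hzi : ∀ (i : ℤ) (w : G), w * z ^ i = z ^ i * w := fun i w => by
          have : Commute w z := hzc w
          exact this.zpow_right i
        rcases hg with hg | hg
        · have h1 : c q₀ * z ^ i = g * (y ^ (-i) * b * y ^ i) * g⁻¹ := by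
            rw [conj_pow_central hzc hbz i, hg, mul_assoc, hzi i g⁻¹]
            group
          rw [h1]
          apply hB.conj
          have := hB.conj b hb (y ^ (-i))
          rwa [zpow_neg, inv_inv, ← zpow_neg] at this
        · have h2 : (y ^ i * b * y ^ (-i))⁻¹ = b⁻¹ * z ^ i := by
            have := conj_pow_central hzc hbz (-i)
            rw [neg_neg] at this
            rw [this, mul_inv_rev, zpow_neg, inv_inv, ← hzi i b⁻¹]
          have h1 : c q₀ * z ^ i = g * (y ^ i * b * y ^ (-i))⁻¹ * g⁻¹ := by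
            rw [h2, hg, mul_assoc, hzi i g⁻¹]
            group
          rw [h1]
          apply hB.conj
          apply hB.inv
          have := hB.conj b hb (y ^ i)
          rwa [← zpow_neg] at this

end Pool.Agent.X72.HamCayley
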