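import Mathlib
import Pool.Agent.X72.HamCayley
import Pool.Agent.X72.HamMain

/-! Conjugation-closed generating sets: listing sequences (even Hamiltonian cycles) exist for all
finite groups every nonabelian quotient of which has a noncentral abelian normal subgroup, in
particular for all supersolvable and all abelian-by-nilpotent finite groups. -/

namespace Pool.Agent.Results.MP_688fd0_co.NormalGeneratingSets

open scoped commutatorElement
open Equiv Equiv.Perm

/-- The sequence `a_1, ..., a_n` (here `a 0, ..., a (n-1)`) is *listing*: the partial products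
`a_1 ⋯ a_k`, `1 ≤ k ≤ n`, are pairwise distinct. -/
def IsListing {G : Type*} [Group G] {n : ℕ} (a : Fin n → G) : Prop :=
  Function.Injective (fun k : Fin n => ((List.ofFn a).take (k.val + 1)).prod)

/-- `A` is a nonempty symmetric generating set closed under conjugation. -/
structure IsNormalGeneratingSet {G : Type*} [Group G] (A : Set G) : Prop where
  nonempty : A.Nonempty
  symmetric : ∀ x ∈ A, x⁻¹ ∈ A
  conj : ∀ x ∈ A, ∀ g : G, g * x * g⁻¹ ∈ A
  generates : Subgroup.closure A = ⊤

/-- For every conjugation-closed symmetric generating set `A` of `G` there is a listing sequence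
`a_1, ..., a_n` (`n = |G|`) of elements of `A`, with `a_1 ⋯ a_n = 1` in addition (that is, a
Hamiltonian cycle of the Cayley graph when `n ≥ 3`). -/
def HasNormalListings (G : Type*) [Group G] : Prop :=
  ∀ A : Set G, IsNormalGeneratingSet A →
    ∃ a : Fin (Nat.card G) → G, (∀ i, a i ∈ A) ∧ IsListing a ∧ (List.ofFn a).prod = 1

/-- Every nonabelian quotient `G/N` of `G` has an abelian normal subgroup `M/N` that is not
central in `G/N`. -/
def NonabelianQuotientsReducible (G : Type*) [Group G] : Prop :=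
  ∀ N : Subgroup G, N.Normal → (∃ x y : G, ⁅x, y⁆ ∉ N) →
    ∃ M : Subgroup G, M.Normal ∧ N ≤ M ∧ (∀ x ∈ M, ∀ y ∈ M, ⁅x, y⁆ ∈ N) ∧
      ∃ x ∈ M, ∃ g : G, ⁅x, g⁆ ∉ N

/-- `G` is supersolvable (for finite `G`): every nontrivial quotient `G/N` has a nontrivial cyclic
normal subgroup `⟨x⟩N/N`. -/
def Supersolvable (G : Type*) [Group G] : Prop :=
  ∀ N : Subgroup G, N.Normal → N ≠ ⊤ → ∃ x : G, x ∉ N ∧ (Subgroup.zpowers x ⊔ N).Normal

/-- `G` is abelian-by-nilpotent: it has an abelian normal subgroup with nilpotent quotient. -/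
def AbelianByNilpotent (G : Type*) [Group G] : Prop :=
  ∃ R : Subgroup G, ∃ _ : R.Normal, (∀ x ∈ R, ∀ y ∈ R, x * y = y * x) ∧ Group.IsNilpotent (G ⧸ R)

open Pool.Agent.X72.HamCayley

/-- from a transitive permutation to a listing sequence -/
lemma listing_of_ham {G : Type*} [Group G] [Finite G] {A : Set G} (h : Ham G A) :
    ∃ a : Fin (Nat.card G) → G, (∀ i, a i ∈ A) ∧ IsListing a ∧ (List.ofFn a).prod = 1 := by
  obtain ⟨σ, h1, h2⟩ := h
  have hex : ∃ m : ℕ, 0 < m ∧ (σ ^ m) (1 : G) = 1 :=
    ⟨orderOf σ, orderOf_pos σ, by rw [pow_orderOf_eq_one]; rfl⟩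
  obtain ⟨p, ⟨hp0, hp1⟩, hmin⟩ : ∃ m : ℕ, (0 < m ∧ (σ ^ m) (1 : G) = 1) ∧
      ∀ j, j < m → ¬ (0 < j ∧ (σ ^ j) (1 : G) = 1) := by
    classical
    exact ⟨Nat.find hex, Nat.find_spec hex, fun j hj => Nat.find_min hex hj⟩
  have hne : ∀ i j, i < j → j < i + p → (σ ^ i) (1 : G) ≠ (σ ^ j) 1 := by
    intro i j hij hj heq
    refine hmin (j - i) (by omega) ⟨by omega, ?_⟩
    have h3 : (σ ^ j) (1 : G) = (σ ^ i) ((σ ^ (j - i)) 1) := by
      rw [← Perm.mul_apply, ← pow_add]
      congr 2
      omega
    rw [h3] at heq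
    exact ((σ ^ i).injective heq).symm
  have hmod : ∀ n : ℕ, (σ ^ n) (1 : G) = (σ ^ (n % p)) 1 := by
    intro n
    conv_lhs => rw [← Nat.mod_add_div n p, pow_add, pow_mul]
    rw [Perm.mul_apply]
    have : ∀ t : ℕ, ((σ ^ p) ^ t) (1 : G) = 1 := by
      intro t
      induction t with
      | zero => rfl
      | succ t iht => rw [pow_succ, Perm.mul_apply, hp1, iht]
    rw [this]
  have hcard : Nat.card G = p := by
    have hbij : Function.Bijective (fun k : Fin p => (σ ^ k.val) (1 : G)) := by
      constructor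
      · intro i j hij
        rcases lt_trichotomy i.val j.val with h | h | h
        · exact absurd hij (hne _ _ h (by omega))
        · exact Fin.ext h
        · exact absurd hij.symm (hne _ _ h (by omega))
      · intro g
        obtain ⟨n, hn⟩ := (h2 1 g).exists_nat_pow_eq
        refine ⟨⟨n % p, Nat.mod_lt _ hp0⟩, ?_⟩
        show (σ ^ (n % p)) 1 = g
        rw [← hmod, hn]
    have := Nat.card_eq_of_bijective _ hbij
    rw [Nat.card_fin] at this
    exact this.symm
  rw [hcard]
  set a : Fin p → G := fun k => ((σ ^ k.val) 1)⁻¹ * (σ ^ (k.val + 1)) 1 with ha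
  have hprod : ∀ m, m ≤ p → ((List.ofFn a).take m).prod = (σ ^ m) 1 := by
    intro m
    induction m with
    | zero => intro _; simp
    | succ m ih =>
      intro hm
      have hlt : m < (List.ofFn a).length := by rw [List.length_ofFn]; omega
      rw [List.take_add_one, List.getElem?_eq_getElem hlt, List.prod_append, ih (by omega)]
      simp [ha]
  refine ⟨a, ?_, ?_, ?_⟩
  · intro i
    have := h1 ((σ ^ i.val) 1)
    have h3 : σ ((σ ^ i.val) 1) = (σ ^ (i.val + 1)) 1 := by rw [pow_succ' σ i.val]; rfl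
    rw [h3] at this
    exact this
  · intro i j hij
    simp only at hij
    rw [hprod _ (by omega), hprod _ (by omega)] at hij
    rcases lt_trichotomy i.val j.val with h | h | h
    · exact absurd hij (hne _ _ (by omega) (by omega))
    · exact Fin.ext h
    · exact absurd hij.symm (hne _ _ (by omega) (by omega))
  · have := hprod p le_rfl
    rw [hp1] at this
    have h3 : (List.ofFn a).take p = List.ofFn a := by
      apply List.take_of_length_le
      rw [List.length_ofFn]
    rwa [h3] at this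

theorem of_reducible (G : Type*) [Group G] [Finite G] (hG : NonabelianQuotientsReducible G) :
    HasNormalListings G := by
  intro A hA
  exact listing_of_ham (main _ G rfl hG A ⟨hA.symmetric, hA.conj, hA.generates, hA.nonempty⟩)

/-- the preimage of the centre of `G/N` -/
def Zc {G : Type*} [Group G] (N : Subgroup G) [hN : N.Normal] : Subgroup G :=
  (Subgroup.center (G ⧸ N)).comap (QuotientGroup.mk' N)

instance {G : Type*} [Group G] (N : Subgroup G) [hN : N.Normal] : (Zc N).Normal := by
  unfold Zc; infer_instance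

lemma mem_Zc {G : Type*} [Group G] (N : Subgroup G) [hN : N.Normal] {x : G} :
    x ∈ Zc N ↔ ∀ g : G, ⁅x, g⁆ ∈ N := by
  unfold Zc
  rw [Subgroup.mem_comap, Subgroup.mem_center_iff]
  constructor
  · intro h g
    have := h (QuotientGroup.mk' N g)
    rw [← QuotientGroup.eq_one_iff]
    show (QuotientGroup.mk' N) ⁅x, g⁆ = 1
    rw [map_commutatorElement, commutatorElement_eq_one_iff_mul_comm]
    exact this.symm
  · intro h g'
    obtain ⟨g, rfl⟩ := QuotientGroup.mk'_surjective N g'
    have h1 : (QuotientGroup.mk' N) ⁅x, g⁆ = 1 := (QuotientGroup.eq_one_iff _).2 (h g)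
    rw [map_commutatorElement, commutatorElement_eq_one_iff_mul_comm] at h1
    exact h1.symm

lemma le_Zc {G : Type*} [Group G] (N : Subgroup G) [hN : N.Normal] : N ≤ Zc N := by
  intro x hx
  rw [mem_Zc]
  intro g
  rw [commutatorElement_def]
  have h1 : x * g * x⁻¹ * g⁻¹ = x * (g * x⁻¹ * g⁻¹) := by group
  rw [h1]
  exact N.mul_mem hx (hN.conj_mem _ (N.inv_mem hx) g)

/-- a cyclic normal subgroup modulo the centre gives a noncentral abelian normal subgroup -/
lemma cyclic_ext {G : Type*} [Group G] (N : Subgroup G) [hN : N.Normal] (x : G) (hx : x ∉ Zc N)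
    (hn : (Subgroup.zpowers x ⊔ Zc N).Normal) :
    ∃ M : Subgroup G, M.Normal ∧ N ≤ M ∧ (∀ x ∈ M, ∀ y ∈ M, ⁅x, y⁆ ∈ N) ∧
      ∃ x ∈ M, ∃ g : G, ⁅x, g⁆ ∉ N := by
  refine ⟨Subgroup.zpowers x ⊔ Zc N, hn, (le_Zc N).trans le_sup_right, ?_, x,
    Subgroup.mem_sup_left (Subgroup.mem_zpowers x), ?_⟩
  · -- commutativity modulo N
    have key : ∀ u ∈ Subgroup.zpowers x ⊔ Zc N, ∃ k : ℤ, ∃ z : G ⧸ N,
        (∀ w : G ⧸ N, w * z = z * w) ∧ (QuotientGroup.mk' N u) = (QuotientGroup.mk' N x) ^ k * z := by
      intro u hu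
      rw [Subgroup.mem_sup_of_normal_right] at hu
      obtain ⟨v, hv, z, hz, rfl⟩ := hu
      obtain ⟨k, rfl⟩ := Subgroup.mem_zpowers_iff.1 hv
      refine ⟨k, QuotientGroup.mk' N z, ?_, ?_⟩
      · have : QuotientGroup.mk' N z ∈ Subgroup.center (G ⧸ N) := hz
        exact Subgroup.mem_center_iff.1 this
      · rw [map_mul, map_zpow]
    intro u hu v hv
    obtain ⟨k, z, hz, hu'⟩ := key u hu
    obtain ⟨l, w, hw, hv'⟩ := key v hv
    rw [← QuotientGroup.eq_one_iff]
    show (QuotientGroup.mk' N) ⁅u, v⁆ = 1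
    rw [map_commutatorElement, commutatorElement_eq_one_iff_mul_comm, hu', hv']
    have c1 : ∀ t : G ⧸ N, Commute t z := hz
    have c2 : ∀ t : G ⧸ N, Commute t w := hw
    have c3 : Commute ((QuotientGroup.mk' N x) ^ k) ((QuotientGroup.mk' N x) ^ l) :=
      (Commute.refl _).zpow_zpow k l
    exact ((c3.mul_right (c2 _)).mul_left ((c1 _).symm)).eq
  · by_contra hcon
    push Not at hcon
    exact hx ((mem_Zc N).2 hcon)

theorem supersolvable_reducible (G : Type*) [Group G] (hG : Supersolvable G) :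
    NonabelianQuotientsReducible G := by
  intro N hN hex
  have hZn : (Zc N).Normal := by unfold Zc; infer_instance
  have hZ : Zc N ≠ ⊤ := by
    intro h
    obtain ⟨x, y, hxy⟩ := hex
    have : x ∈ Zc N := h ▸ Subgroup.mem_top x
    exact hxy ((mem_Zc N).1 this y)
  obtain ⟨x, hx, hn⟩ := hG (Zc N) hZn hZ
  exact cyclic_ext N x hx hn

theorem abn_reducible (G : Type*) [Group G] (hG : AbelianByNilpotent G) :
    NonabelianQuotientsReducible G := by
  obtain ⟨R, hR, hab, hnil⟩ := hG
  intro N hN hex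
  by_cases hcen : ∀ x ∈ R, ∀ g : G, ⁅x, g⁆ ∈ N
  · -- R is central modulo N
    have hZn : (Zc N).Normal := by unfold Zc; infer_instance
    obtain ⟨c, hc⟩ := Subgroup.nilpotent_iff_lowerCentralSeries.1 hnil
    have hcR : (⊤ : Subgroup G).lowerCentralSeries c ≤ R := by
      have h2 := Subgroup.map_lowerCentralSeries (⊤ : Subgroup G) (QuotientGroup.mk' R) c
      rw [Subgroup.map_top_of_surjective _ (QuotientGroup.mk'_surjective R), hc] at h2
      intro x hx
      have h3 := Subgroup.mem_map_of_mem (QuotientGroup.mk' R) hx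
      rw [h2, Subgroup.mem_bot] at h3
      exact (QuotientGroup.eq_one_iff x).1 h3
    have hcZ : (⊤ : Subgroup G).lowerCentralSeries c ≤ Zc N :=
      fun x hx => (mem_Zc N).2 (hcen x (hcR hx))
    classical
    have hex2 : ∃ j, (⊤ : Subgroup G).lowerCentralSeries j ≤ Zc N := ⟨c, hcZ⟩
    obtain ⟨j, hj, hjmin⟩ : ∃ j, (⊤ : Subgroup G).lowerCentralSeries j ≤ Zc N ∧
        ∀ i, i < j → ¬ (⊤ : Subgroup G).lowerCentralSeries i ≤ Zc N :=
      ⟨Nat.find hex2, Nat.find_spec hex2, fun i hi => Nat.find_min hex2 hi⟩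
    have hj0 : j ≠ 0 := by
      rintro rfl
      obtain ⟨x, y, hxy⟩ := hex
      have : x ∈ Zc N := hj (Subgroup.mem_top x)
      exact hxy ((mem_Zc N).1 this y)
    obtain ⟨i, rfl⟩ := Nat.exists_eq_succ_of_ne_zero hj0
    have hi := hjmin i (Nat.lt_succ_self i)
    rw [SetLike.not_le_iff_exists] at hi
    obtain ⟨x, hx, hxZ⟩ := hi
    refine cyclic_ext N x hxZ ⟨?_⟩
    intro u hu g
    rw [Subgroup.mem_sup_of_normal_right] at hu
    obtain ⟨v, hv, z, hz, rfl⟩ := hu
    obtain ⟨k, rfl⟩ := Subgroup.mem_zpowers_iff.1 hv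
    have hgx : g * x * g⁻¹ ∈ Subgroup.zpowers x ⊔ Zc N := by
      have h1 : ⁅x, g⁆ ∈ (⊤ : Subgroup G).lowerCentralSeries (i + 1) := by
        rw [Subgroup.lowerCentralSeries_succ]
        exact Subgroup.commutator_mem_commutator hx (Subgroup.mem_top g)
      have h2 : g * x * g⁻¹ = (⁅x, g⁆)⁻¹ * x * 1 := by rw [commutatorElement_def]; group
      have h3 : g * x * g⁻¹ = (⁅x, g⁆)⁻¹ * x := by rw [h2, mul_one]
      rw [h3]
      exact Subgroup.mul_mem _ (Subgroup.inv_mem _ (Subgroup.mem_sup_right (hj h1)))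
        (Subgroup.mem_sup_left (Subgroup.mem_zpowers x))
    have h4 : g * (x ^ k * z) * g⁻¹ = (g * x * g⁻¹) ^ k * (g * z * g⁻¹) := by
      rw [conj_zpow]; group
    rw [h4]
    exact Subgroup.mul_mem _ (Subgroup.zpow_mem _ hgx k) (Subgroup.mem_sup_right (hZn.conj_mem z hz g))
  · push Not at hcen
    obtain ⟨x, hx, g, hxg⟩ := hcen
    refine ⟨R ⊔ N, inferInstance, le_sup_right, ?_, x, Subgroup.mem_sup_left hx, g, hxg⟩
    intro u hu v hv
    rw [Subgroup.mem_sup_of_normal_right] at hu hv
    obtain ⟨r, hr, n, hn, rfl⟩ := hu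
    obtain ⟨r', hr', n', hn', rfl⟩ := hv
    rw [← QuotientGroup.eq_one_iff]
    show (QuotientGroup.mk' N) ⁅r * n, r' * n'⁆ = 1
    have e1 : QuotientGroup.mk' N n = 1 := (QuotientGroup.eq_one_iff n).2 hn
    have e2 : QuotientGroup.mk' N n' = 1 := (QuotientGroup.eq_one_iff n').2 hn'
    rw [map_commutatorElement, commutatorElement_eq_one_iff_mul_comm, map_mul, map_mul, e1, e2, mul_one,
      mul_one, ← map_mul, ← map_mul, hab r hr r' hr']

/-- **Theorem.** Every finite group `G` all of whose nonabelian quotients have a noncentral abelian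
normal subgroup has a listing sequence (with total product `1`, i.e. a Hamiltonian cycle) from
every conjugation-closed symmetric generating set. This applies to all finite supersolvable groups
and to all finite abelian-by-nilpotent groups. -/
theorem result :
    (∀ (G : Type) [Group G] [Finite G], NonabelianQuotientsReducible G → HasNormalListings G) ∧
    (∀ (G : Type) [Group G] [Finite G], Supersolvable G → HasNormalListings G) ∧
    (∀ (G : Type) [Group G] [Finite G], AbelianByNilpotent G → HasNormalListings G) :=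
  ⟨fun G _ _ h => of_reducible G h, fun G _ _ h => of_reducible G (supersolvable_reducible G h),
    fun G _ _ h => of_reducible G (abn_reducible G h)⟩

end Pool.Agent.Results.MP_688fd0_co.NormalGeneratingSets
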