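import Mathlib

/-!
# Labelings of unions of cycles with balanced open neighbourhood sums
-/

namespace Pool.Agent.X72.TwoReg

open Finset

section rank

variable {V : Type*} [Fintype V] (q : V → ℤ)

/-- number of vertices with key at most `x` -/
def cnt (x : ℤ) : ℤ := ((univ.filter fun w => q w ≤ x).card : ℤ)

theorem cnt_split {x y : ℤ} (h : x ≤ y) :
    cnt q y = cnt q x + ((univ.filter fun w => x < q w ∧ q w ≤ y).card : ℤ) := by
  classical
  unfold cnt
  have : (univ.filter fun w => q w ≤ y) =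
      (univ.filter fun w => q w ≤ x) ∪ (univ.filter fun w => x < q w ∧ q w ≤ y) := by
    ext w
    simp only [mem_filter, mem_univ, true_and, mem_union]
    omega
  rw [this, card_union_of_disjoint]
  · push_cast; rfl
  · rw [disjoint_left]
    intro w hw
    simp only [mem_filter, mem_univ, true_and] at hw ⊢
    omega

theorem cnt_mono {x y : ℤ} (h : x ≤ y) : cnt q x ≤ cnt q y := by
  rw [cnt_split q h]; omega

theorem cnt_lip (hq : Function.Injective q) {x y : ℤ} (h : x ≤ y) :
    cnt q y ≤ cnt q x + (y - x) := by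
  classical
  rw [cnt_split q h]
  have h1 : ((univ.filter fun w => x < q w ∧ q w ≤ y).image q) ⊆ Finset.Ioc x y := by
    intro z hz
    simp only [mem_image, mem_filter, mem_univ, true_and] at hz
    obtain ⟨w, hw, rfl⟩ := hz
    exact Finset.mem_Ioc.2 hw
  have h2 := card_le_card h1
  rw [card_image_of_injective _ hq, Int.card_Ioc] at h2
  omega

theorem cnt_lt {x y : ℤ} (h : x < y) (v : V) (hv : q v = y) : cnt q x + 1 ≤ cnt q y := by
  classical
  rw [cnt_split q h.le]
  have : 0 < (univ.filter fun w => x < q w ∧ q w ≤ y).card := by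
    rw [card_pos]
    exact ⟨v, by simp only [mem_filter, mem_univ, true_and]; omega⟩
  omega

/-- the counts below `θ` and below the mirror image of `θ` are complementary -/
def Bal (o θ : ℤ) : Prop := cnt q (θ - 1) + cnt q (o - 1 - θ) = Fintype.card V

theorem bal_of {o θ : ℤ} (τ : V → V) (hτ : Function.Involutive τ)
    (h : ∀ w, θ ≤ q w ↔ q (τ w) ≤ o - 1 - θ) : Bal q o θ := by
  classical
  unfold Bal cnt
  have h1 : (univ.filter fun w => q w ≤ o - 1 - θ).card = (univ.filter fun w => θ ≤ q w).card := by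
    refine card_nbij' τ τ ?_ ?_ ?_ ?_
    · intro w hw
      simp only [coe_filter, mem_univ, true_and, Set.mem_ofPred_eq] at hw ⊢
      rw [h, hτ w]; exact hw
    · intro w hw
      simp only [coe_filter, mem_univ, true_and, Set.mem_ofPred_eq] at hw ⊢
      rwa [← h]
    · intro w _; exact hτ w
    · intro w _; exact hτ w
  have h2 : (univ.filter fun w => q w ≤ θ - 1).card + (univ.filter fun w => θ ≤ q w).card =
      Fintype.card V := by
    rw [← card_univ, ← card_filter_add_card_filter_not (s := univ) (fun w => q w ≤ θ - 1)]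
    congr 2
    ext w
    simp only [mem_filter, mem_univ, true_and]
    omega
  rw [h1]
  exact_mod_cast h2

variable {q}

theorem edgeA (hq : Function.Injective q) {o θ x y : ℤ} (hb : Bal q o θ) (h1 : θ ≤ x)
    (h2 : x < θ + o) (h3 : x + y = 2 * o - 1) :
    (Fintype.card V : ℤ) ≤ cnt q x + cnt q y ∧ cnt q x + cnt q y ≤ Fintype.card V + 1 + o := by
  unfold Bal at hb
  have a1 := cnt_mono q (show θ - 1 ≤ x by omega)
  have a2 := cnt_mono q (show o - 1 - θ ≤ y by omega)
  have b1 := cnt_lip q hq (show θ - 1 ≤ x by omega)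
  have b2 := cnt_lip q hq (show o - 1 - θ ≤ y by omega)
  constructor <;> omega

theorem edgeB (hq : Function.Injective q) {o θ x y : ℤ} (hb : Bal q o θ) (h1 : θ - o ≤ x)
    (h2 : x < θ) (h3 : x + y = -1) :
    (Fintype.card V : ℤ) + 1 - o ≤ cnt q x + cnt q y ∧ cnt q x + cnt q y ≤ Fintype.card V := by
  unfold Bal at hb
  have a1 := cnt_mono q (show x ≤ θ - 1 by omega)
  have a2 := cnt_mono q (show y ≤ o - 1 - θ by omega)
  have b1 := cnt_lip q hq (show x ≤ θ - 1 by omega)
  have b2 := cnt_lip q hq (show y ≤ o - 1 - θ by omega)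
  constructor <;> omega

theorem edgeC (hq : Function.Injective q) {o θ x y : ℤ} (hb : Bal q o θ) (h1 : θ ≤ x)
    (h2 : x < θ + o) (h3 : -θ ≤ y) (h4 : y ≤ o - 1 - θ) (v : V) (hv : q v = x) :
    (Fintype.card V : ℤ) + 1 - o ≤ cnt q x + cnt q y ∧
      cnt q x + cnt q y ≤ Fintype.card V + 1 + o := by
  unfold Bal at hb
  have a1 := cnt_lt q (show θ - 1 < x by omega) v hv
  have a2 := cnt_mono q h4
  have b1 := cnt_lip q hq (show θ - 1 ≤ x by omega)
  have b2 := cnt_lip q hq h4
  constructor <;> omega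

theorem edgeE (hq : Function.Injective q) {o x y : ℤ} (hb : Bal q o x) 
    (h3 : o - 2 ≤ x + y) (h4 : x + y ≤ o) (v : V) (hv : q v = x) :
    (Fintype.card V : ℤ) ≤ cnt q x + cnt q y ∧
      cnt q x + cnt q y ≤ Fintype.card V + 2 := by
  unfold Bal at hb
  have a1 := cnt_lt q (show x - 1 < x by omega) v hv
  have b1 := cnt_lip q hq (show x - 1 ≤ x by omega)
  rcases le_total y (o - 1 - x) with h | h
  · have a2 := cnt_mono q h
    have b2 := cnt_lip q hq h
    constructor <;> omega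
  · have a2 := cnt_mono q h
    have b2 := cnt_lip q hq h
    constructor <;> omega

/-- the labeling by ranks -/
theorem exists_labeling (hq : Function.Injective q) :
    ∃ f : V ≃ Fin (Fintype.card V), ∀ v, ((f v : ℕ) : ℤ) + 1 = cnt q (q v) := by
  classical
  have hpos : ∀ v, 0 < (univ.filter fun w => q w ≤ q v).card := fun v =>
    card_pos.2 ⟨v, by simp⟩
  have hle : ∀ v, (univ.filter fun w => q w ≤ q v).card ≤ Fintype.card V := fun v => card_le_univ _
  let g : V → Fin (Fintype.card V) := fun v =>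
    ⟨(univ.filter fun w => q w ≤ q v).card - 1, by have := hpos v; have := hle v; omega⟩
  have hg : Function.Injective g := by
    intro u v huv
    have h1 : (univ.filter fun w => q w ≤ q u).card - 1 = (univ.filter fun w => q w ≤ q v).card - 1 :=
      congrArg Fin.val huv
    have h2 := hpos u
    have h3 := hpos v
    by_contra hne
    have hne' : q u ≠ q v := fun h => hne (hq h)
    rcases lt_or_gt_of_ne hne' with h | h
    · have := cnt_lt q h v rfl
      unfold cnt at this
      omega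
    · have := cnt_lt q h u rfl
      unfold cnt at this
      omega
  refine ⟨Equiv.ofBijective g ((Fintype.bijective_iff_injective_and_card g).2 ⟨hg, by simp⟩), ?_⟩
  intro v
  have h2 := hpos v
  show (((univ.filter fun w => q w ≤ q v).card - 1 : ℕ) : ℤ) + 1 = _
  unfold cnt
  omega

end rank


section keys

/-- the key of the vertex with coordinate `pos` of the odd cycle number `c` -/
def K (o c pos : ℤ) : ℤ := if pos % 2 = 0 then c - pos * o else pos * o + (o - 1 - c)

/-- the block of the key -/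
def blk (pos : ℤ) : ℤ := if pos % 2 = 0 then -pos else pos

variable {o c pos : ℤ}

theorem K_blk (h0 : 0 ≤ c) (h1 : c < o) :
    blk pos * o ≤ K o c pos ∧ K o c pos < blk pos * o + o := by
  unfold blk K
  split_ifs
  · constructor <;> nlinarith
  · constructor <;> nlinarith

theorem K_ge_iff (h0 : 0 ≤ c) (h1 : c < o) (B : ℤ) : B * o ≤ K o c pos ↔ B ≤ blk pos := by
  obtain ⟨h2, h3⟩ := K_blk (pos := pos) h0 h1
  constructor
  · intro h
    by_contra hcon
    push Not at hcon
    nlinarith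
  · intro h
    nlinarith

theorem K_le_iff (h0 : 0 ≤ c) (h1 : c < o) (B : ℤ) :
    K o c pos ≤ o - 1 - B * o ↔ blk pos ≤ -B := by
  have h := K_ge_iff (pos := pos) h0 h1 (1 - B)
  have e : (1 - B) * o = o - B * o := by ring
  rw [e] at h
  constructor
  · intro h2
    by_contra hcon
    have := h.2 (by omega)
    omega
  · intro h2
    by_contra hcon
    have := h.1 (by omega)
    omega

theorem blk_neg (pos : ℤ) : blk (-pos) = -blk pos := by
  unfold blk
  split_ifs <;> omega

theorem blk_bound (pos : ℤ) : blk pos ≤ |pos| ∧ -|pos| ≤ blk pos := by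
  unfold blk
  rcases abs_cases pos with h | h <;> split_ifs <;> omega

theorem K_inj {c' pos' : ℤ} (h0 : 0 ≤ c) (h1 : c < o) (h0' : 0 ≤ c') (h1' : c' < o)
    (h : K o c pos = K o c' pos') : c = c' ∧ pos = pos' := by
  have hb : blk pos = blk pos' := by
    obtain ⟨a1, a2⟩ := K_blk (pos := pos) h0 h1
    obtain ⟨b1, b2⟩ := K_blk (pos := pos') h0' h1'
    rw [h] at a1 a2
    have c1 : blk pos < blk pos' + 1 := by
      by_contra hcon
      push Not at hcon
      nlinarith
    have c2 : blk pos' < blk pos + 1 := by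
      by_contra hcon
      push Not at hcon
      nlinarith
    omega
  have hp : pos = pos' := by
    unfold blk at hb
    split_ifs at hb <;> omega
  subst hp
  unfold K at h
  split_ifs at h
  · exact ⟨by omega, rfl⟩
  · exact ⟨by omega, rfl⟩

variable {V : Type*} [Fintype V] {q : V → ℤ}

theorem K_edge (hq : Function.Injective q) (hb : ∀ B : ℤ, 1 ≤ B → Bal q o (B * o))
    (h0 : 0 ≤ c) (h1 : c < o) :
    (Fintype.card V : ℤ) + 1 - o ≤ cnt q (K o c pos) + cnt q (K o c (pos + 1)) ∧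
      cnt q (K o c pos) + cnt q (K o c (pos + 1)) ≤ Fintype.card V + 1 + o := by
  obtain ⟨a1, a2⟩ := K_blk (pos := pos) h0 h1
  obtain ⟨b1, b2⟩ := K_blk (pos := pos + 1) h0 h1
  rcases Int.emod_two_eq_zero_or_one pos with hp | hp
  · -- `pos` even
    have hs : K o c pos + K o c (pos + 1) = 2 * o - 1 := by
      unfold K
      rw [if_pos hp, if_neg (by omega)]
      ring
    have hB1 : blk pos = -pos := by unfold blk; rw [if_pos hp]
    have hB2 : blk (pos + 1) = pos + 1 := by unfold blk; rw [if_neg (by omega)]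
    rw [hB1] at a1 a2
    rw [hB2] at b1 b2
    rcases le_or_gt 0 pos with h | h
    · have := edgeA hq (hb (pos + 1) (by omega)) b1 b2 (by rw [add_comm]; exact hs)
      omega
    · have := edgeA hq (hb (-pos) (by omega)) a1 a2 hs
      omega
  · have hs : K o c pos + K o c (pos + 1) = -1 := by
      unfold K
      rw [if_neg (by omega), if_pos (by omega)]
      ring
    have hB1 : blk pos = pos := by unfold blk; rw [if_neg (by omega)]
    have hB2 : blk (pos + 1) = -(pos + 1) := by unfold blk; rw [if_pos (by omega)]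
    rw [hB1] at a1 a2
    rw [hB2] at b1 b2
    rcases le_or_gt 0 pos with h | h
    · have := edgeB hq (hb (pos + 1) (by omega)) (x := K o c pos) (y := K o c (pos + 1))
        (by linarith) (by linarith) hs
      omega
    · have := edgeB hq (hb (-(pos + 1) + 1) (by omega)) (x := K o c (pos + 1)) (y := K o c pos)
        (by linarith) (by linarith) (by rw [add_comm]; exact hs)
      omega

theorem K_close (hq : Function.Injective q) (hb : ∀ B : ℤ, 1 ≤ B → Bal q o (B * o))
    (h0 : 0 ≤ c) (h1 : c < o) (hpos : 1 ≤ pos) (u v : V) (hu : q u = K o c pos)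
    (hv : q v = K o c (-pos)) :
    (Fintype.card V : ℤ) + 1 - o ≤ cnt q (K o c pos) + cnt q (K o c (-pos)) ∧
      cnt q (K o c pos) + cnt q (K o c (-pos)) ≤ Fintype.card V + 1 + o := by
  obtain ⟨a1, a2⟩ := K_blk (pos := pos) h0 h1
  obtain ⟨b1, b2⟩ := K_blk (pos := -pos) h0 h1
  rw [blk_neg] at b1 b2
  rcases Int.emod_two_eq_zero_or_one pos with hp | hp
  · have hB1 : blk pos = -pos := by unfold blk; rw [if_pos hp]
    rw [hB1] at a1 a2 b1 b2
    have := edgeC hq (hb pos hpos) (x := K o c (-pos)) (y := K o c pos)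
      (by linarith) (by linarith) (by linarith) (by
        have : K o c pos < -pos * o + o := a2
        have e : -pos * o = -(pos * o) := by ring
        omega) v hv
    omega
  · have hB1 : blk pos = pos := by unfold blk; rw [if_neg (by omega)]
    rw [hB1] at a1 a2 b1 b2
    have := edgeC hq (hb pos hpos) (x := K o c pos) (y := K o c (-pos))
      (by linarith) (by linarith) (by linarith) (by
        have e : -pos * o = -(pos * o) := by ring
        omega) u hu
    omega

end keys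

section comp

/-- the coordinate of the vertex `a` of a cycle of length `t`, `t` not divisible by `4` -/
def posn (t a : ℕ) : ℤ :=
  if t % 2 = 1 then (if a % 2 = 0 then (a : ℤ) / 2 else ((a : ℤ) - t) / 2)
  else (a : ℤ) / 2 - ((t : ℤ) - 2) / 4

/-- the number (`0` or `1`) of the odd cycle -/
def cls (t a : ℕ) : ℕ := if t % 2 = 1 then 0 else a % 2

/-- the largest coordinate -/
def hgt (t : ℕ) : ℤ := if t % 2 = 1 then ((t : ℤ) - 1) / 2 else ((t : ℤ) - 2) / 4

/-- the rank of the vertex `a` of a cycle of length `t` divisible by `4` -/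
def rk (t a : ℕ) : ℤ :=
  (if a % 2 = 0 then 0 else (t : ℤ) / 4) +
    (if (a : ℤ) / 2 < (t : ℤ) / 4 then (a : ℤ) / 2 + 1 else (t : ℤ) / 2 - (a : ℤ) / 2)

/-- the mirror vertex -/
def tau (t a : ℕ) : ℕ :=
  if t % 2 = 1 then (if a = 0 then 0 else t - a)
  else if a % 2 = 0 then t - 2 - a else t - a

theorem tau_lt {t a : ℕ} (h3 : 3 ≤ t) (ha : a < t) : tau t a < t := by
  unfold tau; split_ifs <;> omega

theorem tau_tau {t a : ℕ} (h3 : 3 ≤ t) (ha : a < t) : tau t (tau t a) = a := by
  unfold tau; split_ifs <;> omega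

theorem cls_tau {t a : ℕ} (h3 : 3 ≤ t) (ha : a < t) : cls t (tau t a) = cls t a := by
  unfold cls tau; split_ifs <;> omega

theorem posn_tau {t a : ℕ} (h3 : 3 ≤ t) (h4 : t % 4 ≠ 0) (ha : a < t) :
    posn t (tau t a) = - posn t a := by
  unfold posn tau
  split_ifs <;> omega

theorem posn_inj {t a b : ℕ} (h3 : 3 ≤ t) (h4 : t % 4 ≠ 0) (ha : a < t) (hb : b < t)
    (h1 : cls t a = cls t b) (h2 : posn t a = posn t b) : a = b := by
  unfold cls at h1
  unfold posn at h2
  split_ifs at h1 h2 <;> omega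

theorem posn_le {t a : ℕ} (h3 : 3 ≤ t) (h4 : t % 4 ≠ 0) (ha : a < t) :
    |posn t a| ≤ t := by
  rw [abs_le]
  unfold posn
  split_ifs <;> omega

theorem posn_step {t a : ℕ} (h3 : 3 ≤ t) (h4 : t % 4 ≠ 0) (ha : a < t) :
    cls t ((a + 2) % t) = cls t a ∧
    (posn t ((a + 2) % t) = posn t a + 1 ∨
      (1 ≤ posn t a ∧ posn t ((a + 2) % t) = - posn t a)) := by
  have hmod : (a + 2) % t = if a + 2 < t then a + 2 else a + 2 - t := by
    split_ifs with h
    · exact Nat.mod_eq_of_lt h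
    · rw [Nat.mod_eq_sub_mod (by omega), Nat.mod_eq_of_lt (by omega)]
  rw [hmod]
  unfold cls posn
  split_ifs <;> omega

theorem rk_pos {t a : ℕ} (h4 : t % 4 = 0) (ha : a < t) : 1 ≤ rk t a ∧ rk t a ≤ t := by
  unfold rk
  split_ifs <;> omega

theorem rk_tau {t a : ℕ} (h4 : t % 4 = 0) (ha : a < t) :
    rk t (tau t a) = rk t a ∧ (tau t a / 2) % 2 ≠ (a / 2) % 2 := by
  unfold rk tau
  split_ifs <;> omega

theorem rk_inj {t a b : ℕ} (h4 : t % 4 = 0) (ha : a < t) (hb : b < t)
    (h1 : (a / 2) % 2 = (b / 2) % 2) (h2 : rk t a = rk t b) : a = b := by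
  unfold rk at h2
  split_ifs at h2 <;> omega

theorem rk_step {t a : ℕ} (h3 : 3 ≤ t) (h4 : t % 4 = 0) (ha : a < t) :
    (((a + 2) % t) / 2) % 2 ≠ (a / 2) % 2 ∧ rk t ((a + 2) % t) ≤ rk t a + 1 ∧
      rk t a ≤ rk t ((a + 2) % t) + 1 := by
  have hmod : (a + 2) % t = if a + 2 < t then a + 2 else a + 2 - t := by
    split_ifs with h
    · exact Nat.mod_eq_of_lt h
    · rw [Nat.mod_eq_sub_mod (by omega), Nat.mod_eq_of_lt (by omega)]
  rw [hmod]
  unfold rk
  split_ifs <;> omega

end comp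


section sigma

/-- the number of odd cycles of the neighbourhood graph of a cycle of length `t` -/
def nO (t : ℕ) : ℕ := if t % 2 = 1 then 1 else if t % 4 = 2 then 2 else 0

theorem cls_lt {t a : ℕ} (h4 : t % 4 ≠ 0) : cls t a < nO t := by
  unfold cls nO; split_ifs <;> omega

variable {k : ℕ} (t : Fin k → ℕ)

/-- the total number of odd cycles -/
def oo : ℕ := ∑ i, nO (t i)

/-- the number of vertices -/
def nn : ℕ := ∑ i, t i

theorem le_nn (i : Fin k) : t i ≤ nn t :=
  Finset.single_le_sum (f := t) (fun _ _ => Nat.zero_le _) (mem_univ i)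

/-- the number of an odd cycle -/
def cidx (i : Fin k) (p : ℕ) : ℤ :=
  if h : p < nO (t i) then ((finSigmaFinEquiv (⟨i, ⟨p, h⟩⟩ : Σ i : Fin k, Fin (nO (t i))) : ℕ) : ℤ)
  else 0

theorem cidx_range {i : Fin k} {p : ℕ} (h : p < nO (t i)) : 0 ≤ cidx t i p ∧ cidx t i p < oo t := by
  unfold cidx
  rw [dif_pos h]
  refine ⟨by positivity, ?_⟩
  exact_mod_cast (finSigmaFinEquiv (⟨i, ⟨p, h⟩⟩ : Σ i : Fin k, Fin (nO (t i)))).2

theorem cidx_inj {i j : Fin k} {p p' : ℕ} (h : p < nO (t i)) (h' : p' < nO (t j))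
    (he : cidx t i p = cidx t j p') : i = j ∧ p = p' := by
  unfold cidx at he
  rw [dif_pos h, dif_pos h'] at he
  have he' := finSigmaFinEquiv.injective (Fin.ext (by exact_mod_cast he))
  have h1 : i = j := congrArg Sigma.fst he'
  subst h1
  have h2 := eq_of_heq (Sigma.mk.inj he').2
  exact ⟨rfl, congrArg Fin.val h2⟩

/-- bound for the keys of the odd cycles -/
def MM : ℤ := ((nn t : ℤ) + 1) * ((oo t : ℤ) + 1)

/-- the key of a vertex -/
def key (v : Σ i, Fin (t i)) : ℤ :=
  if t v.1 % 4 ≠ 0 then K (oo t) (cidx t v.1 (cls (t v.1) v.2)) (posn (t v.1) v.2)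
  else if (v.2.val / 2) % 2 = 1 then MM t * (v.1.val + 1) + rk (t v.1) v.2
  else oo t - 1 - (MM t * (v.1.val + 1) + rk (t v.1) v.2)

theorem K_bounds (h3 : ∀ i, 3 ≤ t i) {v : Σ i, Fin (t i)} (h4 : t v.1 % 4 ≠ 0) :
    -(nn t * oo t : ℤ) ≤ K (oo t) (cidx t v.1 (cls (t v.1) v.2)) (posn (t v.1) v.2) ∧
    K (oo t) (cidx t v.1 (cls (t v.1) v.2)) (posn (t v.1) v.2) < nn t * oo t + oo t := by
  obtain ⟨c1, c2⟩ := cidx_range t (cls_lt (a := v.2.val) h4)
  obtain ⟨a1, a2⟩ := K_blk (pos := posn (t v.1) v.2) c1 c2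
  have b1 := blk_bound (posn (t v.1) v.2)
  have b2 := posn_le (h3 v.1) h4 v.2.2
  have b3 : (t v.1 : ℤ) ≤ nn t := by exact_mod_cast le_nn t v.1
  have b4 : blk (posn (t v.1) v.2) ≤ nn t := by linarith [b1.1]
  have b5 : -(nn t : ℤ) ≤ blk (posn (t v.1) v.2) := by linarith [b1.2]
  have ho : (0 : ℤ) ≤ oo t := by positivity
  constructor
  · nlinarith
  · nlinarith

theorem MM_eq : MM t = nn t * oo t + nn t + oo t + 1 := by unfold MM; ring

theorem MM_pos : 0 < MM t := by unfold MM; positivity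

theorem base_ge (i : Fin k) : MM t ≤ MM t * (i.val + 1) := by
  have := MM_pos t
  nlinarith [Int.natCast_nonneg i.val]

theorem base_lt {i j : Fin k} (h : i < j) : MM t * (i.val + 1) + MM t ≤ MM t * (j.val + 1) := by
  have := MM_pos t
  have h' : (i.val : ℤ) + 1 ≤ j.val := by exact_mod_cast h
  nlinarith

theorem rk_bounds {v : Σ i, Fin (t i)} (h4 : t v.1 % 4 = 0) :
    1 ≤ rk (t v.1) v.2 ∧ rk (t v.1) v.2 < MM t := by
  have h1 := rk_pos h4 v.2.2
  have b3 : (t v.1 : ℤ) ≤ nn t := by exact_mod_cast le_nn t v.1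
  have := MM_eq t
  have ho : (0 : ℤ) ≤ nn t * oo t := by positivity
  constructor
  · exact h1.1
  · omega

/-- the positive key of a vertex of an even cycle -/
def big (v : Σ i, Fin (t i)) : ℤ := MM t * (v.1.val + 1) + rk (t v.1) v.2

theorem key_odd {v : Σ i, Fin (t i)} (h4 : t v.1 % 4 ≠ 0) :
    key t v = K (oo t) (cidx t v.1 (cls (t v.1) v.2)) (posn (t v.1) v.2) := by
  unfold key; rw [if_pos h4]

theorem key_even {v : Σ i, Fin (t i)} (h4 : t v.1 % 4 = 0) :
    key t v = if (v.2.val / 2) % 2 = 1 then big t v else oo t - 1 - big t v := by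
  unfold key big; rw [if_neg (by omega)]

theorem big_gt {v : Σ i, Fin (t i)} (h4 : t v.1 % 4 = 0) : MM t < big t v := by
  have := base_ge t v.1
  have := rk_bounds t h4
  unfold big
  omega

theorem big_inj {u v : Σ i, Fin (t i)} (hu : t u.1 % 4 = 0) (hv : t v.1 % 4 = 0)
    (h : big t u = big t v) : u.1 = v.1 ∧ rk (t u.1) u.2 = rk (t v.1) v.2 := by
  unfold big at h
  have h1 := rk_bounds t hu
  have h2 := rk_bounds t hv
  rcases lt_trichotomy u.1 v.1 with h3 | h3 | h3
  · have := base_lt t h3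
    omega
  · refine ⟨h3, ?_⟩
    have e : (u.1.val : ℤ) = v.1.val := by rw [h3]
    rw [e] at h
    omega
  · have := base_lt t h3
    omega

theorem key_injective (h3 : ∀ i, 3 ≤ t i) : Function.Injective (key t) := by
  intro u v huv
  have hM := MM_eq t
  have hno : (0 : ℤ) ≤ nn t * oo t := by positivity
  by_cases hu : t u.1 % 4 = 0
  · by_cases hv : t v.1 % 4 = 0
    · rw [key_even t hu, key_even t hv] at huv
      have b1 := big_gt t hu
      have b2 := big_gt t hv
      have hpar : (u.2.val / 2) % 2 = (v.2.val / 2) % 2 := by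
        split_ifs at huv <;> omega
      have hbig : big t u = big t v := by
        split_ifs at huv <;> omega
      obtain ⟨e1, e2⟩ := big_inj t hu hv hbig
      obtain ⟨i, a⟩ := u
      obtain ⟨j, b⟩ := v
      simp only at e1 e2 hpar hu
      subst e1
      have := rk_inj hu a.2 b.2 hpar e2
      rw [Fin.ext this]
    · exfalso
      rw [key_even t hu, key_odd t hv] at huv
      have b1 := big_gt t hu
      have b2 := K_bounds t h3 hv
      split_ifs at huv <;> omega
  · by_cases hv : t v.1 % 4 = 0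
    · exfalso
      rw [key_odd t hu, key_even t hv] at huv
      have b1 := big_gt t hv
      have b2 := K_bounds t h3 hu
      split_ifs at huv <;> omega
    · rw [key_odd t hu, key_odd t hv] at huv
      have c1 := cidx_range t (cls_lt (a := u.2.val) hu)
      have c2 := cidx_range t (cls_lt (a := v.2.val) hv)
      obtain ⟨e1, e2⟩ := K_inj c1.1 c1.2 c2.1 c2.2 huv
      obtain ⟨e3, e4⟩ := cidx_inj t (cls_lt (a := u.2.val) hu) (cls_lt (a := v.2.val) hv) e1
      obtain ⟨i, a⟩ := u
      obtain ⟨j, b⟩ := v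
      simp only at e2 e3 e4 hu
      subst e3
      have := posn_inj (h3 i) hu a.2 b.2 e4 e2
      rw [Fin.ext this]

/-- the mirror vertex -/
def tauV (h3 : ∀ i, 3 ≤ t i) (v : Σ i, Fin (t i)) : Σ i, Fin (t i) :=
  ⟨v.1, ⟨tau (t v.1) v.2, tau_lt (h3 v.1) v.2.2⟩⟩

theorem tauV_inv (h3 : ∀ i, 3 ≤ t i) : Function.Involutive (tauV t h3) := by
  rintro ⟨i, a⟩
  unfold tauV
  simp only [tau_tau (h3 i) a.2]

theorem bal_small (h3 : ∀ i, 3 ≤ t i) {B : ℤ} (hB : 1 ≤ B) : Bal (key t) (oo t) (B * oo t) := by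
  refine bal_of (key t) (tauV t h3) (tauV_inv t h3) ?_
  intro w
  have ho : (oo t : ℤ) ≤ B * oo t := by
    have : (0 : ℤ) ≤ oo t := by positivity
    nlinarith
  by_cases h4 : t w.1 % 4 = 0
  · have h4' : t (tauV t h3 w).1 % 4 = 0 := h4
    rw [key_even t h4, key_even t h4']
    obtain ⟨r1, r2⟩ := rk_tau h4 w.2.2
    have hb : big t (tauV t h3 w) = big t w := by
      unfold big tauV
      simp only [r1]
    rw [hb]
    have b1 := big_gt t h4
    have hM := MM_eq t
    have hno : (0 : ℤ) ≤ nn t * oo t := by positivity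
    have r2' : ((tauV t h3 w).2.val / 2) % 2 ≠ (w.2.val / 2) % 2 := r2
    split_ifs <;> omega
  · have h4' : t (tauV t h3 w).1 % 4 ≠ 0 := h4
    rw [key_odd t h4, key_odd t h4']
    have e1 : cls (t (tauV t h3 w).1) (tauV t h3 w).2 = cls (t w.1) w.2 := cls_tau (h3 w.1) w.2.2
    have e2 : posn (t (tauV t h3 w).1) (tauV t h3 w).2 = - posn (t w.1) w.2 :=
      posn_tau (h3 w.1) h4 w.2.2
    rw [e1, e2]
    have e3 : (tauV t h3 w).1 = w.1 := rfl
    rw [e3]
    have c1 := cidx_range t (cls_lt (a := w.2.val) h4)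
    rw [K_ge_iff c1.1 c1.2, K_le_iff c1.1 c1.2, blk_neg]
    omega

theorem bal_large (h3 : ∀ i, 3 ≤ t i) {θ : ℤ} (hθ : MM t ≤ θ) : Bal (key t) (oo t) θ := by
  refine bal_of (key t) (tauV t h3) (tauV_inv t h3) ?_
  intro w
  have hM := MM_eq t
  have hno : (0 : ℤ) ≤ nn t * oo t := by positivity
  by_cases h4 : t w.1 % 4 = 0
  · have h4' : t (tauV t h3 w).1 % 4 = 0 := h4
    rw [key_even t h4, key_even t h4']
    obtain ⟨r1, r2⟩ := rk_tau h4 w.2.2
    have hb : big t (tauV t h3 w) = big t w := by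
      unfold big tauV
      simp only [r1]
    rw [hb]
    have b1 := big_gt t h4
    have r2' : ((tauV t h3 w).2.val / 2) % 2 ≠ (w.2.val / 2) % 2 := r2
    split_ifs <;> omega
  · have h4' : t (tauV t h3 w).1 % 4 ≠ 0 := h4
    rw [key_odd t h4, key_odd t h4']
    have b1 := K_bounds t h3 h4
    have b2 := K_bounds t h3 h4'
    constructor <;> intro h <;> omega

/-- the vertex two steps further -/
def nx (h3 : ∀ i, 3 ≤ t i) (v : Σ i, Fin (t i)) : Σ i, Fin (t i) :=
  ⟨v.1, ⟨(v.2.val + 2) % t v.1, Nat.mod_lt _ (by have := h3 v.1; omega)⟩⟩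

theorem key_edge (h3 : ∀ i, 3 ≤ t i) (v : Σ i, Fin (t i)) :
    (nn t : ℤ) + 1 ≤ cnt (key t) (key t v) + cnt (key t) (key t (nx t h3 v)) + max (oo t : ℤ) 1 ∧
      cnt (key t) (key t v) + cnt (key t) (key t (nx t h3 v)) ≤ nn t + 1 + max (oo t : ℤ) 1 := by
  have hcard : (Fintype.card (Σ i, Fin (t i)) : ℤ) = nn t := by
    unfold nn
    simp [Fintype.card_sigma]
  have hq := key_injective t h3
  have hm1 : (oo t : ℤ) ≤ max (oo t : ℤ) 1 := le_max_left _ _
  have hm2 : (1 : ℤ) ≤ max (oo t : ℤ) 1 := le_max_right _ _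
  by_cases h4 : t v.1 % 4 = 0
  · have h4' : t (nx t h3 v).1 % 4 = 0 := h4
    obtain ⟨s1, s2, s3⟩ := rk_step (h3 v.1) h4 v.2.2
    have s1' : ((nx t h3 v).2.val / 2) % 2 ≠ (v.2.val / 2) % 2 := s1
    have b1 : big t (nx t h3 v) ≤ big t v + 1 := by
      unfold big nx; simp only; omega
    have b2 : big t v ≤ big t (nx t h3 v) + 1 := by
      unfold big nx; simp only; omega
    have g1 := big_gt t h4
    have g2 := big_gt t h4'
    rw [key_even t h4, key_even t h4']
    by_cases hp : (v.2.val / 2) % 2 = 1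
    · rw [if_pos hp, if_neg (by omega)]
      have := edgeE hq (bal_large t h3 g1.le) (y := oo t - 1 - big t (nx t h3 v))
        (by omega) (by omega) v (by rw [key_even t h4, if_pos hp])
      omega
    · rw [if_neg hp, if_pos (by omega)]
      have := edgeE hq (bal_large t h3 g2.le) (y := oo t - 1 - big t v)
        (by omega) (by omega) (nx t h3 v) (by rw [key_even t h4', if_pos (by omega)])
      omega
  · have h4' : t (nx t h3 v).1 % 4 ≠ 0 := h4
    have c1 := cidx_range t (cls_lt (a := v.2.val) h4)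
    obtain ⟨p1, p2⟩ := posn_step (h3 v.1) h4 v.2.2
    have e1 : key t (nx t h3 v) =
        K (oo t) (cidx t v.1 (cls (t v.1) v.2)) (posn (t v.1) (nx t h3 v).2) := by
      rw [key_odd t h4']
      show K (oo t) (cidx t v.1 (cls (t v.1) ((v.2.val + 2) % t v.1))) _ = _
      rw [p1]
      rfl
    have hb : ∀ B : ℤ, 1 ≤ B → Bal (key t) (oo t) (B * oo t) := fun B hB => bal_small t h3 hB
    have e0 := key_odd t h4
    rcases p2 with p2 | ⟨p2, p3⟩
    · have p2' : posn (t v.1) (nx t h3 v).2 = posn (t v.1) v.2 + 1 := p2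
      rw [e1, e0, p2']
      have := K_edge (pos := posn (t v.1) v.2) hq hb c1.1 c1.2
      omega
    · have p3' : posn (t v.1) (nx t h3 v).2 = - posn (t v.1) v.2 := p3
      rw [p3'] at e1
      rw [e1, e0]
      have := K_close hq hb c1.1 c1.2 p2 v (nx t h3 v) e0 e1
      omega

/-- **The labeling.** -/
theorem exists_good (h3 : ∀ i, 3 ≤ t i) :
    ∃ f : (Σ i, Fin (t i)) ≃ Fin (Fintype.card (Σ i, Fin (t i))), ∀ v,
      nn t + 1 ≤ ((f v : ℕ) + 1) + ((f (nx t h3 v) : ℕ) + 1) + max (oo t) 1 ∧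
      ((f v : ℕ) + 1) + ((f (nx t h3 v) : ℕ) + 1) ≤ nn t + 1 + max (oo t) 1 := by
  obtain ⟨f, hf⟩ := exists_labeling (key_injective t h3)
  refine ⟨f, fun v => ?_⟩
  have h := key_edge t h3 v
  rw [← hf, ← hf] at h
  have e : max (oo t : ℤ) 1 = ((max (oo t) 1 : ℕ) : ℤ) := by push_cast; rfl
  rw [e] at h
  omega

end sigma


section lower

variable {k : ℕ} (t : Fin k → ℕ)

/-- half of `t - nO t` -/
def al (t : ℕ) : ℕ := (t - nO t) / 2

theorem two_al {t : ℕ} (h3 : 3 ≤ t) : 2 * al t + nO t = t := by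
  unfold al nO; split_ifs <;> omega

theorem mod_eq {t a : ℕ} (h3 : 3 ≤ t) (ha : a < t) :
    (a + 2) % t = if a + 2 < t then a + 2 else a + 2 - t := by
  split_ifs with h
  · exact Nat.mod_eq_of_lt h
  · rw [Nat.mod_eq_sub_mod (by omega), Nat.mod_eq_of_lt (by omega)]

theorem step_inj {t a b : ℕ} (h3 : 3 ≤ t) (ha : a < t) (hb : b < t)
    (h : (a + 2) % t = (b + 2) % t) : a = b := by
  rw [mod_eq h3 ha, mod_eq h3 hb] at h
  split_ifs at h <;> omega

/-- sets without two vertices at distance two, in one cycle -/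
theorem card_le_al {t : ℕ} (h3 : 3 ≤ t) (S : Finset ℕ) (hS : ∀ a ∈ S, a < t)
    (h : ∀ a ∈ S, (a + 2) % t ∉ S) : S.card ≤ al t := by
  classical
  have key : ∀ P : Finset ℕ, ∀ U : Finset ℕ, P ⊆ S → P ⊆ U →
      (∀ a ∈ P, (a + 2) % t ∈ U) → 2 * P.card ≤ U.card := by
    intro P U hP hU hU'
    have h1 : (P.image fun a => (a + 2) % t).card = P.card := by
      refine card_image_of_injOn ?_
      intro a ha b hb hab
      exact step_inj h3 (hS a (hP ha)) (hS b (hP hb)) hab
    have h2 : Disjoint P (P.image fun a => (a + 2) % t) := by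
      rw [disjoint_left]
      intro a ha hb
      obtain ⟨b, hb', rfl⟩ := mem_image.1 hb
      exact h b (hP hb') (hP ha)
    have h3 : P ∪ (P.image fun a => (a + 2) % t) ⊆ U := by
      refine union_subset hU ?_
      intro a ha
      obtain ⟨b, hb, rfl⟩ := mem_image.1 ha
      exact hU' b hb
    have h4 := card_le_card h3
    rw [card_union_of_disjoint h2, h1] at h4
    omega
  by_cases h4 : t % 4 = 2
  · have ev : ∀ r < 2, 2 * (S.filter fun a => a % 2 = r).card ≤ t / 2 := by
      intro r hr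
      have hc : ((range (t / 2)).image fun e => 2 * e + r).card = t / 2 := by
        rw [card_image_of_injective _ (fun a b hab => by simpa using hab), card_range]
      have := key (S.filter fun a => a % 2 = r) ((range (t / 2)).image fun e => 2 * e + r)
        (filter_subset _ _) (by
          intro a ha
          rw [mem_filter] at ha
          have := hS a ha.1
          exact mem_image.2 ⟨a / 2, by rw [mem_range]; omega, by omega⟩) (by
          intro a ha
          rw [mem_filter] at ha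
          have h5 := hS a ha.1
          rw [mod_eq h3 h5]
          refine mem_image.2 ⟨(if a + 2 < t then a + 2 else a + 2 - t) / 2, ?_, ?_⟩
          · rw [mem_range]; split_ifs <;> omega
          · split_ifs <;> omega)
      rwa [hc] at this
    have e0 := ev 0 (by norm_num)
    have e1 := ev 1 (by norm_num)
    have hsum := card_filter_add_card_filter_not (s := S) (fun a => a % 2 = 0)
    have e2 : (S.filter fun a => ¬ a % 2 = 0) = (S.filter fun a => a % 2 = 1) := by
      ext a; simp only [mem_filter]; constructor <;> rintro ⟨h1, h2⟩ <;> exact ⟨h1, by omega⟩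
    rw [e2] at hsum
    unfold al nO
    split_ifs <;> omega
  · have := key S (range t) subset_rfl (fun a ha => mem_range.2 (hS a ha))
      (fun a ha => mem_range.2 (Nat.mod_lt _ (by omega)))
    rw [card_range] at this
    unfold al nO
    split_ifs <;> omega

theorem exists_pair (h3 : ∀ i, 3 ≤ t i) (S : Finset (Σ i, Fin (t i)))
    (hS : nn t < 2 * S.card + oo t) : ∃ v ∈ S, nx t h3 v ∈ S := by
  classical
  by_contra hcon
  push Not at hcon
  have h1 : S = univ.sigma (fun i => univ.filter fun a : Fin (t i) => (⟨i, a⟩ : Σ i, Fin (t i)) ∈ S) := by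
    ext ⟨i, a⟩
    simp
  have h2 : S.card = ∑ i, (univ.filter fun a : Fin (t i) => (⟨i, a⟩ : Σ i, Fin (t i)) ∈ S).card := by
    conv_lhs => rw [h1]
    rw [card_sigma]
  have h4 : ∀ i, (univ.filter fun a : Fin (t i) => (⟨i, a⟩ : Σ i, Fin (t i)) ∈ S).card ≤ al (t i) := by
    intro i
    rw [← card_map Fin.valEmbedding]
    refine card_le_al (h3 i) _ ?_ ?_
    · intro a ha
      obtain ⟨b, _, rfl⟩ := mem_map.1 ha
      exact b.2
    · intro a ha hb
      obtain ⟨a', ha', rfl⟩ := mem_map.1 ha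
      obtain ⟨b', hb', hb''⟩ := mem_map.1 hb
      simp only [mem_filter, mem_univ, true_and] at ha' hb'
      refine hcon _ ha' ?_
      have : nx t h3 ⟨i, a'⟩ = ⟨i, b'⟩ := by
        unfold nx
        simp only [Sigma.mk.injEq, heq_eq_eq, true_and]
        exact Fin.ext hb''.symm
      rw [this]
      exact hb'
  have h5 : S.card ≤ ∑ i, al (t i) := h2 ▸ Finset.sum_le_sum fun i _ => h4 i
  have h6 : 2 * ∑ i, al (t i) + oo t = nn t := by
    unfold oo nn
    rw [mul_sum, ← sum_add_distrib]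
    exact Finset.sum_congr rfl fun i _ => two_al (h3 i)
  omega

theorem nx_ne (h3 : ∀ i, 3 ≤ t i) (v : Σ i, Fin (t i)) : nx t h3 v ≠ v := by
  obtain ⟨i, a⟩ := v
  intro h
  have h1 := eq_of_heq (Sigma.mk.inj h).2
  have h2 : (a.val + 2) % t i = a.val := congrArg Fin.val h1
  have := h3 i
  rw [mod_eq (h3 i) a.2] at h2
  split_ifs at h2 <;> omega

theorem oo_le (h3 : ∀ i, 3 ≤ t i) : oo t ≤ nn t ∧ (nn t - oo t) % 2 = 0 := by
  have h6 : 2 * ∑ i, al (t i) + oo t = nn t := by
    unfold oo nn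
    rw [mul_sum, ← sum_add_distrib]
    exact Finset.sum_congr rfl fun i _ => two_al (h3 i)
  omega

theorem top_pair (h3 : ∀ i, 3 ≤ t i) (hk : 0 < nn t) (f : (Σ i, Fin (t i)) ≃ Fin (nn t)) :
    ∃ v, nn t + 1 + oo t ≤ ((f v : ℕ) + 1) + ((f (nx t h3 v) : ℕ) + 1) := by
  classical
  obtain ⟨o1, o2⟩ := oo_le t h3
  set α := (nn t - oo t) / 2 with hα
  have hα' : 2 * α + oo t = nn t := by omega
  have hc : (univ.filter fun v => nn t - α - 1 ≤ (f v : ℕ)).card = α + 1 := by
    have h1 : (univ.filter fun v => nn t - α - 1 ≤ (f v : ℕ)) =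
        (univ.filter fun j : Fin (nn t) => nn t - α - 1 ≤ (j : ℕ)).map f.symm.toEmbedding := by
      ext v
      simp only [mem_filter, mem_univ, true_and, mem_map, Equiv.coe_toEmbedding]
      constructor
      · intro h; exact ⟨f v, h, by simp⟩
      · rintro ⟨j, hj, rfl⟩; simpa using hj
    rw [h1, card_map]
    have h2 : (univ.filter fun j : Fin (nn t) => nn t - α - 1 ≤ (j : ℕ)).card =
        ((range (nn t)).filter fun j => nn t - α - 1 ≤ j).card := by
      rw [← card_map Fin.valEmbedding]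
      congr 1
      ext j
      simp only [mem_map, mem_filter, mem_univ, true_and, mem_range, Fin.valEmbedding_apply]
      constructor
      · rintro ⟨x, hx, rfl⟩; exact ⟨x.2, hx⟩
      · rintro ⟨hj, h⟩; exact ⟨⟨j, hj⟩, h, rfl⟩
    rw [h2]
    have h3 : ((range (nn t)).filter fun j => nn t - α - 1 ≤ j) = Finset.Ico (nn t - α - 1) (nn t) := by
      ext j; simp only [mem_filter, mem_range, mem_Ico]; omega
    rw [h3, Nat.card_Ico]
    omega
  obtain ⟨v, hv, hv'⟩ := exists_pair t h3 (univ.filter fun v => nn t - α - 1 ≤ (f v : ℕ))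
    (by rw [hc]; omega)
  simp only [mem_filter, mem_univ, true_and] at hv hv'
  have hne : (f v : ℕ) ≠ (f (nx t h3 v) : ℕ) := fun h =>
    nx_ne t h3 v (f.injective (Fin.ext h.symm))
  exact ⟨v, by omega⟩

/-- reversing the labels -/
theorem bot_pair (h3 : ∀ i, 3 ≤ t i) (hk : 0 < nn t) (f : (Σ i, Fin (t i)) ≃ Fin (nn t)) :
    ∃ v, ((f v : ℕ) + 1) + ((f (nx t h3 v) : ℕ) + 1) + oo t ≤ nn t + 1 := by
  obtain ⟨v, hv⟩ := top_pair t h3 hk (f.trans Fin.revPerm)
  refine ⟨v, ?_⟩
  simp only [Equiv.trans_apply, Fin.revPerm_apply, Fin.val_rev] at hv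
  have h1 := (f v).2
  have h2 := (f (nx t h3 v)).2
  omega

theorem nx_bij (h3 : ∀ i, 3 ≤ t i) : Function.Bijective (nx t h3) := by
  rw [← Finite.injective_iff_bijective]
  rintro ⟨i, a⟩ ⟨j, b⟩ h
  have h0 : i = j := congrArg Sigma.fst h
  subst h0
  have h1 := eq_of_heq (Sigma.mk.inj h).2
  have h2 : (a.val + 2) % t i = (b.val + 2) % t i := congrArg Fin.val h1
  rw [Fin.ext (step_inj (h3 i) a.2 b.2 h2)]

theorem sum_all (h3 : ∀ i, 3 ≤ t i) (f : (Σ i, Fin (t i)) ≃ Fin (nn t)) :
    ∑ v, (((f v : ℕ) + 1) + ((f (nx t h3 v) : ℕ) + 1)) = nn t * (nn t + 1) := by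
  rw [Finset.sum_add_distrib]
  have h1 : ∑ v, ((f (nx t h3 v) : ℕ) + 1) = ∑ v, ((f v : ℕ) + 1) :=
    (nx_bij t h3).sum_comp (fun v => ((f v : ℕ) + 1))
  have h2 : ∑ v, ((f v : ℕ) + 1) = ∑ j : Fin (nn t), ((j : ℕ) + 1) :=
    f.sum_comp (fun j => ((j : ℕ) + 1))
  rw [h1, h2, Finset.sum_add_distrib]
  have h3 : ∑ j : Fin (nn t), (j : ℕ) = ∑ j ∈ range (nn t), j := Fin.sum_univ_eq_sum_range (fun j => j) _
  rw [h3]
  have h4 := Finset.sum_range_id_mul_two (nn t)
  simp only [sum_const, card_univ, Fintype.card_fin, smul_eq_mul, mul_one]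
  rcases Nat.eq_zero_or_pos (nn t) with h | h
  · rw [h]; simp
  · obtain ⟨m, hm⟩ : ∃ m, nn t = m + 1 := ⟨nn t - 1, by omega⟩
    rw [hm] at h4 ⊢
    simp only [Nat.add_sub_cancel] at h4
    nlinarith

theorem card_eq_nn : Fintype.card (Σ i, Fin (t i)) = nn t := by
  unfold nn; simp [Fintype.card_sigma]

theorem top_even (h3 : ∀ i, 3 ≤ t i) (h4 : ∃ i, t i ≠ 4) (f : (Σ i, Fin (t i)) ≃ Fin (nn t)) :
    ∃ v, nn t + 2 ≤ ((f v : ℕ) + 1) + ((f (nx t h3 v) : ℕ) + 1) := by
  classical
  by_contra hcon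
  push Not at hcon
  have hs := sum_all t h3 f
  have hall : ∀ v, ((f v : ℕ) + 1) + ((f (nx t h3 v) : ℕ) + 1) = nn t + 1 := by
    by_contra hne
    push Not at hne
    obtain ⟨v, hv⟩ := hne
    have hlt : ∑ v, (((f v : ℕ) + 1) + ((f (nx t h3 v) : ℕ) + 1)) <
        ∑ _v : (Σ i, Fin (t i)), (nn t + 1) := by
      refine Finset.sum_lt_sum (fun w _ => ?_) ⟨v, mem_univ _, ?_⟩
      · have := hcon w; omega
      · have := hcon v; omega
    rw [hs, Finset.sum_const, card_univ, card_eq_nn, smul_eq_mul] at hlt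
    exact lt_irrefl _ hlt
  obtain ⟨i, hi⟩ := h4
  have h0 : 0 < t i := by have := h3 i; omega
  have e1 := hall ⟨i, ⟨0, h0⟩⟩
  have e2 := hall (nx t h3 ⟨i, ⟨0, h0⟩⟩)
  have e3 : f (nx t h3 (nx t h3 ⟨i, ⟨0, h0⟩⟩)) = f ⟨i, ⟨0, h0⟩⟩ := Fin.ext (by omega)
  have e4 := f.injective e3
  have e5 := eq_of_heq (Sigma.mk.inj e4).2
  have e6 : ((0 + 2) % t i + 2) % t i = 0 := congrArg Fin.val e5
  have h5 := h3 i
  rw [Nat.mod_eq_of_lt (by omega : 0 + 2 < t i)] at e6
  have e7 : t i ∣ 4 := Nat.dvd_of_mod_eq_zero e6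
  have e8 := Nat.le_of_dvd (by norm_num) e7
  have e9 : t i = 3 := by omega
  rw [e9] at e7
  omega

theorem bot_even (h3 : ∀ i, 3 ≤ t i) (h4 : ∃ i, t i ≠ 4) (f : (Σ i, Fin (t i)) ≃ Fin (nn t)) :
    ∃ v, ((f v : ℕ) + 1) + ((f (nx t h3 v) : ℕ) + 1) ≤ nn t := by
  obtain ⟨v, hv⟩ := top_even t h3 h4 (f.trans Fin.revPerm)
  refine ⟨v, ?_⟩
  simp only [Equiv.trans_apply, Fin.revPerm_apply, Fin.val_rev] at hv
  have h1 := (f v).2
  have h2 := (f (nx t h3 v)).2
  omega

end lower

end Pool.Agent.X72.TwoReg
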